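import Pool.Agent.U491.LR.F

/-! The definition of spread families with finite sets of classes; growth; the Fibonacci numbers. -/

set_option autoImplicit false

namespace Pool.Agent.U491.LR

open Finset Filter

/-- The family of sequences of integers `x` is spread modulo the powers of `d` up to the exponent `c`. -/
def Spread (d : ℕ) (c : ℝ) {ι : Type} (x : ι → ℕ → ℤ) : Prop :=
  ∀ η : ℝ, 0 < η → ∃ δ K : ℝ, 0 < δ ∧ 0 < K ∧ ∀ (i : ι) (N T : ℕ), 1 ≤ N → (d : ℝ) ^ T ≤ (N : ℝ) ^ c →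
    ∀ A : Finset ℤ, (A.card : ℝ) ≤ Real.exp (-(η * T)) * (d : ℝ) ^ T →
      (({n | 1 ≤ n ∧ n ≤ N ∧ ∃ a ∈ A, x i n ≡ a [ZMOD (d : ℤ) ^ T]} : Set ℕ).ncard : ℝ) ≤
        K * Real.exp (-(δ * T)) * N

theorem ncard_eq (N : ℕ) (P : ℕ → Prop) [DecidablePred P] :
    ({n | 1 ≤ n ∧ n ≤ N ∧ P n} : Set ℕ).ncard = #{n ∈ Icc 1 N | P n} := by
  classical
  have h : ({n | 1 ≤ n ∧ n ≤ N ∧ P n} : Set ℕ) = ((({n ∈ Icc 1 N | P n} : Finset ℕ)) : Set ℕ) := by
    ext n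
    simp [and_assoc]
  rw [h, Set.ncard_coe_finset]

theorem spread_iff {d : ℕ} (hd : 0 < d) {c : ℝ} {ι : Type} {x : ι → ℕ → ℤ} : Spread d c x ↔ Spr d c x := by
  classical
  constructor
  · intro h η hη
    obtain ⟨δ, K, hδ, hK, h1⟩ := h η hη
    refine ⟨δ, K, hδ, hK, fun i N T hN hT P hP hc => ?_⟩
    have h2 := h1 i N T hN hT (({a ∈ range (d ^ T) | P ((a : ℕ) : ℤ)} : Finset ℕ).image (fun a : ℕ => (a : ℤ)))
      (by
        refine le_trans ?_ hc
        exact_mod_cast card_image_le)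
    rw [ncard_eq] at h2
    refine le_trans ?_ h2
    have h3 : ({n ∈ Icc 1 N | P (x i n)} : Finset ℕ) ⊆ {n ∈ Icc 1 N | ∃ a ∈
        (({a ∈ range (d ^ T) | P ((a : ℕ) : ℤ)} : Finset ℕ).image (fun a : ℕ => (a : ℤ))),
        x i n ≡ a [ZMOD (d : ℤ) ^ T]} := by
      intro n hn
      rw [mem_filter] at hn ⊢
      refine ⟨hn.1, ?_⟩
      obtain ⟨a, ha, m, hm⟩ := exists_class hd T (x i n)
      have h4 : x i n ≡ ((a : ℕ) : ℤ) [ZMOD (d : ℤ) ^ T] := by
        rw [hm]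
        exact Int.modEq_iff_dvd.2 ⟨-m, by ring⟩
      refine ⟨(a : ℤ), ?_, h4⟩
      rw [mem_image]
      refine ⟨a, ?_, rfl⟩
      rw [mem_filter]
      exact ⟨ha, (per_modEq hP h4).1 hn.2⟩
    exact_mod_cast card_le_card h3
  · intro h η hη
    obtain ⟨δ, K, hδ, hK, h1⟩ := h η hη
    refine ⟨δ, K, hδ, hK, fun i N T hN hT A hA => ?_⟩
    have hper : ∀ z m : ℤ, (∃ a ∈ A, z + m * (d : ℤ) ^ T ≡ a [ZMOD (d : ℤ) ^ T]) ↔
        (∃ a ∈ A, z ≡ a [ZMOD (d : ℤ) ^ T]) := by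
      intro z m
      have e : z + m * (d : ℤ) ^ T ≡ z [ZMOD (d : ℤ) ^ T] := Int.modEq_iff_dvd.2 ⟨-m, by ring⟩
      constructor
      · rintro ⟨a, ha, h3⟩; exact ⟨a, ha, e.symm.trans h3⟩
      · rintro ⟨a, ha, h3⟩; exact ⟨a, ha, e.trans h3⟩
    have h3 := h1 i N T hN hT (fun z => ∃ a ∈ A, z ≡ a [ZMOD (d : ℤ) ^ T]) hper (by
      refine le_trans ?_ hA
      have h4 : #({c ∈ range (d ^ T) | ∃ a ∈ A, ((c : ℕ) : ℤ) ≡ a [ZMOD (d : ℤ) ^ T]} : Finset ℕ) ≤ #A := by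
        have h5 : ({c ∈ range (d ^ T) | ∃ a ∈ A, ((c : ℕ) : ℤ) ≡ a [ZMOD (d : ℤ) ^ T]} : Finset ℕ) ⊆
            A.image (fun a => (a % (d : ℤ) ^ T).toNat) := by
          intro c hc
          rw [mem_filter, mem_range] at hc
          obtain ⟨hc1, a, ha, hca⟩ := hc
          rw [mem_image]
          refine ⟨a, ha, ?_⟩
          have h6 : ((c : ℕ) : ℤ) % (d : ℤ) ^ T = a % (d : ℤ) ^ T := hca
          rw [← h6, Int.emod_eq_of_lt (by positivity) (by exact_mod_cast hc1)]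
          simp
        exact (card_le_card h5).trans card_image_le
      exact_mod_cast h4)
    rw [ncard_eq]
    refine le_trans (le_of_eq ?_) h3
    congr!

/-- faster growth than every power -/
def Fast (u : ℕ → ℤ) : Prop := ∀ A : ℝ, ∀ᶠ n : ℕ in atTop, (n : ℝ) ^ A ≤ |(u n : ℝ)|

theorem noConst_of_tendsto {u : ℕ → ℤ} (h : Tendsto (fun n => |u n|) atTop atTop) : NoConst u := by
  intro a q hq
  obtain ⟨N, hN⟩ := eventually_atTop.1 (h.eventually_gt_atTop |u a|)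
  refine ⟨N, fun h1 => ?_⟩
  have h2 : N ≤ a + q * N := (Nat.le_mul_of_pos_left N (by omega)).trans (Nat.le_add_left _ _)
  have h3 := hN _ h2
  rw [h1] at h3
  exact lt_irrefl _ h3

theorem Fast.noConst {u : ℕ → ℤ} (h : Fast u) : NoConst u := by
  apply noConst_of_tendsto
  rw [tendsto_atTop]
  intro b
  filter_upwards [h 1, eventually_ge_atTop b.toNat] with n hn hb
  rw [Real.rpow_one] at hn
  have h1 : ((n : ℕ) : ℤ) ≤ |u n| := by exact_mod_cast hn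
  have h2 : (b : ℤ) ≤ (b.toNat : ℤ) := Int.self_le_toNat b
  have h3 : ((b.toNat : ℕ) : ℤ) ≤ n := by exact_mod_cast hb
  linarith

theorem fib_coRec (d : ℕ) : CoRec d (fun n => (Nat.fib n : ℤ)) := by
  refine ⟨2, fun _ => 1, by norm_num, isCoprime_one_left, fun n => ?_⟩
  simp only [sum_range_succ, sum_range_zero, one_mul, zero_add, add_zero]
  rw [Nat.fib_add_two]
  push_cast; ring

theorem fib_lower (k : ℕ) : 2 ^ k ≤ Nat.fib (2 * k + 1) ∧ 2 ^ k ≤ Nat.fib (2 * k + 2) := by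
  induction k with
  | zero => simp
  | succ k ih =>
    have h1 : Nat.fib (2 * (k + 1) + 1) = Nat.fib (2 * k + 1) + Nat.fib (2 * k + 2) := Nat.fib_add_two
    have h2 : Nat.fib (2 * (k + 1) + 2) = Nat.fib (2 * k + 2) + Nat.fib (2 * (k + 1) + 1) := Nat.fib_add_two
    rw [pow_succ]
    omega

theorem fib_fast : Fast (fun n => (Nat.fib n : ℤ)) := by
  intro A
  have h1 : Tendsto (fun n : ℕ => (n : ℝ) ^ A / Real.exp (Real.log 2 / 2 * n)) atTop (nhds 0) :=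
    (isLittleO_rpow_exp_pos_mul_atTop A (show 0 < Real.log 2 / 2 by
      have := Real.log_pos (show (1 : ℝ) < 2 by norm_num)
      positivity)).tendsto_div_nhds_zero.comp tendsto_natCast_atTop_atTop
  filter_upwards [h1.eventually_le_const (show (0 : ℝ) < 1 / 2 by norm_num), eventually_ge_atTop 1] with n hn hn1
  have h2 : (n : ℝ) ^ A ≤ 1 / 2 * Real.exp (Real.log 2 / 2 * n) := by
    rwa [div_le_iff₀ (Real.exp_pos _)] at hn
  refine h2.trans ?_
  obtain ⟨k, hk⟩ : ∃ k, n = 2 * k + 1 ∨ n = 2 * k + 2 := ⟨(n - 1) / 2, by omega⟩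
  have h3 : (2 : ℝ) ^ k ≤ (Nat.fib n : ℝ) := by
    have h4 := fib_lower k
    rcases hk with hk | hk
    · rw [hk]; exact_mod_cast h4.1
    · rw [hk]; exact_mod_cast h4.2
  have h4 : 1 / 2 * Real.exp (Real.log 2 / 2 * n) ≤ (2 : ℝ) ^ k := by
    have e1 : (2 : ℝ) ^ k = Real.exp (k * Real.log 2) := by rw [Real.exp_nat_mul, Real.exp_log (by norm_num)]
    have e2 : (1 : ℝ) / 2 = Real.exp (-Real.log 2) := by rw [Real.exp_neg, Real.exp_log (by norm_num)]; norm_num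
    rw [e1, e2, ← Real.exp_add]
    apply Real.exp_le_exp.2
    have h5 : (n : ℝ) ≤ 2 * k + 2 := by
      have : n ≤ 2 * k + 2 := by omega
      exact_mod_cast this
    have h6 := Real.log_pos (show (1 : ℝ) < 2 by norm_num)
    nlinarith
  have h5 : |(((Nat.fib n : ℕ) : ℤ) : ℝ)| = (Nat.fib n : ℝ) := by
    rw [Int.cast_natCast]
    exact abs_of_nonneg (Nat.cast_nonneg _)
  rw [h5]
  exact h4.trans h3

end Pool.Agent.U491.LR
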