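import Pool.Agent.U491.LR.L
import Pool.Agent.U491.LR.Q

/-! The law in windows for fast growing sequences. -/

set_option autoImplicit false

namespace Pool.Agent.U491.LR

open Finset Polynomial Pool.Agent.H319R2.M Pool.Agent.Y927.GP Filter

/-- Few indices of a window have a term which is small compared with a power of the length. -/
theorem fast_small {u : ℕ → ℤ} (hu : Fast u) (B : ℝ) :
    ∃ K : ℝ, 0 < K ∧ ∀ X N : ℕ, 1 ≤ N → ∀ A : Finset ℕ, A ⊆ Icc 1 N →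
      (∀ n ∈ A, |(u (X + n) : ℝ)| < (N : ℝ) ^ B) → (A.card : ℝ) ≤ K * (N : ℝ) ^ (1 - 1 / 2 : ℝ) := by
  obtain ⟨n0, hn0⟩ := eventually_atTop.1 (hu (2 * B))
  refine ⟨n0 + 1, by positivity, fun X N hN A hAN hA => ?_⟩
  have hN1 : (1 : ℝ) ≤ N := by exact_mod_cast hN
  have hNp : (0 : ℝ) < N := by linarith
  have e0 : (1 : ℝ) - 1 / 2 = 1 / 2 := by norm_num
  rw [e0]
  have hs1 : (1 : ℝ) ≤ (N : ℝ) ^ (1 / 2 : ℝ) := Real.one_le_rpow hN1 (by norm_num)
  rcases le_or_gt B 0 with hB | hB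
  · -- all the indices are small
    have hsub : A ⊆ range (n0 + 1) := by
      intro n hn
      rw [mem_range]
      by_contra hcon
      push Not at hcon
      have hnN := (mem_Icc.1 (hAN hn))
      have h1 := hn0 (X + n) (by omega)
      have h2 := hA n hn
      have h3 : (1 : ℝ) ≤ ((X + n : ℕ) : ℝ) := by exact_mod_cast (by omega : 1 ≤ X + n)
      have h4 : (N : ℝ) ^ B ≤ 1 := Real.rpow_le_one_of_one_le_of_nonpos hN1 hB
      have h5 : |(u (X + n) : ℝ)| < 1 := lt_of_lt_of_le h2 h4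
      have h6 : u (X + n) = 0 := by
        have h7 : |u (X + n)| < 1 := by exact_mod_cast h5
        exact Int.abs_lt_one_iff.1 h7
      rw [h6] at h1
      have h7 : (0 : ℝ) < ((X + n : ℕ) : ℝ) ^ (2 * B) := Real.rpow_pos_of_pos (by linarith) _
      rw [Int.cast_zero, abs_zero] at h1
      linarith
    have h1 := card_le_card hsub
    rw [card_range] at h1
    have h2 : (A.card : ℝ) ≤ n0 + 1 := by exact_mod_cast h1
    refine h2.trans ?_
    exact le_mul_of_one_le_right (by positivity) hs1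
  · have hsub : A ⊆ range n0 ∪ Icc 1 ⌊(N : ℝ) ^ (1 / 2 : ℝ)⌋₊ := by
      intro n hn
      rw [mem_union, mem_range, mem_Icc]
      rcases lt_or_ge n n0 with h | h
      · left; exact h
      · right
        have hnN := (mem_Icc.1 (hAN hn))
        refine ⟨hnN.1, Nat.le_floor ?_⟩
        have h1 := hn0 (X + n) (by omega)
        have h2 := hA n hn
        have h3 : ((X + n : ℕ) : ℝ) ^ (2 * B) < (N : ℝ) ^ B := lt_of_le_of_lt h1 h2
        have h4 : (n : ℝ) ≤ ((X + n : ℕ) : ℝ) := by exact_mod_cast Nat.le_add_left n X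
        have h5 : (n : ℝ) ^ (2 * B) ≤ (N : ℝ) ^ B :=
          (Real.rpow_le_rpow (Nat.cast_nonneg _) h4 (by positivity)).trans h3.le
        have h6 : ((n : ℝ) ^ (2 * B)) ^ (1 / (2 * B)) ≤ ((N : ℝ) ^ B) ^ (1 / (2 * B)) :=
          Real.rpow_le_rpow (by positivity) h5 (by positivity)
        rw [← Real.rpow_mul (Nat.cast_nonneg _), ← Real.rpow_mul hNp.le] at h6
        have e1 : 2 * B * (1 / (2 * B)) = 1 := by field_simp
        have e2 : B * (1 / (2 * B)) = 1 / 2 := by field_simp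
        rw [e1, e2, Real.rpow_one] at h6
        exact h6
    have h1 := (card_le_card hsub).trans (card_union_le _ _)
    rw [card_range, Nat.card_Icc, Nat.add_sub_cancel] at h1
    have h2 : (A.card : ℝ) ≤ n0 + (⌊(N : ℝ) ^ (1 / 2 : ℝ)⌋₊ : ℝ) := by exact_mod_cast h1
    have h3 : (⌊(N : ℝ) ^ (1 / 2 : ℝ)⌋₊ : ℝ) ≤ (N : ℝ) ^ (1 / 2 : ℝ) := Nat.floor_le (by positivity)
    have h4 : (n0 : ℝ) ≤ n0 * (N : ℝ) ^ (1 / 2 : ℝ) := le_mul_of_one_le_right (Nat.cast_nonneg _) hs1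
    linarith

/-- The law in windows. -/
theorem law_fast {g : GM} {b' : ℤ → ℤ} {e : ℤ → ℕ} {C : Finset (ℤ × ℕ)} {ρ : ℤ × ℕ → ℝ} (hf : g.Fac b' e)
    (hC : g.Cls e C ρ) {u : ℕ → ℤ} (hx : Spr g.d 1 (fun (X : ℕ) (n : ℕ) => u (X + n))) (hu : Fast u) {ε : ℝ}
    (hε : 0 < ε) :
    ∃ δ K : ℝ, 0 < δ ∧ 0 < K ∧ ∀ X N : ℕ, 1 ≤ N → ∀ A : Finset ℕ, A ⊆ Icc 1 N →
      (∀ n ∈ A, u (X + n) ∈ g.SC C ∧ ¬ Typ g (mu g C ρ) ε N (u (X + n))) →
      (A.card : ℝ) ≤ K * (N : ℝ) ^ (1 - δ) := by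
  classical
  have hd1 : (1 : ℝ) < g.d := by have := g.dr; linarith
  have hL : 0 < Real.log g.d := Real.log_pos hd1
  set μ := mu g C ρ with hμ
  set κ : ℝ := max 0 (-μ / Real.log g.d) with hκdef
  have hκ0 : 0 ≤ κ := le_max_left _ _
  have hκ : -μ ≤ κ * Real.log g.d := by
    have h1 : -μ / Real.log g.d ≤ κ := le_max_right _ _
    rwa [div_le_iff₀ hL] at h1
  obtain ⟨δ2, K2, hδ2, hK2, h2⟩ := law hf hC one_pos hx hκ0 hκ hε
  obtain ⟨K1, hK1, h1⟩ := fast_small hu (κ + ε)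
  set δ := min (1 / 2) δ2 with hδ
  refine ⟨δ, K1 + K2, lt_min (by norm_num) hδ2, by positivity, ?_⟩
  intro X N hN A hAN hA
  have hN1 : (1 : ℝ) ≤ N := by exact_mod_cast hN
  set A1 := A.filter (fun n => |(u (X + n) : ℝ)| < (N : ℝ) ^ (κ + ε)) with hA1
  set A2 := A.filter (fun n => ¬ |(u (X + n) : ℝ)| < (N : ℝ) ^ (κ + ε)) with hA2
  have h3 : (A1.card : ℝ) ≤ K1 * (N : ℝ) ^ (1 - 1 / 2 : ℝ) :=
    h1 X N hN A1 ((filter_subset _ _).trans hAN) fun n hn => (mem_filter.1 hn).2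
  have h4 : (A2.card : ℝ) ≤ K2 * (N : ℝ) ^ (1 - δ2) := by
    apply h2 X N hN A2 ((filter_subset _ _).trans hAN)
    intro n hn
    rw [hA2, mem_filter] at hn
    obtain ⟨hnA, hbig⟩ := hn
    push Not at hbig
    obtain ⟨g1, g2⟩ := hA n hnA
    refine ⟨g1, ?_, ?_⟩
    · rw [Real.rpow_one]; exact hbig
    · rw [Real.rpow_one]; exact g2
  have h5 : A1.card + A2.card = A.card := Finset.card_filter_add_card_filter_not _
  have h6 : (A.card : ℝ) = A1.card + A2.card := by rw [← h5]; push_cast; rfl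
  rw [h6, add_mul]
  apply add_le_add
  · refine h3.trans (mul_le_mul_of_nonneg_left ?_ hK1.le)
    apply Real.rpow_le_rpow_of_exponent_le hN1
    have : δ ≤ 1 / 2 := min_le_left _ _
    linarith
  · refine h4.trans (mul_le_mul_of_nonneg_left ?_ hK2.le)
    apply Real.rpow_le_rpow_of_exponent_le hN1
    have : δ ≤ δ2 := min_le_right _ _
    linarith

end Pool.Agent.U491.LR
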