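import Pool.Agent.U491.LR.D

/-! Families of sequences which are spread modulo the powers of `d`, with a power saving. -/

set_option autoImplicit false

namespace Pool.Agent.U491.LR

open Finset Polynomial

open Classical in
/-- The family `x` is spread modulo the powers of `d`, in the range `d ^ T ≤ N ^ c`: an exponentially small
proportion of the classes contains an exponentially small proportion of the terms. -/
def Spr (d : ℕ) (c : ℝ) {ι : Type} (x : ι → ℕ → ℤ) : Prop :=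
  ∀ η : ℝ, 0 < η → ∃ δ K : ℝ, 0 < δ ∧ 0 < K ∧ ∀ (i : ι) (N T : ℕ), 1 ≤ N → (d : ℝ) ^ T ≤ (N : ℝ) ^ c →
    ∀ P : ℤ → Prop, (∀ z m : ℤ, P (z + m * (d : ℤ) ^ T) ↔ P z) →
      (#{a ∈ range (d ^ T) | P ((a : ℕ) : ℤ)} : ℝ) ≤ Real.exp (-(η * T)) * (d : ℝ) ^ T →
      (#{n ∈ Icc 1 N | P (x i n)} : ℝ) ≤ K * Real.exp (-(δ * T)) * N

theorem exists_class {d : ℕ} (hd : 0 < d) (T : ℕ) (y : ℤ) :
    ∃ c ∈ range (d ^ T), ∃ m : ℤ, y = ((c : ℕ) : ℤ) + m * (d : ℤ) ^ T := by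
  have h2T : (0 : ℤ) < (d : ℤ) ^ T := by positivity
  have h0 := Int.emod_nonneg y h2T.ne'
  have h1 := Int.emod_lt_of_pos y h2T
  have e : (((y % (d : ℤ) ^ T).toNat : ℕ) : ℤ) = y % (d : ℤ) ^ T := Int.toNat_of_nonneg h0
  refine ⟨(y % (d : ℤ) ^ T).toNat, ?_, y / (d : ℤ) ^ T, ?_⟩
  · rw [mem_range]
    have : (((y % (d : ℤ) ^ T).toNat : ℕ) : ℤ) < ((d ^ T : ℕ) : ℤ) := by rw [e]; push_cast; exact h1
    exact_mod_cast this
  · rw [e]
    have := Int.emod_add_mul_ediv y ((d : ℤ) ^ T)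
    rw [mul_comm] at this
    exact this.symm

theorem per_of {d T : ℕ} {P : ℤ → Prop} (hP : ∀ y m : ℤ, P (y + m * (d : ℤ) ^ T) ↔ P y) {y z : ℤ}
    (h : (d : ℤ) ^ T ∣ y - z) : P y ↔ P z := by
  obtain ⟨c, hc⟩ := h
  have : y = z + c * (d : ℤ) ^ T := by linear_combination hc
  rw [this]; exact hP z c

theorem per_modEq {d T : ℕ} {P : ℤ → Prop} (hP : ∀ y m : ℤ, P (y + m * (d : ℤ) ^ T) ↔ P y) {y z : ℤ}
    (h : y ≡ z [ZMOD (d : ℤ) ^ T]) : P y ↔ P z :=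
  per_of hP (Int.modEq_iff_dvd.1 h.symm)

section

variable {d : ℕ} {c : ℝ} {ι : Type} {x : ι → ℕ → ℤ}

theorem Spr.mono {c' : ℝ} (h : Spr d c x) (h1 : c' ≤ c) : Spr d c' x := by
  intro η hη
  obtain ⟨δ, K, hδ, hK, h2⟩ := h η hη
  refine ⟨δ, K, hδ, hK, fun i N T hN hT P hP hc => h2 i N T hN (hT.trans ?_) P hP hc⟩
  exact Real.rpow_le_rpow_of_exponent_le (by exact_mod_cast hN) h1

open Classical in
theorem triv_count (N : ℕ) (P : ℕ → Prop) : (#{n ∈ Icc 1 N | P n} : ℝ) ≤ N := by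
  have := card_filter_le (Icc 1 N) P
  rw [Nat.card_Icc, Nat.add_sub_cancel] at this
  exact_mod_cast this

/-- Spread by counting in classes. -/
theorem Spr.of_count (hd : 0 < d) {C : ℝ} (hC : 0 < C)
    (h : ∀ (i : ι) (N T : ℕ), 1 ≤ N → (d : ℝ) ^ T ≤ (N : ℝ) ^ c → ∀ a : ℤ,
      (#{n ∈ Icc 1 N | x i n ≡ a [ZMOD (d : ℤ) ^ T]} : ℝ) ≤ C * (N / (d : ℝ) ^ T)) : Spr d c x := by
  classical
  intro η hη
  refine ⟨η, C, hη, hC, fun i N T hN hT P hP hc => ?_⟩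
  have hdT : (0 : ℝ) < (d : ℝ) ^ T := by
    have : (0 : ℝ) < d := by exact_mod_cast hd
    positivity
  have hsub : ({n ∈ Icc 1 N | P (x i n)} : Finset ℕ) ⊆
      ({a ∈ range (d ^ T) | P ((a : ℕ) : ℤ)} : Finset ℕ).biUnion
        (fun a => {n ∈ Icc 1 N | x i n ≡ ((a : ℕ) : ℤ) [ZMOD (d : ℤ) ^ T]}) := by
    intro n hn
    rw [mem_filter] at hn
    rw [mem_biUnion]
    obtain ⟨a, ha, m, hm⟩ := exists_class hd T (x i n)
    have h1 : x i n ≡ ((a : ℕ) : ℤ) [ZMOD (d : ℤ) ^ T] := by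
      rw [hm]
      exact Int.modEq_iff_dvd.2 ⟨-m, by ring⟩
    refine ⟨a, ?_, ?_⟩
    · rw [mem_filter]
      exact ⟨ha, (per_modEq hP h1).1 hn.2⟩
    · rw [mem_filter]
      exact ⟨hn.1, h1⟩
  have h1 := (card_le_card hsub).trans card_biUnion_le
  have h2 : (#({n ∈ Icc 1 N | P (x i n)} : Finset ℕ) : ℝ) ≤
      ∑ a ∈ ({a ∈ range (d ^ T) | P ((a : ℕ) : ℤ)} : Finset ℕ), C * (N / (d : ℝ) ^ T) := by
    refine le_trans (b := ∑ a ∈ ({a ∈ range (d ^ T) | P ((a : ℕ) : ℤ)} : Finset ℕ),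
      (#{n ∈ Icc 1 N | x i n ≡ ((a : ℕ) : ℤ) [ZMOD (d : ℤ) ^ T]} : ℝ)) (by exact_mod_cast h1) ?_
    apply sum_le_sum
    intro a _
    have := h i N T hN hT (a : ℤ)
    refine le_trans (le_of_eq ?_) this
    congr!
  rw [sum_const, nsmul_eq_mul] at h2
  have hN0 : (0 : ℝ) ≤ N := Nat.cast_nonneg _
  calc (#({n ∈ Icc 1 N | P (x i n)} : Finset ℕ) : ℝ)
      ≤ #{a ∈ range (d ^ T) | P ((a : ℕ) : ℤ)} * (C * (N / (d : ℝ) ^ T)) := h2
    _ ≤ Real.exp (-(η * T)) * (d : ℝ) ^ T * (C * (N / (d : ℝ) ^ T)) := mul_le_mul_of_nonneg_right hc (by positivity)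
    _ = C * Real.exp (-(η * T)) * N := by field_simp

/-- Windows of natural numbers are spread. -/
theorem spr_window (hd : 0 < d) : Spr d 1 (fun (X : ℕ) (n : ℕ) => ((X + n : ℕ) : ℤ)) := by
  classical
  refine Spr.of_count hd (C := 2) (by norm_num) (fun X N T hN hT a => ?_)
  have hdT : 0 < d ^ T := pow_pos hd T
  have hdTr : (0 : ℝ) < (d : ℝ) ^ T := by exact_mod_cast hdT
  rw [Real.rpow_one] at hT
  have h1 : #({n ∈ Icc 1 N | ((X + n : ℕ) : ℤ) ≡ a [ZMOD (d : ℤ) ^ T]} : Finset ℕ) ≤ N / d ^ T + 1 := by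
    rw [← card_range (N / d ^ T + 1)]
    apply card_le_card_of_injOn (fun n => n / d ^ T)
    · intro n hn
      rw [mem_coe, mem_filter, mem_Icc] at hn
      rw [mem_coe, mem_range]
      exact Nat.lt_succ_of_le (Nat.div_le_div_right hn.1.2)
    · intro n hn n' hn' h
      rw [mem_coe, mem_filter, mem_Icc] at hn hn'
      simp only at h
      have h2 : ((X + n : ℕ) : ℤ) ≡ ((X + n' : ℕ) : ℤ) [ZMOD ((d ^ T : ℕ) : ℤ)] := by
        push_cast at hn hn' ⊢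
        exact hn.2.trans hn'.2.symm
      have h3 : X + n ≡ X + n' [MOD d ^ T] := (Int.natCast_modEq_iff).1 h2
      have h4 : n % d ^ T = n' % d ^ T := Nat.ModEq.add_left_cancel' X h3
      rw [← Nat.mod_add_div n (d ^ T), ← Nat.mod_add_div n' (d ^ T), h4, h]
  have h2 : (#({n ∈ Icc 1 N | ((X + n : ℕ) : ℤ) ≡ a [ZMOD (d : ℤ) ^ T]} : Finset ℕ) : ℝ) ≤
      ((N / d ^ T : ℕ) : ℝ) + 1 := by exact_mod_cast h1
  have h3 : ((N / d ^ T : ℕ) : ℝ) ≤ N / (d : ℝ) ^ T := by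
    have := Nat.cast_div_le (α := ℝ) (m := N) (n := d ^ T)
    push_cast at this
    exact this
  have h4 : (1 : ℝ) ≤ N / (d : ℝ) ^ T := by rw [le_div_iff₀ hdTr, one_mul]; exact hT
  refine le_trans (le_of_eq ?_) (h2.trans (by linarith))
  congr!

end

/-! ### Smooth sequences -/

theorem an_per {d : ℕ} (hd : 2 ≤ d) {b y : ℕ → ℤ} (h : An ((d : ℤ) ^ 2) b y) (T m q : ℕ) :
    (d : ℤ) ^ T ∣ y (m + d ^ T * q) - y m := by
  rcases eq_or_ne (y (m + d ^ T * q) - y m) 0 with h0 | h0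
  · rw [h0]; exact dvd_zero _
  apply Pool.Agent.Y927.GP.pow_dvd_of_primes (by omega) h0
  intro p hp hpd
  obtain ⟨b', hb'⟩ := h.of_dvd (q' := (p : ℤ) ^ 2) (pow_dvd_pow_of_dvd (by exact_mod_cast hpd) 2)
  set E := d.factorization p * T with hE
  have e1 := an_eval hp hb' E (m + d ^ T * q)
  have e2 := an_eval hp hb' E m
  have e3 : (p : ℤ) ^ E ∣ (G p b' E).eval ((m + d ^ T * q : ℕ) : ℤ) - (G p b' E).eval (m : ℤ) := by
    have h1 := (G p b' E).sub_dvd_eval_sub ((m + d ^ T * q : ℕ) : ℤ) (m : ℤ)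
    have e : ((m + d ^ T * q : ℕ) : ℤ) - (m : ℤ) = (d : ℤ) ^ T * q := by push_cast; ring
    rw [e] at h1
    have h2 : (p : ℤ) ^ E ∣ (d : ℤ) ^ T := by
      rw [hE, pow_mul]
      apply pow_dvd_pow_of_dvd
      exact_mod_cast Nat.ordProj_dvd d p
    exact (h2.mul_right _).trans h1
  have e4 := dvd_add (dvd_sub e1 e2) e3
  have e5 : y (m + d ^ T * q) - (G p b' E).eval ((m + d ^ T * q : ℕ) : ℤ) - (y m - (G p b' E).eval (m : ℤ)) +
    ((G p b' E).eval ((m + d ^ T * q : ℕ) : ℤ) - (G p b' E).eval (m : ℤ)) = y (m + d ^ T * q) - y m := by ring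
  rwa [e5] at e4

theorem sm_per {d : ℕ} (hd : 2 ≤ d) {M : ℕ} {u : ℕ → ℤ} (h : Sm ((d : ℤ) ^ 2) M u) (T n q : ℕ) :
    (d : ℤ) ^ T ∣ u (n + M * d ^ T * q) - u n := by
  obtain ⟨b, hb⟩ := h.an n
  have h1 := an_per hd hb T 0 q
  simp only [Nat.mul_zero, Nat.add_zero, Nat.zero_add] at h1
  have e : n + M * d ^ T * q = n + M * (d ^ T * q) := by ring
  rw [e]; exact h1

open Classical in
theorem sm_count {d : ℕ} (hd : 2 ≤ d) {M : ℕ} (hM : 0 < M) {u : ℕ → ℤ} (h : Sm ((d : ℤ) ^ 2) M u)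
    (hne : ∀ r, ∃ m, u (r + M * m) ≠ u r) {η : ℝ} (hη : 0 < η) :
    ∃ δ K : ℝ, 0 < δ ∧ 0 < K ∧ ∀ T : ℕ, ∀ P : ℤ → Prop, (∀ z m : ℤ, P (z + m * (d : ℤ) ^ T) ↔ P z) →
      (#{c ∈ range (d ^ T) | P ((c : ℕ) : ℤ)} : ℝ) ≤ Real.exp (-(η * T)) * (d : ℝ) ^ T →
      (#{n ∈ range (M * d ^ T) | P (u n)} : ℝ) ≤ K * Real.exp (-(δ * T)) * (d : ℝ) ^ T := by
  have h1 : ∀ r, ∃ δ K : ℝ, 0 < δ ∧ 0 < K ∧ ∀ T : ℕ, ∀ P : ℤ → Prop,
      (∀ z m : ℤ, P (z + m * (d : ℤ) ^ T) ↔ P z) →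
      (#{c ∈ range (d ^ T) | P ((c : ℕ) : ℤ)} : ℝ) ≤ Real.exp (-(η * T)) * (d : ℝ) ^ T →
      (#{m ∈ range (d ^ T) | P (u (r + M * m))} : ℝ) ≤ K * Real.exp (-(δ * T)) * (d : ℝ) ^ T := by
    intro r
    obtain ⟨b, hb⟩ := h.an r
    exact period_count hd hb (by
      obtain ⟨m, hm⟩ := hne r
      exact ⟨m, by simpa using hm⟩) hη
  choose δ K hδ0 hK0 hδ using h1
  obtain ⟨δ', hδ'0, hδ'⟩ : ∃ δ' : ℝ, 0 < δ' ∧ ∀ r < M, δ' ≤ δ r := by
    refine ⟨(range M).inf' (nonempty_range_iff.2 hM.ne') δ, ?_, fun r hr => ?_⟩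
    · exact (lt_inf'_iff _).2 fun r _ => hδ0 r
    · exact inf'_le _ (mem_range.2 hr)
  have hKs : ∀ r ∈ range M, K r ≤ ∑ s ∈ range M, K s := fun r hr =>
    Finset.single_le_sum (f := K) (fun _ _ => (hK0 _).le) hr
  have hKp : 0 < ∑ s ∈ range M, K s := sum_pos (fun _ _ => hK0 _) (nonempty_range_iff.2 hM.ne')
  refine ⟨δ', ∑ s ∈ range M, K s, hδ'0, hKp, fun T P hP hc => ?_⟩
  have hd0 : (0 : ℝ) < d := by exact_mod_cast (show 0 < d by omega)
  have h2T : (0 : ℝ) < (d : ℝ) ^ T := by positivity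
  have hsub : ({n ∈ range (M * d ^ T) | P (u n)} : Finset ℕ) ⊆
      (range M).biUnion (fun r => ({m ∈ range (d ^ T) | P (u (r + M * m))} : Finset ℕ).image (fun m => r + M * m)) := by
    intro n hn
    rw [mem_filter, mem_range] at hn
    rw [mem_biUnion]
    refine ⟨n % M, mem_range.2 (Nat.mod_lt _ hM), ?_⟩
    rw [mem_image]
    refine ⟨n / M, ?_, Nat.mod_add_div n M⟩
    rw [mem_filter, mem_range, Nat.mod_add_div]
    exact ⟨Nat.div_lt_of_lt_mul hn.1, hn.2⟩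
  have h3 := (card_le_card hsub).trans card_biUnion_le
  have h4 : (#({n ∈ range (M * d ^ T) | P (u n)} : Finset ℕ) : ℝ) ≤
      ∑ r ∈ range M, (#(({m ∈ range (d ^ T) | P (u (r + M * m))} : Finset ℕ).image (fun m => r + M * m)) : ℝ) := by
    exact_mod_cast h3
  refine h4.trans ?_
  rw [Finset.sum_mul, Finset.sum_mul]
  refine sum_le_sum fun r hr => ?_
  have h5 : (#(({m ∈ range (d ^ T) | P (u (r + M * m))} : Finset ℕ).image (fun m => r + M * m)) : ℝ) ≤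
      #({m ∈ range (d ^ T) | P (u (r + M * m))} : Finset ℕ) := by exact_mod_cast card_image_le
  refine h5.trans ((hδ r T P hP hc).trans ?_)
  apply mul_le_mul_of_nonneg_right _ h2T.le
  apply mul_le_mul_of_nonneg_left _ (hK0 r).le
  apply Real.exp_le_exp.2
  have := mul_le_mul_of_nonneg_right (hδ' r (mem_range.1 hr)) (Nat.cast_nonneg (α := ℝ) T)
  linarith

/-- Smooth sequences along spread families. -/
theorem Smooth.comp {d : ℕ} (hd : 2 ≤ d) {u : ℕ → ℤ} (hu : Smooth d u) (hne : NoConst u) {c : ℝ} {ι : Type}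
    {e : ι → ℕ → ℕ} (he : Spr d c (fun i n => (e i n : ℤ))) : Spr d c (fun i n => u (e i n)) := by
  classical
  obtain ⟨M, hM, hsm⟩ := (smooth_iff d u).1 hu
  intro η hη
  obtain ⟨δ1, K1, hδ1, hK1, h1⟩ := sm_count hd hM hsm (fun r => hne r M hM) hη
  obtain ⟨δ2, K2, hδ2, hK2, h2⟩ := he (δ1 / 2) (by positivity)
  have hd0 : (0 : ℝ) < d := by exact_mod_cast (show 0 < d by omega)
  obtain ⟨T0, hT0⟩ := exists_nat_ge (2 * Real.log (max K1 1) / δ1)
  refine ⟨δ2, K2 + Real.exp (δ2 * T0), hδ2, by positivity, fun i N T hN hT P hP hc => ?_⟩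
  have hN0 : (0 : ℝ) ≤ N := Nat.cast_nonneg _
  have hT0' : (0 : ℝ) ≤ T := Nat.cast_nonneg _
  rcases lt_or_ge T T0 with hTT | hTT
  · refine (triv_count N _).trans ?_
    have h3 : (1 : ℝ) ≤ (K2 + Real.exp (δ2 * T0)) * Real.exp (-(δ2 * T)) := by
      have h4 : (1 : ℝ) ≤ Real.exp (δ2 * T0) * Real.exp (-(δ2 * T)) := by
        rw [← Real.exp_add]
        apply Real.one_le_exp
        have : (T : ℝ) ≤ T0 := by exact_mod_cast hTT.le
        have := mul_le_mul_of_nonneg_left this hδ2.le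
        linarith
      refine h4.trans ?_
      apply mul_le_mul_of_nonneg_right _ (Real.exp_pos _).le
      linarith
    calc (N : ℝ) = 1 * N := (one_mul _).symm
      _ ≤ _ := mul_le_mul_of_nonneg_right h3 hN0
  have h3 := h1 T P hP hc
  set P' : ℤ → Prop := fun z => ∃ n : ℕ, (n : ℤ) ≡ z [ZMOD (d : ℤ) ^ T] ∧ P (u n) with hP'
  have hper : ∀ y m : ℤ, P' (y + m * (d : ℤ) ^ T) ↔ P' y := by
    intro y m
    have e1 : y + m * (d : ℤ) ^ T ≡ y [ZMOD (d : ℤ) ^ T] := Int.modEq_iff_dvd.2 ⟨-m, by ring⟩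
    constructor
    · rintro ⟨n, hn, hn2⟩; exact ⟨n, hn.trans e1, hn2⟩
    · rintro ⟨n, hn, hn2⟩; exact ⟨n, hn.trans e1.symm, hn2⟩
  have hcard : #({c ∈ range (d ^ T) | P' ((c : ℕ) : ℤ)} : Finset ℕ) ≤ #({n ∈ range (M * d ^ T) | P (u n)} : Finset ℕ) := by
    have hsub : ({c ∈ range (d ^ T) | P' ((c : ℕ) : ℤ)} : Finset ℕ) ⊆
        ({n ∈ range (M * d ^ T) | P (u n)} : Finset ℕ).image (fun n => n % d ^ T) := by
      intro c hc
      rw [mem_filter, mem_range] at hc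
      obtain ⟨hc1, n, hn1, hn2⟩ := hc
      rw [mem_image]
      refine ⟨n % (M * d ^ T), ?_, ?_⟩
      · rw [mem_filter, mem_range]
        refine ⟨Nat.mod_lt _ (by positivity), ?_⟩
        have h4 := sm_per hd hsm T (n % (M * d ^ T)) (n / (M * d ^ T))
        rw [Nat.mod_add_div] at h4
        exact (per_of hP h4).1 hn2
      · rw [Nat.mod_mul_left_mod]
        have h5 : ((n : ℕ) : ℤ) ≡ ((c : ℕ) : ℤ) [ZMOD ((d ^ T : ℕ) : ℤ)] := by push_cast; exact hn1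
        have h6 : n % d ^ T = c % d ^ T := (Int.natCast_modEq_iff).1 h5
        rw [h6, Nat.mod_eq_of_lt hc1]
    exact (card_le_card hsub).trans card_image_le
  have h4 : (#({c ∈ range (d ^ T) | P' ((c : ℕ) : ℤ)} : Finset ℕ) : ℝ) ≤
      Real.exp (-(δ1 / 2 * T)) * (d : ℝ) ^ T := by
    have h5 : (#({c ∈ range (d ^ T) | P' ((c : ℕ) : ℤ)} : Finset ℕ) : ℝ) ≤
        #({n ∈ range (M * d ^ T) | P (u n)} : Finset ℕ) := by exact_mod_cast hcard
    refine h5.trans (h3.trans ?_)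
    apply mul_le_mul_of_nonneg_right _ (by positivity)
    have h6 : K1 ≤ Real.exp (δ1 / 2 * T) := by
      have h7 : Real.log (max K1 1) ≤ δ1 / 2 * T := by
        have h8 : (T0 : ℝ) ≤ T := by exact_mod_cast hTT
        have h9 : 2 * Real.log (max K1 1) / δ1 ≤ T := hT0.trans h8
        rw [div_le_iff₀ hδ1] at h9
        linarith
      calc K1 ≤ max K1 1 := le_max_left _ _
        _ = Real.exp (Real.log (max K1 1)) := (Real.exp_log (by positivity)).symm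
        _ ≤ _ := Real.exp_le_exp.2 h7
    calc K1 * Real.exp (-(δ1 * T)) ≤ Real.exp (δ1 / 2 * T) * Real.exp (-(δ1 * T)) :=
          mul_le_mul_of_nonneg_right h6 (Real.exp_pos _).le
      _ = Real.exp (-(δ1 / 2 * T)) := by rw [← Real.exp_add]; congr 1; ring
  have h5 := h2 i N T hN hT P' hper h4
  have hsub : ({n ∈ Icc 1 N | P (u (e i n))} : Finset ℕ) ⊆ ({n ∈ Icc 1 N | P' ((e i n : ℕ) : ℤ)} : Finset ℕ) := by
    intro n hn
    rw [mem_filter] at hn ⊢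
    exact ⟨hn.1, e i n, Int.ModEq.refl _, hn.2⟩
  have h6 : (#({n ∈ Icc 1 N | P (u (e i n))} : Finset ℕ) : ℝ) ≤
      #({n ∈ Icc 1 N | P' ((e i n : ℕ) : ℤ)} : Finset ℕ) := by exact_mod_cast card_le_card hsub
  calc (#({n ∈ Icc 1 N | P (u (e i n))} : Finset ℕ) : ℝ) ≤ K2 * Real.exp (-(δ2 * T)) * N := h6.trans h5
    _ ≤ (K2 + Real.exp (δ2 * T0)) * Real.exp (-(δ2 * T)) * N := by
        apply mul_le_mul_of_nonneg_right _ hN0
        apply mul_le_mul_of_nonneg_right _ (Real.exp_pos _).le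
        have := Real.exp_pos (δ2 * T0)
        linarith

/-- The converse: a smooth (or any) sequence whose windows are spread is constant on no arithmetic
progression. -/
theorem noConst_of_spr {d : ℕ} (hd : 2 ≤ d) {u : ℕ → ℤ} {c : ℝ} (hc : 0 < c)
    (h : Spr d c (fun (X : ℕ) (n : ℕ) => u (X + n))) : NoConst u := by
  classical
  intro a q hq
  by_contra hcon
  push Not at hcon
  have hd1 : (1 : ℝ) < d := by exact_mod_cast (show 1 < d by omega)
  have hd0 : (0 : ℝ) < d := by linarith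
  obtain ⟨δ, K, hδ, hK, h1⟩ := h (Real.log d) (Real.log_pos hd1)
  have hqr : (1 : ℝ) ≤ q := by exact_mod_cast hq
  obtain ⟨T, hT⟩ := exists_nat_gt (Real.log (K * (2 * q)) / δ)
  have hKT : K * Real.exp (-(δ * T)) < 1 / (2 * q) := by
    rw [div_lt_iff₀ hδ] at hT
    have h2 : K * (2 * q) < Real.exp (δ * T) := by
      calc K * (2 * q) = Real.exp (Real.log (K * (2 * q))) := (Real.exp_log (by positivity)).symm
        _ < Real.exp (δ * T) := Real.exp_lt_exp.2 (by linarith)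
    rw [Real.exp_neg, ← div_eq_mul_inv, div_lt_div_iff₀ (Real.exp_pos _) (by positivity)]
    linarith
  -- a large `N`
  have h3 : Filter.Tendsto (fun N : ℕ => (N : ℝ) ^ c) Filter.atTop Filter.atTop :=
    (tendsto_rpow_atTop hc).comp tendsto_natCast_atTop_atTop
  obtain ⟨N, hN1, hN2⟩ := ((h3.eventually_ge_atTop ((d : ℝ) ^ T)).and
    (Filter.eventually_gt_atTop (4 * (a + 2 * q)))).exists
  set P : ℤ → Prop := fun z => z ≡ u a [ZMOD (d : ℤ) ^ T] with hP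
  have hper : ∀ z m : ℤ, P (z + m * (d : ℤ) ^ T) ↔ P z := by
    intro z m
    have e1 : z + m * (d : ℤ) ^ T ≡ z [ZMOD (d : ℤ) ^ T] := Int.modEq_iff_dvd.2 ⟨-m, by ring⟩
    exact ⟨fun h => e1.symm.trans h, fun h => e1.trans h⟩
  have hcl : (#{a ∈ range (d ^ T) | P ((a : ℕ) : ℤ)} : ℝ) ≤ Real.exp (-(Real.log d * T)) * (d : ℝ) ^ T := by
    have e1 : Real.exp (-(Real.log d * T)) * (d : ℝ) ^ T = 1 := by
      rw [Real.exp_neg, mul_comm (Real.log d), Real.exp_nat_mul, Real.exp_log hd0]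
      field_simp
    rw [e1]
    have h2 : #({a ∈ range (d ^ T) | P ((a : ℕ) : ℤ)} : Finset ℕ) ≤ 1 := by
      rw [card_le_one]
      intro a ha b hb
      rw [mem_filter, mem_range] at ha hb
      have h3 : ((a : ℕ) : ℤ) ≡ ((b : ℕ) : ℤ) [ZMOD ((d ^ T : ℕ) : ℤ)] := by
        push_cast; exact ha.2.trans hb.2.symm
      have h4 : a % d ^ T = b % d ^ T := (Int.natCast_modEq_iff).1 h3
      rwa [Nat.mod_eq_of_lt ha.1, Nat.mod_eq_of_lt hb.1] at h4
    exact_mod_cast h2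
  have h4 : (#({n ∈ Icc 1 N | P (u n)} : Finset ℕ) : ℝ) ≤ K * Real.exp (-(δ * T)) * N := by
    have h5 := h1 0 N T (by omega) hN1 P hper (by convert hcl)
    simp only [Nat.zero_add] at h5
    convert h5
  have h5 : (N - a) / q ≤ #({n ∈ Icc 1 N | P (u n)} : Finset ℕ) := by
    have h6 : #(Icc 1 ((N - a) / q)) ≤ #({n ∈ Icc 1 N | P (u n)} : Finset ℕ) := by
      apply card_le_card_of_injOn (fun m => a + q * m)
      · intro m hm
        rw [mem_coe, mem_Icc] at hm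
        rw [mem_coe, mem_filter, mem_Icc]
        have h7 : q * m ≤ N - a := (Nat.mul_le_mul_left q hm.2).trans (Nat.mul_div_le _ _)
        have h8 : 1 * 1 ≤ q * m := Nat.mul_le_mul hq hm.1
        refine ⟨⟨?_, ?_⟩, ?_⟩
        · change 1 ≤ a + q * m
          omega
        · change a + q * m ≤ N
          omega
        · change u (a + q * m) ≡ u a [ZMOD (d : ℤ) ^ T]
          rw [hcon m]
      · intro m _ m' _ h
        simp only at h
        exact Nat.eq_of_mul_eq_mul_left hq (by omega)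
    rw [Nat.card_Icc] at h6
    omega
  have h6 : N - a < q * ((N - a) / q) + q := by
    have := Nat.lt_mul_div_succ (N - a) (show 0 < q by omega)
    linarith [this, Nat.mul_succ q ((N - a) / q)]
  set k := #({n ∈ Icc 1 N | P (u n)} : Finset ℕ) with hk
  have h7 : N < a + q * k + q := by
    have : q * ((N - a) / q) ≤ q * k := Nat.mul_le_mul_left q h5
    omega
  have h8 : (N : ℝ) < a + q * k + q := by exact_mod_cast h7
  have hNp : (0 : ℝ) < N := by exact_mod_cast (show 0 < N by omega)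
  have h9 : (q : ℝ) * k ≤ N / 2 := by
    have h10 : (k : ℝ) ≤ 1 / (2 * q) * N := h4.trans (mul_le_mul_of_nonneg_right hKT.le hNp.le)
    calc (q : ℝ) * k ≤ q * (1 / (2 * q) * N) := mul_le_mul_of_nonneg_left h10 (by linarith)
      _ = N / 2 := by field_simp
  have h10 : ((4 * (a + 2 * q) : ℕ) : ℝ) < N := by exact_mod_cast hN2
  push_cast at h10
  have ha0 : (0 : ℝ) ≤ a := Nat.cast_nonneg _
  linarith

theorem Smooth.window {d : ℕ} (hd : 2 ≤ d) {u : ℕ → ℤ} (hu : Smooth d u) (hne : NoConst u) :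
    Spr d 1 (fun (X : ℕ) (n : ℕ) => u (X + n)) :=
  hu.comp hd hne (e := fun X n => X + n) (spr_window (by omega))

end Pool.Agent.U491.LR
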