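import Pool.Agent.Helper602.MK.J3
import Pool.Agent.W38.PRb
import Pool.Agent.U491.LR.F

/-! The primes are spread modulo the powers of `d`. -/

set_option autoImplicit false

namespace Pool.Agent.U491.LR

open Finset

theorem tot_le {d T : ℕ} (hd : 2 ≤ d) (hT : 1 ≤ T) :
    (((d ^ T : ℕ) : ℝ)) / (Nat.totient (d ^ T) : ℝ) ≤ d := by
  have h1 := Nat.totient_mul_prod_primeFactors (d ^ T)
  rw [Nat.primeFactors_pow d (by omega)] at h1
  have h2 : ∏ p ∈ d.primeFactors, p ≤ d := Nat.le_of_dvd (by omega) (Nat.prod_primeFactors_dvd d)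
  have h3 : 1 ≤ ∏ p ∈ d.primeFactors, (p - 1) := by
    apply Nat.one_le_iff_ne_zero.2
    rw [Finset.prod_ne_zero_iff]
    intro p hp
    have := (Nat.mem_primeFactors.1 hp).1.two_le
    omega
  have h4 : d ^ T ≤ Nat.totient (d ^ T) * d := by
    calc d ^ T = d ^ T * 1 := (mul_one _).symm
      _ ≤ d ^ T * ∏ p ∈ d.primeFactors, (p - 1) := Nat.mul_le_mul_left _ h3
      _ = Nat.totient (d ^ T) * ∏ p ∈ d.primeFactors, p := h1.symm
      _ ≤ Nat.totient (d ^ T) * d := Nat.mul_le_mul_left _ h2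
  have h5 : (0 : ℝ) < Nat.totient (d ^ T) := by
    exact_mod_cast Nat.totient_pos.2 (pow_pos (by omega) T)
  rw [div_le_iff₀ h5, mul_comm]
  exact_mod_cast h4

theorem primeCounting_nth (N : ℕ) : Nat.primeCounting (Nat.nth Nat.Prime N) = N + 1 := by
  rw [Nat.primeCounting, Nat.primeCounting', Nat.count_succ,
    Nat.count_nth_of_infinite Nat.infinite_setOfPred_prime, if_pos (Nat.nth_mem_of_infinite Nat.infinite_setOfPred_prime N)]

theorem spr_prime {d : ℕ} (hd : 2 ≤ d) {ι : Type} :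
    Spr d (1 / 2) (fun (_ : ι) (n : ℕ) => ((Nat.nth Nat.Prime n : ℕ) : ℤ)) := by
  classical
  obtain ⟨c0, hc0, hcheb⟩ := Pool.Agent.W38.PR.cheb
  obtain ⟨C, hC1, hBT⟩ := Pool.Agent.Helper602.MK.BTLib.brun_titchmarsh
  have hd0 : (0 : ℝ) < d := by exact_mod_cast (show 0 < d by omega)
  refine Spr.of_count (by omega) (C := 8 * C * d / c0 + 1) (by positivity) (fun _ N T hN hT a => ?_)
  set X : ℕ := Nat.nth Nat.Prime N with hX
  have hNr : (1 : ℝ) ≤ N := by exact_mod_cast hN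
  have hXN : N ≤ X := Nat.le_nth (fun hf => absurd hf Nat.infinite_setOfPred_prime)
  have hXNr : (N : ℝ) ≤ X := by exact_mod_cast hXN
  have hprime : X.Prime := Nat.nth_mem_of_infinite Nat.infinite_setOfPred_prime N
  have hX2 : (2 : ℝ) ≤ X := by exact_mod_cast hprime.two_le
  rcases Nat.eq_zero_or_pos T with hT0 | hT0
  · have h1 := triv_count N (fun n => ((Nat.nth Nat.Prime n : ℕ) : ℤ) ≡ a [ZMOD (d : ℤ) ^ T])
    refine le_trans (le_of_eq ?_) (h1.trans ?_)
    · congr!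
    rw [hT0, pow_zero, div_one]
    have : (0 : ℝ) ≤ 8 * C * d / c0 * N := by positivity
    linarith
  set q : ℕ := d ^ T with hq
  have hq2 : 2 ≤ q := hd.trans (Nat.le_self_pow (by omega) d)
  have hqr : ((q : ℕ) : ℝ) = (d : ℝ) ^ T := by rw [hq]; push_cast; rfl
  have hqz : ((q : ℕ) : ℤ) = (d : ℤ) ^ T := by rw [hq]; push_cast; rfl
  have hqp : (0 : ℝ) < q := by exact_mod_cast (show 0 < q by omega)
  have hqX : (q : ℝ) ≤ (X : ℝ) ^ (1 / 2 : ℝ) := by
    rw [hqr]
    exact hT.trans (Real.rpow_le_rpow (by positivity) hXNr (by norm_num))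
  have hXp : (0 : ℝ) < X := by linarith
  have hqq : (q : ℝ) * q ≤ X := by
    calc (q : ℝ) * q ≤ (X : ℝ) ^ (1 / 2 : ℝ) * (X : ℝ) ^ (1 / 2 : ℝ) := mul_le_mul hqX hqX hqp.le (by positivity)
      _ = X := by rw [← Real.rpow_add hXp]; norm_num
  have hqq' : q * q ≤ X := by exact_mod_cast hqq
  set a0 : ℕ := (a % (d : ℤ) ^ T).toNat with ha0
  have hdT : (0 : ℤ) < (d : ℤ) ^ T := by positivity
  have ha1 : ((a0 : ℕ) : ℤ) = a % (d : ℤ) ^ T := Int.toNat_of_nonneg (Int.emod_nonneg a hdT.ne')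
  set N' : ℕ := X / q + 1 with hN'
  have hN'2 : 2 ≤ N' := by
    have : q ≤ X / q := (Nat.le_div_iff_mul_le (by omega)).2 hqq'
    omega
  have h1 : #{n ∈ Icc 1 N | ((Nat.nth Nat.Prime n : ℕ) : ℤ) ≡ a [ZMOD (d : ℤ) ^ T]} ≤
      #((range N').filter (fun k => (a0 + k * q).Prime)) := by
    apply card_le_card_of_injOn (fun n => Nat.nth Nat.Prime n / q)
    · intro n hn
      rw [mem_coe, mem_filter, mem_Icc] at hn
      rw [mem_coe, mem_filter, mem_range]
      have hp : (Nat.nth Nat.Prime n).Prime := Nat.nth_mem_of_infinite Nat.infinite_setOfPred_prime n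
      have hle : Nat.nth Nat.Prime n ≤ X := Nat.nth_monotone Nat.infinite_setOfPred_prime hn.1.2
      refine ⟨Nat.lt_succ_of_le (Nat.div_le_div_right hle), ?_⟩
      have h2 : Nat.nth Nat.Prime n % q = a0 := by
        have h3 : ((Nat.nth Nat.Prime n : ℕ) : ℤ) % (d : ℤ) ^ T = a % (d : ℤ) ^ T := hn.2
        rw [← ha1, ← hqz] at h3
        exact_mod_cast h3
      have h3 : a0 + Nat.nth Nat.Prime n / q * q = Nat.nth Nat.Prime n := by
        rw [← h2, mul_comm]
        exact Nat.mod_add_div _ _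
      simp only
      rw [h3]; exact hp
    · intro n hn n' hn' h
      rw [mem_coe, mem_filter, mem_Icc] at hn hn'
      simp only at h
      apply Nat.nth_injective Nat.infinite_setOfPred_prime
      have h2 : ((Nat.nth Nat.Prime n : ℕ) : ℤ) ≡ ((Nat.nth Nat.Prime n' : ℕ) : ℤ) [ZMOD ((q : ℕ) : ℤ)] := by
        rw [hqz]; exact hn.2.trans hn'.2.symm
      have h3 : Nat.nth Nat.Prime n % q = Nat.nth Nat.Prime n' % q := (Int.natCast_modEq_iff).1 h2
      rw [← Nat.mod_add_div (Nat.nth Nat.Prime n) q, ← Nat.mod_add_div (Nat.nth Nat.Prime n') q, h3, h]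
  have h2 := hBT a0 q N' (by omega) hN'2
  have h3 := tot_le hd hT0
  rw [← hq] at h3
  have hN'r : (2 : ℝ) ≤ N' := by exact_mod_cast hN'2
  have hL' : 0 < Real.log N' := Real.log_pos (by linarith)
  have hL : 0 < Real.log X := Real.log_pos (by linarith)
  have h4 : (N' : ℝ) ≤ 2 * X / q := by
    have h5 : ((X / q : ℕ) : ℝ) ≤ X / q := Nat.cast_div_le
    have h6 : (1 : ℝ) ≤ X / q := by
      rw [le_div_iff₀ hqp]
      have : (1 : ℝ) ≤ q := by exact_mod_cast (show 1 ≤ q by omega)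
      nlinarith
    rw [hN']
    push_cast
    calc ((X / q : ℕ) : ℝ) + 1 ≤ X / q + X / q := add_le_add h5 h6
      _ = 2 * X / q := by ring
  have h5 : Real.log X / 2 ≤ Real.log N' := by
    have h6 : (X : ℝ) / q ≤ N' := by
      rw [div_le_iff₀ hqp]
      have h7 : X < (X / q + 1) * q := by
        have := Nat.lt_mul_div_succ X (show 0 < q by omega)
        rw [mul_comm]; exact this
      exact_mod_cast h7.le
    have h7 : (X : ℝ) ^ (1 / 2 : ℝ) ≤ X / q := by
      rw [le_div_iff₀ hqp]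
      calc (X : ℝ) ^ (1 / 2 : ℝ) * q ≤ (X : ℝ) ^ (1 / 2 : ℝ) * (X : ℝ) ^ (1 / 2 : ℝ) :=
            mul_le_mul_of_nonneg_left hqX (by positivity)
        _ = X := by rw [← Real.rpow_add hXp]; norm_num
    have h8 := Real.log_le_log (by positivity) (h7.trans h6)
    rw [Real.log_rpow hXp] at h8
    linarith
  have h6 : (X : ℝ) / Real.log X ≤ 2 * N / c0 := by
    have h7 := hcheb X hX2
    rw [Nat.floor_natCast, hX, primeCounting_nth, ← hX] at h7
    rw [le_div_iff₀ hc0]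
    push_cast at h7
    linarith
  have h7 : (#{n ∈ Icc 1 N | ((Nat.nth Nat.Prime n : ℕ) : ℤ) ≡ a [ZMOD (d : ℤ) ^ T]} : ℝ) ≤
      #((range N').filter (fun k => (a0 + k * q).Prime)) := by exact_mod_cast h1
  have hN'0 : (0 : ℝ) ≤ N' := Nat.cast_nonneg _
  have hC0 : (0 : ℝ) ≤ C := by linarith
  calc (#{n ∈ Icc 1 N | ((Nat.nth Nat.Prime n : ℕ) : ℤ) ≡ a [ZMOD (d : ℤ) ^ T]} : ℝ)
      ≤ C * ((q : ℝ) / (Nat.totient q : ℝ)) * N' / Real.log N' := h7.trans h2
    _ ≤ C * d * (2 * X / q) / (Real.log X / 2) := by gcongr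
    _ = 4 * C * d / q * (X / Real.log X) := by field_simp; ring
    _ ≤ 4 * C * d / q * (2 * N / c0) := mul_le_mul_of_nonneg_left h6 (by positivity)
    _ = 8 * C * d / c0 * (N / q) := by field_simp; ring
    _ ≤ (8 * C * d / c0 + 1) * (N / (d : ℝ) ^ T) := by
        rw [← hqr]
        apply mul_le_mul_of_nonneg_right _ (by positivity)
        linarith

end Pool.Agent.U491.LR
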