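import Pool.Agent.U491.LR.L
import Pool.Agent.U491.LR.Q

/-! The lowest digits of the terms of spread families: frequencies of words, incompressibility. -/

set_option autoImplicit false

namespace Pool.Agent.U491.LR

open Finset

/-- The number of occurrences of the word with value `a < q ^ k`, of length `k`, among the `T` lowest digits
of `x` in base `q`. -/
def occ (q k a T : ℕ) (x : ℤ) : ℕ := #{i ∈ range T | i + k ≤ T ∧ x / (q : ℤ) ^ i % (q : ℤ) ^ k = a}

theorem sum_split (Q m : ℕ) (f : ℕ → ℝ) :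
    ∑ z ∈ range (Q * m), f z = ∑ z ∈ range m, ∑ r ∈ range Q, f (Q * z + r) := by
  induction m with
  | zero => simp
  | succ m ih => rw [Nat.mul_succ, sum_range_add, ih, sum_range_succ]

theorem gen_digits {Q : ℕ} (hQ : 0 < Q) (J : ℕ) {a : ℕ} (ha : a < Q) (s : ℝ) :
    ∑ z ∈ range (Q ^ J), Real.exp (s * (#{j ∈ range J | z / Q ^ j % Q = a} : ℝ)) =
      ((Q : ℝ) - 1 + Real.exp s) ^ J := by
  induction J with
  | zero => simp
  | succ J ih =>
    rw [pow_succ' Q J, sum_split]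
    have h1 : ∀ z ∈ range (Q ^ J), ∀ r ∈ range Q,
        Real.exp (s * (#{j ∈ range (J + 1) | (Q * z + r) / Q ^ j % Q = a} : ℝ)) =
          (if r = a then Real.exp s else 1) * Real.exp (s * (#{j ∈ range J | z / Q ^ j % Q = a} : ℝ)) := by
      intro z _ r hr
      rw [mem_range] at hr
      have h2 : (#{j ∈ range (J + 1) | (Q * z + r) / Q ^ j % Q = a} : ℝ) =
          (if r = a then 1 else 0) + (#{j ∈ range J | z / Q ^ j % Q = a} : ℝ) := by
        rw [card_filter, card_filter, sum_range_succ']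
        have e0 : (Q * z + r) / Q ^ 0 % Q = r := by
          rw [pow_zero, Nat.div_one, Nat.mul_add_mod, Nat.mod_eq_of_lt hr]
        rw [e0]
        have e1 : ∀ j, (Q * z + r) / Q ^ (j + 1) = z / Q ^ j := by
          intro j
          rw [pow_succ', ← Nat.div_div_eq_div_mul, Nat.mul_add_div hQ, Nat.div_eq_of_lt hr, add_zero]
        simp only [e1]
        push_cast
        rw [add_comm]
      rw [h2, mul_add, Real.exp_add]
      congr 1
      split_ifs <;> simp
    rw [sum_congr rfl (fun z hz => sum_congr rfl (h1 z hz))]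
    simp_rw [← sum_mul]
    rw [← mul_sum, ih, pow_succ']
    congr 1
    have h3 : ∀ i ∈ range Q, (if i = a then Real.exp s else 1) = 1 + (if i = a then Real.exp s - 1 else 0) := by
      intro i _
      split_ifs <;> ring
    rw [sum_congr rfl h3, sum_add_distrib, sum_ite_eq' (range Q) a, if_pos (mem_range.2 ha)]
    simp
    ring

theorem exp_base {Q : ℕ} (hQ : 2 ≤ Q) {s : ℝ} (hs : |s| ≤ 1) :
    (Q : ℝ) - 1 + Real.exp s ≤ Q * Real.exp (s / Q + s ^ 2 / 2) := by
  have hQ0 : (2 : ℝ) ≤ Q := by exact_mod_cast hQ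
  have h1 := Real.abs_exp_sub_one_sub_id_le hs
  have h2 := (abs_le.1 h1).2
  have h3 := Real.add_one_le_exp (s / Q + s ^ 2 / 2)
  have h4 : (Q : ℝ) * (s / Q + s ^ 2 / 2 + 1) = s + Q * s ^ 2 / 2 + Q := by field_simp
  have h5 : (2 : ℝ) * s ^ 2 ≤ Q * s ^ 2 := mul_le_mul_of_nonneg_right hQ0 (sq_nonneg s)
  have h6 := mul_le_mul_of_nonneg_left h3 (by linarith : (0 : ℝ) ≤ Q)
  rw [h4] at h6
  linarith

theorem one_tail {Q : ℕ} (hQ : 2 ≤ Q) {ε : ℝ} (hε1 : ε ≤ 1) (J : ℕ) {a : ℕ} (ha : a < Q)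
    {s : ℝ} (hs : s = ε ∨ s = -ε) (hε : 0 < ε) :
    (#{z ∈ range (Q ^ J) | ε * |s| * J ≤ s * ((#{j ∈ range J | z / Q ^ j % Q = a} : ℝ) - J / Q)} : ℝ) ≤
      Real.exp (-(ε ^ 2 / 2 * J)) * (Q : ℝ) ^ J := by
  have hs1 : |s| = ε := by
    rcases hs with h | h
    · rw [h, abs_of_pos hε]
    · rw [h, abs_neg, abs_of_pos hε]
  have hs2 : s ^ 2 = ε ^ 2 := by rw [← sq_abs, hs1]
  rw [card_filter, Nat.cast_sum]
  have h1 : ∀ z ∈ range (Q ^ J), ((if ε * |s| * J ≤ s * ((#{j ∈ range J | z / Q ^ j % Q = a} : ℝ) - J / Q)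
      then 1 else 0 : ℕ) : ℝ) ≤ Real.exp (-(ε * |s| * J) - s * (J / Q)) *
        Real.exp (s * (#{j ∈ range J | z / Q ^ j % Q = a} : ℝ)) := by
    intro z _
    rw [← Real.exp_add]
    split_ifs with h
    · rw [Nat.cast_one]
      apply Real.one_le_exp
      linarith
    · rw [Nat.cast_zero]; positivity
  refine (sum_le_sum h1).trans ?_
  rw [← mul_sum, gen_digits (by omega) J ha s]
  have h2 := exp_base hQ (s := s) (by rw [hs1]; exact hε1)
  have hQ1 : (2 : ℝ) ≤ Q := by exact_mod_cast hQ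
  have h3 : ((Q : ℝ) - 1 + Real.exp s) ^ J ≤ (Q * Real.exp (s / Q + s ^ 2 / 2)) ^ J :=
    pow_le_pow_left₀ (by linarith [Real.exp_pos s]) h2 J
  refine (mul_le_mul_of_nonneg_left h3 (Real.exp_pos _).le).trans ?_
  rw [mul_pow, ← Real.exp_nat_mul, mul_left_comm, ← Real.exp_add, mul_comm]
  apply mul_le_mul_of_nonneg_right _ (by positivity)
  apply Real.exp_le_exp.2
  rw [hs1, hs2]
  apply le_of_eq
  ring

theorem tail {Q : ℕ} (hQ : 2 ≤ Q) {ε : ℝ} (hε : 0 < ε) (hε1 : ε ≤ 1) (J : ℕ) {a : ℕ} (ha : a < Q) :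
    (#{z ∈ range (Q ^ J) | ε * J < |(#{j ∈ range J | z / Q ^ j % Q = a} : ℝ) - J / Q|} : ℝ) ≤
      2 * Real.exp (-(ε ^ 2 / 2 * J)) * (Q : ℝ) ^ J := by
  have h1 := one_tail hQ hε1 J ha (Or.inl rfl) hε
  have h2 := one_tail hQ hε1 J ha (Or.inr rfl) hε
  have h3 : ({z ∈ range (Q ^ J) | ε * J < |(#{j ∈ range J | z / Q ^ j % Q = a} : ℝ) - J / Q|} : Finset ℕ) ⊆
      {z ∈ range (Q ^ J) | ε * |ε| * J ≤ ε * ((#{j ∈ range J | z / Q ^ j % Q = a} : ℝ) - J / Q)} ∪
      {z ∈ range (Q ^ J) | ε * |-ε| * J ≤ -ε * ((#{j ∈ range J | z / Q ^ j % Q = a} : ℝ) - J / Q)} := by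
    intro z hz
    rw [mem_filter] at hz
    rw [mem_union, mem_filter, mem_filter, abs_neg, abs_of_pos hε]
    rcases lt_abs.1 hz.2 with h | h
    · left
      refine ⟨hz.1, ?_⟩
      have := mul_le_mul_of_nonneg_left h.le hε.le
      linarith
    · right
      refine ⟨hz.1, ?_⟩
      have := mul_le_mul_of_nonneg_left h.le hε.le
      linarith
  have h4 : (#{z ∈ range (Q ^ J) | ε * J < |(#{j ∈ range J | z / Q ^ j % Q = a} : ℝ) - J / Q|} : ℝ) ≤
      (#{z ∈ range (Q ^ J) | ε * |ε| * J ≤ ε * ((#{j ∈ range J | z / Q ^ j % Q = a} : ℝ) - J / Q)} : ℝ) +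
      (#{z ∈ range (Q ^ J) | ε * |-ε| * J ≤ -ε * ((#{j ∈ range J | z / Q ^ j % Q = a} : ℝ) - J / Q)} : ℝ) := by
    exact_mod_cast (card_le_card h3).trans (card_union_le _ _)
  linarith

/-- The count of the `y < q ^ T` whose digits at the places `r, ..., r + m - 1` have a property. -/
theorem count_mid {q : ℕ} (hq : 0 < q) {r m T : ℕ} (h : r + m ≤ T) (P : ℕ → Prop) [DecidablePred P] :
    (#{y ∈ range (q ^ T) | P (y / q ^ r % q ^ m)} : ℝ) * (q : ℝ) ^ m =
      (#{z ∈ range (q ^ m) | P z} : ℝ) * (q : ℝ) ^ T := by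
  obtain ⟨t, rfl⟩ := Nat.exists_eq_add_of_le h
  rw [card_filter, card_filter, Nat.cast_sum, Nat.cast_sum]
  have e1 : q ^ (r + m + t) = q ^ r * q ^ m * q ^ t := by rw [pow_add, pow_add]
  rw [e1, sum_split]
  have hr : 0 < q ^ r := pow_pos hq r
  have hm : 0 < q ^ m := pow_pos hq m
  have e2 : ∀ v ∈ range (q ^ t), ∀ w ∈ range (q ^ r * q ^ m),
      (((if P ((q ^ r * q ^ m * v + w) / q ^ r % q ^ m) then 1 else 0 : ℕ)) : ℝ) =
        ((if P (w / q ^ r) then 1 else 0 : ℕ) : ℝ) := by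
    intro v _ w hw
    rw [mem_range] at hw
    have e3 : (q ^ r * q ^ m * v + w) / q ^ r % q ^ m = w / q ^ r := by
      rw [mul_assoc, Nat.mul_add_div hr, Nat.mul_add_mod, Nat.mod_eq_of_lt]
      exact Nat.div_lt_of_lt_mul hw
    rw [e3]
  rw [sum_congr rfl (fun v hv => sum_congr rfl (e2 v hv)), sum_const, card_range, sum_split]
  have e4 : ∀ z ∈ range (q ^ m), ∀ w ∈ range (q ^ r),
      (((if P ((q ^ r * z + w) / q ^ r) then 1 else 0 : ℕ)) : ℝ) = ((if P z then 1 else 0 : ℕ) : ℝ) := by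
    intro z _ w hw
    rw [mem_range] at hw
    have e3 : (q ^ r * z + w) / q ^ r = z := by
      rw [Nat.mul_add_div hr, Nat.div_eq_of_lt hw, add_zero]
    rw [e3]
  rw [sum_congr rfl (fun z hz => sum_congr rfl (e4 z hz))]
  simp only [sum_const, card_range, nsmul_eq_mul]
  rw [← mul_sum]
  push_cast
  rw [pow_add, pow_add]
  ring

theorem fiber_card {k : ℕ} (hk : 1 ≤ k) (T : ℕ) (P : ℕ → Prop) [DecidablePred P] :
    #{i ∈ range T | i + k ≤ T ∧ P i} = ∑ r ∈ range k, #{j ∈ range ((T - r) / k) | P (k * j + r)} := by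
  have h0 : ∀ i ∈ ({i ∈ range T | i + k ≤ T ∧ P i} : Finset ℕ), i % k ∈ range k := fun i _ =>
    mem_range.2 (Nat.mod_lt _ (by omega))
  rw [card_eq_sum_card_fiberwise h0]
  apply sum_congr rfl
  intro r hr
  rw [mem_range] at hr
  have key : ∀ j : ℕ, j < (T - r) / k ↔ k * j + r + k ≤ T := by
    intro j
    rw [← Nat.succ_le_iff, Nat.le_div_iff_mul_le (by omega), Nat.succ_eq_add_one]
    have : (j + 1) * k = k * j + k := by ring
    rw [this]
    constructor
    · intro h; omega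
    · intro h; omega
  refine card_bij' (fun i _ => i / k) (fun j _ => k * j + r) ?_ ?_ ?_ ?_
  · intro i hi
    rw [mem_filter, mem_filter, mem_range] at hi
    rw [mem_filter, mem_range, key]
    have e : k * (i / k) + r = i := by rw [← hi.2]; exact Nat.div_add_mod i k
    rw [e]
    exact hi.1.2
  · intro j hj
    rw [mem_filter, mem_range, key] at hj
    rw [mem_filter, mem_filter, mem_range]
    refine ⟨⟨by omega, hj⟩, ?_⟩
    rw [Nat.mul_add_mod, Nat.mod_eq_of_lt hr]
  · intro i hi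
    rw [mem_filter, mem_filter, mem_range] at hi
    rw [← hi.2]; exact Nat.div_add_mod i k
  · intro j hj
    rw [Nat.mul_add_div (by omega), Nat.div_eq_of_lt hr, add_zero]

theorem dig_mod {Q J j : ℕ} (hj : j < J) (z : ℕ) : z % Q ^ J / Q ^ j % Q = z / Q ^ j % Q := by
  obtain ⟨t, rfl⟩ := Nat.exists_eq_add_of_lt hj
  have e : Q ^ (j + t + 1) = Q ^ j * Q ^ (t + 1) := by rw [← pow_add]; congr 1
  rw [e, Nat.mod_mul_right_div_self, Nat.mod_mod_of_dvd _ (dvd_pow_self Q (by omega))]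

theorem occ_nat (q k a T y : ℕ) :
    occ q k a T (y : ℤ) = #{i ∈ range T | i + k ≤ T ∧ y / q ^ i % q ^ k = a} := by
  unfold occ
  congr 1
  ext i
  rw [mem_filter, mem_filter]
  have : ((y : ℤ) / (q : ℤ) ^ i % (q : ℤ) ^ k = (a : ℤ)) ↔ y / q ^ i % q ^ k = a := by
    exact_mod_cast Iff.rfl
  rw [this]

theorem occ_per {q k a T : ℕ} (hq : 0 < q) (z m : ℤ) : occ q k a T (z + m * (q : ℤ) ^ T) = occ q k a T z := by
  unfold occ
  congr 1
  ext i
  rw [mem_filter, mem_filter]
  apply and_congr_right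
  intro _
  apply and_congr_right
  intro h
  obtain ⟨t, rfl⟩ := Nat.exists_eq_add_of_le h
  have hq0 : (0 : ℤ) < (q : ℤ) ^ i := by positivity
  have e : m * (q : ℤ) ^ (i + k + t) = (m * (q : ℤ) ^ t * (q : ℤ) ^ k) * (q : ℤ) ^ i := by
    rw [pow_add, pow_add]; ring
  rw [e, Int.add_mul_ediv_right _ _ hq0.ne', Int.add_mul_emod_self_right]

theorem occ_bad {q : ℕ} (hq : 2 ≤ q) {k : ℕ} (hk : 1 ≤ k) {ε : ℝ} (hε : 0 < ε) (hε1 : ε ≤ 1) :
    ∃ η : ℝ, 0 < η ∧ ∃ T0 : ℕ, ∀ T : ℕ, T0 ≤ T →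
      (#{y ∈ range (q ^ T) | ∃ a < q ^ k, ε * T + k < |(occ q k a T ((y : ℕ) : ℤ) : ℝ) - T / (q : ℝ) ^ k|} : ℝ) ≤
        Real.exp (-(η * T)) * (q : ℝ) ^ T := by
  classical
  have hk0 : (1 : ℝ) ≤ k := by exact_mod_cast hk
  have hq0 : (0 : ℝ) < q := by exact_mod_cast (show 0 < q by omega)
  have hQ2 : 2 ≤ q ^ k := hq.trans (Nat.le_self_pow (by omega) q)
  set B : ℝ := (q : ℝ) ^ k * (k * (2 * Real.exp (ε ^ 2))) with hB
  have hB0 : 0 < B := by positivity
  obtain ⟨T0, hT0⟩ := exists_nat_ge (Real.log B * (4 * k) / ε ^ 2)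
  refine ⟨ε ^ 2 / (4 * k), by positivity, T0, fun T hT => ?_⟩
  have hTr : Real.log B * (4 * k) / ε ^ 2 ≤ T := hT0.trans (by exact_mod_cast hT)
  -- the bad sets
  set S : ℕ → ℕ → Finset ℕ := fun a r => {y ∈ range (q ^ T) | ε * ((T - r) / k : ℕ) <
    |(#{j ∈ range ((T - r) / k) | (y / q ^ r % q ^ (k * ((T - r) / k))) / (q ^ k) ^ j % q ^ k = a} : ℝ) -
      ((T - r) / k : ℕ) / (q ^ k : ℕ)|} with hS
  have h1 : ({y ∈ range (q ^ T) | ∃ a < q ^ k, ε * T + k < |(occ q k a T ((y : ℕ) : ℤ) : ℝ) - T / (q : ℝ) ^ k|} :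
      Finset ℕ) ⊆ (range (q ^ k)).biUnion (fun a => (range k).biUnion (fun r => S a r)) := by
    intro y hy
    rw [mem_filter] at hy
    obtain ⟨hy1, a, ha, hy2⟩ := hy
    rw [mem_biUnion]
    refine ⟨a, mem_range.2 ha, ?_⟩
    rw [mem_biUnion]
    by_contra hcon
    push Not at hcon
    have h2 : ∀ r ∈ range k,
        |(#{j ∈ range ((T - r) / k) | y / q ^ (k * j + r) % q ^ k = a} : ℝ) -
          ((T - r) / k : ℕ) / (q ^ k : ℕ)| ≤ ε * ((T - r) / k : ℕ) := by
      intro r hr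
      have h3 := hcon r hr
      rw [hS] at h3
      simp only [mem_filter, not_and, not_lt] at h3
      have h4 := h3 hy1
      have e : ({j ∈ range ((T - r) / k) | (y / q ^ r % q ^ (k * ((T - r) / k))) / (q ^ k) ^ j % q ^ k = a} :
          Finset ℕ) = {j ∈ range ((T - r) / k) | y / q ^ (k * j + r) % q ^ k = a} := by
        apply filter_congr
        intro j hj
        rw [mem_range] at hj
        rw [pow_mul, dig_mod hj, Nat.div_div_eq_div_mul, ← pow_mul, ← pow_add, add_comm r]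
      rw [e] at h4
      exact h4
    have e1 : (occ q k a T (y : ℤ) : ℝ) =
        ∑ r ∈ range k, (#{j ∈ range ((T - r) / k) | y / q ^ (k * j + r) % q ^ k = a} : ℝ) := by
      rw [occ_nat, fiber_card hk T (fun i => y / q ^ i % q ^ k = a)]
      push_cast; rfl
    have e2 : ((#{i ∈ range T | i + k ≤ T ∧ True} : ℕ) : ℝ) = ∑ r ∈ range k, (((T - r) / k : ℕ) : ℝ) := by
      rw [fiber_card hk T (fun _ => True)]
      push_cast
      apply sum_congr rfl
      intro r _
      simp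
    have h5 : ((#{i ∈ range T | i + k ≤ T ∧ True} : ℕ) : ℝ) ≤ T := by
      have := card_filter_le (range T) (fun i => i + k ≤ T ∧ True)
      rw [card_range] at this
      exact_mod_cast this
    have h6 : (T : ℝ) - k ≤ ((#{i ∈ range T | i + k ≤ T ∧ True} : ℕ) : ℝ) := by
      have h7 : range (T - k) ⊆ ({i ∈ range T | i + k ≤ T ∧ True} : Finset ℕ) := by
        intro i hi
        rw [mem_range] at hi
        rw [mem_filter, mem_range]
        exact ⟨by omega, by omega, trivial⟩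
      have h8 := card_le_card h7
      rw [card_range] at h8
      have h9 : T ≤ #{i ∈ range T | i + k ≤ T ∧ True} + k := by omega
      have h10 : (T : ℝ) ≤ (#{i ∈ range T | i + k ≤ T ∧ True} : ℕ) + k := by exact_mod_cast h9
      linarith
    have h11 : |(occ q k a T (y : ℤ) : ℝ) -
        (#{i ∈ range T | i + k ≤ T ∧ True} : ℕ) / ((q ^ k : ℕ) : ℝ)| ≤
          ε * (#{i ∈ range T | i + k ≤ T ∧ True} : ℕ) := by
      rw [e1, e2, sum_div, ← sum_sub_distrib, mul_sum]
      exact (abs_sum_le_sum_abs _ _).trans (sum_le_sum h2)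
    have hQ1 : (1 : ℝ) ≤ (q : ℝ) ^ k := by
      exact_mod_cast (by omega : 1 ≤ q ^ k)
    have h12 : |((#{i ∈ range T | i + k ≤ T ∧ True} : ℕ) : ℝ) / ((q ^ k : ℕ) : ℝ) - T / (q : ℝ) ^ k| ≤ k := by
      push_cast
      rw [← sub_div, abs_div, abs_of_pos (show (0 : ℝ) < (q : ℝ) ^ k by positivity), div_le_iff₀ (by positivity)]
      have h13 : |((#{i ∈ range T | i + k ≤ T ∧ True} : ℕ) : ℝ) - T| ≤ k := by
        rw [abs_le]; constructor <;> linarith
      calc |((#{i ∈ range T | i + k ≤ T ∧ True} : ℕ) : ℝ) - T| ≤ k * 1 := by rw [mul_one]; exact h13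
        _ ≤ k * (q : ℝ) ^ k := mul_le_mul_of_nonneg_left hQ1 (by linarith)
    have h14 := abs_sub_le (occ q k a T (y : ℤ) : ℝ)
      ((#{i ∈ range T | i + k ≤ T ∧ True} : ℕ) / ((q ^ k : ℕ) : ℝ)) (T / (q : ℝ) ^ k)
    have h15 : ε * ((#{i ∈ range T | i + k ≤ T ∧ True} : ℕ) : ℝ) ≤ ε * T := mul_le_mul_of_nonneg_left h5 hε.le
    linarith
  have h2 : ∀ a ∈ range (q ^ k), ∀ r ∈ range k, ((S a r).card : ℝ) ≤
      2 * Real.exp (ε ^ 2) * Real.exp (-(ε ^ 2 / (2 * k) * T)) * (q : ℝ) ^ T := by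
    intro a ha r hr
    rw [mem_range] at ha hr
    set J := (T - r) / k with hJ
    rcases Nat.eq_zero_or_pos J with hJ0 | hJ0
    · -- no condition
      have h3 : (T : ℝ) ≤ 2 * k := by
        have h4 : T - r < k := by
          rcases Nat.div_eq_zero_iff.1 (hJ.symm.trans hJ0) with h | h
          · omega
          · exact h
        have h5 : T ≤ 2 * k := by omega
        exact_mod_cast h5
      have h4 : ((S a r).card : ℝ) ≤ (q : ℝ) ^ T := by
        have := card_filter_le (range (q ^ T)) (fun y => ε * ((T - r) / k : ℕ) <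
          |(#{j ∈ range ((T - r) / k) | (y / q ^ r % q ^ (k * ((T - r) / k))) / (q ^ k) ^ j % q ^ k = a} : ℝ) -
            ((T - r) / k : ℕ) / (q ^ k : ℕ)|)
        rw [card_range] at this
        exact_mod_cast this
      have h5 : (1 : ℝ) ≤ 2 * Real.exp (ε ^ 2) * Real.exp (-(ε ^ 2 / (2 * k) * T)) := by
        rw [mul_assoc, ← Real.exp_add]
        have h6 : (0 : ℝ) ≤ ε ^ 2 + -(ε ^ 2 / (2 * k) * T) := by
          have : ε ^ 2 / (2 * k) * T ≤ ε ^ 2 / (2 * k) * (2 * k) := mul_le_mul_of_nonneg_left h3 (by positivity)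
          rw [div_mul_cancel₀ _ (by positivity)] at this
          linarith
        have := Real.one_le_exp h6
        linarith
      calc ((S a r).card : ℝ) ≤ 1 * (q : ℝ) ^ T := by rw [one_mul]; exact h4
        _ ≤ _ := mul_le_mul_of_nonneg_right h5 (by positivity)
    · have hle : r + k * J ≤ T := by
        have := Nat.div_mul_le_self (T - r) k
        rw [← hJ, mul_comm] at this
        have h6 : 0 < T - r := by
          by_contra h7
          have h8 : T - r = 0 := by omega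
          rw [hJ, h8, Nat.zero_div] at hJ0
          exact lt_irrefl _ hJ0
        omega
      have h3 := count_mid (by omega : 0 < q) hle (fun z => ε * (J : ℕ) <
        |(#{j ∈ range J | z / (q ^ k) ^ j % q ^ k = a} : ℝ) - (J : ℕ) / (q ^ k : ℕ)|)
      have h4 := tail hQ2 hε hε1 J ha
      have e : (q ^ k) ^ J = q ^ (k * J) := by rw [pow_mul]
      rw [e] at h4
      have h5 : ((S a r).card : ℝ) * (q : ℝ) ^ (k * J) ≤
          (2 * Real.exp (-(ε ^ 2 / 2 * J)) * (q : ℝ) ^ T) * (q : ℝ) ^ (k * J) := by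
        have e3 : ((S a r).card : ℝ) * (q : ℝ) ^ (k * J) =
          (#{z ∈ range (q ^ (k * J)) | ε * (J : ℕ) <
            |(#{j ∈ range J | z / (q ^ k) ^ j % q ^ k = a} : ℝ) - (J : ℕ) / (q ^ k : ℕ)|} : ℝ) * (q : ℝ) ^ T := h3
        rw [e3]
        have h6 := mul_le_mul_of_nonneg_right h4 (show (0 : ℝ) ≤ (q : ℝ) ^ T by positivity)
        refine h6.trans (le_of_eq ?_)
        push_cast
        rw [← pow_mul]
        ring
      have h6 := le_of_mul_le_mul_right h5 (by positivity)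
      refine h6.trans ?_
      apply mul_le_mul_of_nonneg_right _ (by positivity)
      rw [mul_assoc 2, ← Real.exp_add]
      apply mul_le_mul_of_nonneg_left _ (by norm_num)
      apply Real.exp_le_exp.2
      have h7 : (T : ℝ) - 2 * k ≤ k * J := by
        have h8 := Nat.div_add_mod (T - r) k
        have h9 := Nat.mod_lt (T - r) (show k > 0 by omega)
        rw [← hJ] at h8
        have h10 : T ≤ k * J + 2 * k := by omega
        have h11 : (T : ℝ) ≤ k * J + 2 * k := by exact_mod_cast h10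
        linarith
      have h8 : ε ^ 2 / (2 * k) * (T - 2 * k) ≤ ε ^ 2 / (2 * k) * (k * J) := mul_le_mul_of_nonneg_left h7 (by positivity)
      have e4 : ε ^ 2 / (2 * k) * (k * J) = ε ^ 2 / 2 * J := by field_simp
      have e5 : ε ^ 2 / (2 * k) * ((T : ℝ) - 2 * k) = ε ^ 2 / (2 * k) * T - ε ^ 2 := by field_simp
      rw [e4, e5] at h8
      linarith
  have h3 : (#{y ∈ range (q ^ T) | ∃ a < q ^ k, ε * T + k < |(occ q k a T ((y : ℕ) : ℤ) : ℝ) - T / (q : ℝ) ^ k|} : ℝ) ≤
      ∑ a ∈ range (q ^ k), ∑ r ∈ range k, ((S a r).card : ℝ) := by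
    have h4 := (card_le_card h1).trans (card_biUnion_le.trans (sum_le_sum fun a _ => card_biUnion_le))
    exact_mod_cast h4
  refine h3.trans ((sum_le_sum fun a ha => sum_le_sum fun r hr => h2 a ha r hr).trans ?_)
  rw [sum_const, sum_const, card_range, card_range, nsmul_eq_mul, nsmul_eq_mul]
  push_cast
  have e6 : (q : ℝ) ^ k * (k * (2 * Real.exp (ε ^ 2) * Real.exp (-(ε ^ 2 / (2 * k) * T)) * (q : ℝ) ^ T)) =
      (B * Real.exp (-(ε ^ 2 / (2 * k) * T))) * (q : ℝ) ^ T := by rw [hB]; ring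
  rw [e6]
  apply mul_le_mul_of_nonneg_right _ (by positivity)
  rw [← Real.exp_log hB0, ← Real.exp_add]
  apply Real.exp_le_exp.2
  have h7 : Real.log B ≤ ε ^ 2 / (4 * k) * T := by
    rw [div_le_iff₀ (by positivity)] at hTr
    rw [div_mul_eq_mul_div, le_div_iff₀ (by positivity)]
    linarith
  have e8 : ε ^ 2 / (2 * k) * T = ε ^ 2 / (4 * k) * T + ε ^ 2 / (4 * k) * T := by field_simp; ring
  linarith

theorem occ_le (q k a T : ℕ) (x : ℤ) : occ q k a T x ≤ T := by
  unfold occ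
  refine (card_filter_le _ _).trans ?_
  rw [card_range]

section

variable {q : ℕ} {c : ℝ} {ι : Type} {x : ι → ℕ → ℤ}

open Classical in
/-- **Frequencies of words** among the lowest digits. -/
theorem freq (hq : 2 ≤ q) (hc : 0 < c) (hx : Spr q c x) {k : ℕ} (hk : 1 ≤ k) {ε : ℝ} (hε : 0 < ε) :
    ∃ δ K : ℝ, 0 < δ ∧ 0 < K ∧ ∀ (i : ι) (N : ℕ), 1 ≤ N →
      (#{n ∈ Icc 1 N | ∃ T : ℕ, (q : ℝ) ^ T ≤ (N : ℝ) ^ c ∧ ∃ a < q ^ k,
        ε * Real.log N < |(occ q k a T (x i n) : ℝ) - T / (q : ℝ) ^ k|} : ℝ) ≤ K * (N : ℝ) ^ (1 - δ) := by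
  have hq1 : (1 : ℝ) < q := by exact_mod_cast (show 1 < q by omega)
  have hL : 0 < Real.log q := Real.log_pos hq1
  set ε1 : ℝ := min 1 (ε * Real.log q / (2 * c)) with hε1
  have hε1p : 0 < ε1 := lt_min one_pos (by positivity)
  obtain ⟨η, hη, T0, hT0⟩ := occ_bad hq hk hε1p (min_le_left _ _)
  obtain ⟨δ0, K0, hδ0, hK0, h0⟩ := hx η hη
  set s : ℝ := δ0 * ε / 2 with hs
  have hs0 : 0 < s := by positivity
  set R : ℝ := max (2 * k / ε) (T0 / ε) with hR
  refine ⟨s, (c / (Real.log q * s) + 1) * K0 + Real.exp (R * s), hs0, by positivity, fun i N hN => ?_⟩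
  have hNp : (0 : ℝ) < N := by exact_mod_cast hN
  have hN1 : (1 : ℝ) ≤ N := by exact_mod_cast hN
  have hlN : 0 ≤ Real.log N := Real.log_nonneg hN1
  rcases lt_or_ge (Real.log N) R with hsm | hlg
  · refine (triv_count N _).trans ?_
    have h1 : (N : ℝ) = (N : ℝ) ^ s * (N : ℝ) ^ (1 - s) := by
      rw [← Real.rpow_add hNp]; norm_num
    have h2 : (N : ℝ) ^ s ≤ Real.exp (R * s) := by
      rw [Real.rpow_def_of_pos hNp]
      exact Real.exp_le_exp.2 (mul_le_mul_of_nonneg_right hsm.le hs0.le)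
    calc (N : ℝ) = (N : ℝ) ^ s * (N : ℝ) ^ (1 - s) := h1
      _ ≤ Real.exp (R * s) * (N : ℝ) ^ (1 - s) := mul_le_mul_of_nonneg_right h2 (by positivity)
      _ ≤ _ := by
        apply mul_le_mul_of_nonneg_right _ (by positivity)
        have : 0 ≤ (c / (Real.log q * s) + 1) * K0 := by positivity
        linarith
  · have hk2 : (k : ℝ) ≤ ε / 2 * Real.log N := by
      have h1 := (le_max_left _ _).trans hlg
      rw [div_le_iff₀ hε] at h1
      linarith
    have hT02 : (T0 : ℝ) ≤ ε * Real.log N := by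
      have h1 := (le_max_right _ _).trans hlg
      rw [div_le_iff₀ hε] at h1
      linarith
    set P : ℕ → ℤ → Prop := fun T z => ∃ a < q ^ k, ε1 * T + k < |(occ q k a T z : ℝ) - T / (q : ℝ) ^ k| with hP
    set M : ℕ := ⌊c * Real.log N / Real.log q⌋₊ with hM
    set I : Finset ℕ := {T ∈ range (M + 1) | T0 ≤ T ∧ ε * Real.log N < T ∧ (q : ℝ) ^ T ≤ (N : ℝ) ^ c} with hI
    have hsub : ({n ∈ Icc 1 N | ∃ T : ℕ, (q : ℝ) ^ T ≤ (N : ℝ) ^ c ∧ ∃ a < q ^ k,
        ε * Real.log N < |(occ q k a T (x i n) : ℝ) - T / (q : ℝ) ^ k|} : Finset ℕ) ⊆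
          I.biUnion (fun T => {n ∈ Icc 1 N | P T (x i n)}) := by
      intro n hn
      rw [mem_filter] at hn
      obtain ⟨hn1, T, hT, a, ha, hb⟩ := hn
      have hTlog : (T : ℝ) * Real.log q ≤ c * Real.log N := by
        have := Real.log_le_log (by positivity) hT
        rwa [Real.log_pow, Real.log_rpow hNp] at this
      have hTb : (T : ℝ) ≤ c * Real.log N / Real.log q := by rwa [le_div_iff₀ hL]
      have hocc : |(occ q k a T (x i n) : ℝ) - T / (q : ℝ) ^ k| ≤ T := by
        have h1 : (occ q k a T (x i n) : ℝ) ≤ T := by exact_mod_cast occ_le q k a T (x i n)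
        have h2 : (0 : ℝ) ≤ (occ q k a T (x i n) : ℝ) := Nat.cast_nonneg _
        have h3 : (0 : ℝ) ≤ T / (q : ℝ) ^ k := by positivity
        have h4 : (T : ℝ) / (q : ℝ) ^ k ≤ T := div_le_self (Nat.cast_nonneg _) (one_le_pow₀ hq1.le)
        rw [abs_le]; constructor <;> linarith
      rw [mem_biUnion]
      refine ⟨T, ?_, ?_⟩
      · rw [hI, mem_filter, mem_range]
        refine ⟨Nat.lt_succ_of_le (Nat.le_floor hTb), ?_, by linarith, hT⟩
        have : (T0 : ℝ) ≤ T := by linarith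
        exact_mod_cast this
      · rw [mem_filter]
        refine ⟨hn1, a, ha, ?_⟩
        have h5 : ε1 * T ≤ ε / 2 * Real.log N := by
          calc ε1 * T ≤ (ε * Real.log q / (2 * c)) * (c * Real.log N / Real.log q) :=
                mul_le_mul (min_le_right _ _) hTb (Nat.cast_nonneg _) (by positivity)
            _ = ε / 2 * Real.log N := by field_simp
        linarith
    have hcard : (#{n ∈ Icc 1 N | ∃ T : ℕ, (q : ℝ) ^ T ≤ (N : ℝ) ^ c ∧ ∃ a < q ^ k,
        ε * Real.log N < |(occ q k a T (x i n) : ℝ) - T / (q : ℝ) ^ k|} : ℝ) ≤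
          ∑ T ∈ I, (#{n ∈ Icc 1 N | P T (x i n)} : ℝ) := by
      exact_mod_cast (card_le_card hsub).trans card_biUnion_le
    refine hcard.trans ?_
    have hone : ∀ T ∈ I, (#{n ∈ Icc 1 N | P T (x i n)} : ℝ) ≤ K0 * Real.exp (-(2 * s * Real.log N)) * N := by
      intro T hT
      rw [hI, mem_filter] at hT
      obtain ⟨-, h1, h2, h3⟩ := hT
      have h4 := h0 i N T hN h3 (P T) (fun z m => by
        simp only [hP, occ_per (by omega : 0 < q)]) (by convert hT0 T h1)
      have h4' : (#{n ∈ Icc 1 N | P T (x i n)} : ℝ) ≤ K0 * Real.exp (-(δ0 * T)) * N := by convert h4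
      refine h4'.trans ?_
      apply mul_le_mul_of_nonneg_right _ hNp.le
      apply mul_le_mul_of_nonneg_left _ hK0.le
      apply Real.exp_le_exp.2
      have h5 := mul_le_mul_of_nonneg_left h2.le hδ0.le
      have e : 2 * s * Real.log N = δ0 * (ε * Real.log N) := by rw [hs]; ring
      rw [e]; linarith
    refine (sum_le_sum hone).trans ?_
    rw [sum_const, nsmul_eq_mul]
    have hIcard : (I.card : ℝ) ≤ (c / (Real.log q * s) + 1) * (N : ℝ) ^ s := by
      have h1 : I.card ≤ M + 1 := by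
        refine (card_filter_le _ _).trans ?_
        rw [card_range]
      have h2 : (M : ℝ) ≤ c * Real.log N / Real.log q := Nat.floor_le (by positivity)
      have h3 : s * Real.log N ≤ (N : ℝ) ^ s := by
        rw [Real.rpow_def_of_pos hNp]
        have := Real.add_one_le_exp (Real.log N * s)
        linarith
      have h4 : (1 : ℝ) ≤ (N : ℝ) ^ s := Real.one_le_rpow hN1 hs0.le
      have h5 : c * Real.log N / Real.log q = c / (Real.log q * s) * (s * Real.log N) := by field_simp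
      have h6 := mul_le_mul_of_nonneg_left h3 (show 0 ≤ c / (Real.log q * s) by positivity)
      have h7 : (I.card : ℝ) ≤ M + 1 := by exact_mod_cast h1
      linarith
    have e1 : K0 * Real.exp (-(2 * s * Real.log N)) * N = K0 * (N : ℝ) ^ (1 - 2 * s) := by
      rw [Real.rpow_def_of_pos hNp]
      have e2 : Real.log N * (1 - 2 * s) = -(2 * s * Real.log N) + Real.log N := by ring
      rw [e2, Real.exp_add, Real.exp_log hNp, mul_assoc]
    rw [e1]
    calc (I.card : ℝ) * (K0 * (N : ℝ) ^ (1 - 2 * s)) ≤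
          ((c / (Real.log q * s) + 1) * (N : ℝ) ^ s) * (K0 * (N : ℝ) ^ (1 - 2 * s)) :=
          mul_le_mul_of_nonneg_right hIcard (by positivity)
      _ = (c / (Real.log q * s) + 1) * K0 * ((N : ℝ) ^ s * (N : ℝ) ^ (1 - 2 * s)) := by ring
      _ = (c / (Real.log q * s) + 1) * K0 * (N : ℝ) ^ (1 - s) := by
          rw [← Real.rpow_add hNp]; congr 2; ring
      _ ≤ _ := by
          apply mul_le_mul_of_nonneg_right _ (by positivity)
          linarith [Real.exp_pos (R * s)]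

theorem two_sum (L : ℕ) : ∑ n ∈ range L, 2 ^ n ≤ 2 ^ L := by
  induction L with
  | zero => simp
  | succ L ih => rw [sum_range_succ, pow_succ]; omega

theorem lists_card (L : ℕ) (A : Finset ℕ) (f : ℕ → List Bool) (hf : Set.InjOn f A)
    (h : ∀ a ∈ A, (f a).length ≤ L) : A.card ≤ 2 ^ (L + 1) := by
  classical
  rw [← card_image_of_injOn hf]
  have h1 : A.image f ⊆ (range (L + 1)).biUnion
      (fun n => (univ : Finset (Fin n → Bool)).image (fun g => List.ofFn g)) := by
    intro l hl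
    rw [mem_image] at hl
    obtain ⟨a, ha, rfl⟩ := hl
    rw [mem_biUnion]
    refine ⟨(f a).length, mem_range.2 (Nat.lt_succ_of_le (h a ha)), ?_⟩
    rw [mem_image]
    exact ⟨(f a).get, mem_univ _, List.ofFn_get _⟩
  refine (card_le_card h1).trans (card_biUnion_le.trans (le_trans (sum_le_sum fun n _ => ?_) (two_sum (L + 1))))
  refine card_image_le.trans ?_
  rw [card_univ, Fintype.card_fun, Fintype.card_bool, Fintype.card_fin]

open Classical in
/-- **Incompressibility** of the lowest digits. -/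
theorem incomp (hq : 2 ≤ q) (hx : Spr q c x) {η : ℝ} (hη : 0 < η) :
    ∃ δ K : ℝ, 0 < δ ∧ 0 < K ∧ ∀ (i : ι) (N T : ℕ), 1 ≤ N → (q : ℝ) ^ T ≤ (N : ℝ) ^ c →
      ∀ f : ℤ → List Bool, Set.InjOn f (Set.Ico 0 ((q : ℤ) ^ T)) →
        (#{n ∈ Icc 1 N | ((f (x i n % (q : ℤ) ^ T)).length : ℝ) ≤ (1 - η) * T * Real.logb 2 q} : ℝ) ≤
          K * Real.exp (-(δ * T)) * N := by
  have hq1 : (1 : ℝ) < q := by exact_mod_cast (show 1 < q by omega)
  have hL : 0 < Real.log q := Real.log_pos hq1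
  set η' : ℝ := η * Real.log q / 2 with hη'
  have hη'0 : 0 < η' := by positivity
  obtain ⟨δ, K, hδ, hK, h0⟩ := hx η' hη'0
  obtain ⟨T0, hT0⟩ := exists_nat_ge (Real.log 2 / η')
  refine ⟨δ, K + Real.exp (δ * T0), hδ, by positivity, fun i N T hN hT f hf => ?_⟩
  have hNp : (0 : ℝ) < N := by exact_mod_cast hN
  rcases lt_or_ge T T0 with hTT | hTT
  · refine (triv_count N _).trans ?_
    have h1 : (1 : ℝ) ≤ (K + Real.exp (δ * T0)) * Real.exp (-(δ * T)) := by
      have h4 : (1 : ℝ) ≤ Real.exp (δ * T0) * Real.exp (-(δ * T)) := by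
        rw [← Real.exp_add]
        apply Real.one_le_exp
        have : (T : ℝ) ≤ T0 := by exact_mod_cast hTT.le
        have := mul_le_mul_of_nonneg_left this hδ.le
        linarith
      have h5 : 0 ≤ K * Real.exp (-(δ * T)) := by positivity
      rw [add_mul]; linarith
    calc (N : ℝ) = 1 * N := (one_mul _).symm
      _ ≤ _ := mul_le_mul_of_nonneg_right h1 hNp.le
  · have hP : ∀ z m : ℤ, (((f ((z + m * (q : ℤ) ^ T) % (q : ℤ) ^ T)).length : ℝ) ≤ (1 - η) * T * Real.logb 2 q) ↔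
        (((f (z % (q : ℤ) ^ T)).length : ℝ) ≤ (1 - η) * T * Real.logb 2 q) := by
      intro z m
      rw [Int.add_mul_emod_self_right]
    have h1 := h0 i N T hN hT (fun z => ((f (z % (q : ℤ) ^ T)).length : ℝ) ≤ (1 - η) * T * Real.logb 2 q) hP ?_
    · refine h1.trans ?_
      apply mul_le_mul_of_nonneg_right _ hNp.le
      apply mul_le_mul_of_nonneg_right _ (Real.exp_pos _).le
      linarith [Real.exp_pos (δ * T0)]
    · rcases lt_or_ge ((1 - η) * T * Real.logb 2 q) 0 with hneg | hpos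
      · have : ({a ∈ range (q ^ T) | ((f (((a : ℕ) : ℤ) % (q : ℤ) ^ T)).length : ℝ) ≤
            (1 - η) * T * Real.logb 2 q} : Finset ℕ) = ∅ := by
          apply filter_eq_empty_iff.2
          intro a _ h
          have : (0 : ℝ) ≤ ((f (((a : ℕ) : ℤ) % (q : ℤ) ^ T)).length : ℝ) := Nat.cast_nonneg _
          linarith
        rw [this, card_empty, Nat.cast_zero]
        positivity
      · set r : ℝ := (1 - η) * T * Real.logb 2 q with hr
        have h2 := lists_card ⌊r⌋₊ {a ∈ range (q ^ T) | ((f (((a : ℕ) : ℤ) % (q : ℤ) ^ T)).length : ℝ) ≤ r}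
          (fun a => f (((a : ℕ) : ℤ) % (q : ℤ) ^ T)) ?_ ?_
        · have h3 : ((2 : ℝ)) ^ (⌊r⌋₊ + 1) ≤ 2 * (2 : ℝ) ^ r := by
            rw [pow_succ, mul_comm]
            apply mul_le_mul_of_nonneg_left _ (by norm_num)
            rw [← Real.rpow_natCast]
            exact Real.rpow_le_rpow_of_exponent_le (by norm_num) (Nat.floor_le hpos)
          have h4 : (2 : ℝ) ^ r = Real.exp (-(2 * η' * T)) * (q : ℝ) ^ T := by
            rw [Real.rpow_def_of_pos (by norm_num)]
            have e : Real.log 2 * r = -(2 * η' * T) + T * Real.log q := by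
              rw [hr, Real.logb, hη']
              field_simp
              ring
            rw [e, Real.exp_add, Real.exp_nat_mul, Real.exp_log (by linarith)]
          have h5 : (2 : ℝ) ≤ Real.exp (η' * T) := by
            have h6 : Real.log 2 ≤ η' * T := by
              have h7 : Real.log 2 / η' ≤ T := hT0.trans (by exact_mod_cast hTT)
              rw [div_le_iff₀ hη'0] at h7
              linarith
            calc (2 : ℝ) = Real.exp (Real.log 2) := (Real.exp_log (by norm_num)).symm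
              _ ≤ _ := Real.exp_le_exp.2 h6
          calc ((#{a ∈ range (q ^ T) | ((f (((a : ℕ) : ℤ) % (q : ℤ) ^ T)).length : ℝ) ≤ r} : ℕ) : ℝ) ≤
                (2 : ℝ) ^ (⌊r⌋₊ + 1) := by exact_mod_cast h2
            _ ≤ 2 * (2 : ℝ) ^ r := h3
            _ = 2 * Real.exp (-(2 * η' * T)) * (q : ℝ) ^ T := by rw [h4]; ring
            _ ≤ Real.exp (η' * T) * Real.exp (-(2 * η' * T)) * (q : ℝ) ^ T := by
                apply mul_le_mul_of_nonneg_right _ (by positivity)
                exact mul_le_mul_of_nonneg_right h5 (Real.exp_pos _).le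
            _ = Real.exp (-(η' * T)) * (q : ℝ) ^ T := by
                rw [← Real.exp_add]; congr 2; ring
        · intro a ha b hb hab
          rw [mem_coe, mem_filter, mem_range] at ha hb
          have hqT : (0 : ℤ) < (q : ℤ) ^ T := by positivity
          have ea : ((a : ℕ) : ℤ) % (q : ℤ) ^ T = a := Int.emod_eq_of_lt (by positivity) (by exact_mod_cast ha.1)
          have eb : ((b : ℕ) : ℤ) % (q : ℤ) ^ T = b := Int.emod_eq_of_lt (by positivity) (by exact_mod_cast hb.1)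
          simp only [ea, eb] at hab
          have := @hf (a : ℤ) ⟨by positivity, by exact_mod_cast ha.1⟩ (b : ℤ)
            ⟨by positivity, by exact_mod_cast hb.1⟩ hab
          exact_mod_cast this
        · intro a ha
          rw [mem_filter] at ha
          exact Nat.le_floor ha.2

/-- Images under affine maps with coefficient prime to `d`, uniformly. -/
theorem Spr.affine (hq : 0 < q) (hx : Spr q c x) :
    Spr q c (fun (j : ι × {l : ℤ // IsCoprime l (q : ℤ)} × ℤ) n => (j.2.1 : ℤ) * x j.1 n + j.2.2) := by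
  classical
  intro η hη
  obtain ⟨δ, K, hδ, hK, h0⟩ := hx η hη
  refine ⟨δ, K, hδ, hK, ?_⟩
  rintro ⟨i, ⟨l, hl⟩, t⟩ N T hN hT P hP hcard
  have hqT : (0 : ℤ) < (q : ℤ) ^ T := by positivity
  refine h0 i N T hN hT (fun z => P (l * z + t)) (fun z m => ?_) (le_trans ?_ hcard)
  · have e : l * (z + m * (q : ℤ) ^ T) + t = l * z + t + l * m * (q : ℤ) ^ T := by ring
    rw [e]; exact hP _ _
  · have h1 : #{a ∈ range (q ^ T) | P (l * ((a : ℕ) : ℤ) + t)} ≤ #{a ∈ range (q ^ T) | P ((a : ℕ) : ℤ)} := by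
      refine card_le_card_of_injOn (fun a => ((l * ((a : ℕ) : ℤ) + t) % (q : ℤ) ^ T).toNat) ?_ ?_
      · intro a ha
        rw [mem_coe, mem_filter] at ha
        have h2 := Int.emod_nonneg (l * ((a : ℕ) : ℤ) + t) hqT.ne'
        have h3 := Int.emod_lt_of_pos (l * ((a : ℕ) : ℤ) + t) hqT
        have e : ((((l * ((a : ℕ) : ℤ) + t) % (q : ℤ) ^ T).toNat : ℕ) : ℤ) = (l * ((a : ℕ) : ℤ) + t) % (q : ℤ) ^ T :=
          Int.toNat_of_nonneg h2
        rw [mem_coe, mem_filter, mem_range]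
        constructor
        · have : ((((l * ((a : ℕ) : ℤ) + t) % (q : ℤ) ^ T).toNat : ℕ) : ℤ) < ((q ^ T : ℕ) : ℤ) := by
            rw [e]; push_cast; exact h3
          exact_mod_cast this
        · rw [e]
          exact (per_modEq hP (Int.mod_modEq _ _)).2 ha.2
      · intro a ha b hb hab
        rw [mem_coe, mem_filter, mem_range] at ha hb
        have h2 := Int.emod_nonneg (l * ((a : ℕ) : ℤ) + t) hqT.ne'
        have h3 := Int.emod_nonneg (l * ((b : ℕ) : ℤ) + t) hqT.ne'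
        have e : (l * ((a : ℕ) : ℤ) + t) % (q : ℤ) ^ T = (l * ((b : ℕ) : ℤ) + t) % (q : ℤ) ^ T := by
          rw [← Int.toNat_of_nonneg h2, ← Int.toNat_of_nonneg h3]
          exact_mod_cast hab
        have h4 : (q : ℤ) ^ T ∣ l * ((b : ℤ) - a) := by
          have := Int.ModEq.dvd e
          have e2 : l * ((b : ℕ) : ℤ) + t - (l * ((a : ℕ) : ℤ) + t) = l * ((b : ℤ) - a) := by ring
          rwa [e2] at this
        have h5 : (q : ℤ) ^ T ∣ (b : ℤ) - a := (hl.symm.pow_left).dvd_of_dvd_mul_left h4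
        have h6 : ((b : ℤ) - a) = 0 := by
          apply Int.eq_zero_of_abs_lt_dvd h5
          have h7 : (a : ℤ) < (q : ℤ) ^ T := by exact_mod_cast ha.1
          have h8 : (b : ℤ) < (q : ℤ) ^ T := by exact_mod_cast hb.1
          rw [abs_lt]; constructor <;> omega
        omega
    exact_mod_cast h1

end

theorem pow_coRec {d r : ℕ} (h : r.Coprime d) : CoRec d (fun n => ((r ^ n : ℕ) : ℤ)) := by
  refine ⟨1, fun _ => r, le_rfl, Nat.isCoprime_iff_coprime.2 h, fun n => ?_⟩
  simp only [sum_range_one, add_zero]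
  push_cast
  rw [pow_succ]; ring

theorem pow_noConst {r : ℕ} (h : 2 ≤ r) : NoConst (fun n => ((r ^ n : ℕ) : ℤ)) := by
  intro a m hm
  refine ⟨1, fun h1 => ?_⟩
  have h2 : r ^ (a + m * 1) = r ^ a := by
    simp only at h1
    exact_mod_cast h1
  have := Nat.pow_right_injective h h2
  omega

end Pool.Agent.U491.LR
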