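import Mathlib

/-! Counting the approximate zeros of an integer polynomial modulo powers of a prime, uniformly in the
degree (the case of a general prime of `Pool.Agent.U307.LR.A`). -/

set_option autoImplicit false

namespace Pool.Agent.U491.LR

open Finset Polynomial

theorem dvd_split {p : ℕ} (hp : p.Prime) : ∀ (s J : ℕ) (a b : ℤ), (p : ℤ) ^ J ∣ a * b → ¬ (p : ℤ) ^ s ∣ a →
    (p : ℤ) ^ (J - s) ∣ b := by
  have hpi : Prime (p : ℤ) := Nat.prime_iff_prime_int.mp hp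
  intro s
  induction s with
  | zero => intro J a b _ h; exact absurd (by simp) h
  | succ s ih =>
    intro J a b h1 h2
    rcases Nat.eq_zero_or_pos J with h0 | h0
    · subst h0; simp
    · by_cases h3 : (p : ℤ) ∣ a
      · obtain ⟨a', rfl⟩ := h3
        obtain ⟨J', rfl⟩ : ∃ J', J = J' + 1 := ⟨J - 1, by omega⟩
        have h4 : (p : ℤ) ^ J' ∣ a' * b := by
          obtain ⟨c, hc⟩ := h1
          refine ⟨c, ?_⟩
          have : (p : ℤ) * (a' * b) = p * (p ^ J' * c) := by rw [pow_succ] at hc; linear_combination hc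
          exact mul_left_cancel₀ hpi.ne_zero this
        have h5 : ¬ (p : ℤ) ^ s ∣ a' := by
          intro h
          apply h2
          rw [pow_succ, mul_comm]
          exact mul_dvd_mul_left (p : ℤ) h
        have h6 := ih J' a' b h4 h5
        have e : J' + 1 - (s + 1) = J' - s := by omega
        rw [e]; exact h6
      · have h4 : IsCoprime ((p : ℤ) ^ J) a := by
          apply IsCoprime.pow_left
          exact (hpi.coprime_iff_not_dvd).2 h3
        have h5 : (p : ℤ) ^ J ∣ b := h4.dvd_of_dvd_mul_left h1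
        exact (pow_dvd_pow _ (Nat.sub_le _ _)).trans h5

theorem eval_coeff_zero {p : ℕ} {w : ℤ[X]} {μ : ℕ} (h : ∀ j, 0 < j → (p : ℤ) ^ (μ + 1) ∣ w.coeff j) (c : ℤ) :
    (p : ℤ) ^ (μ + 1) ∣ w.eval c - w.coeff 0 := by
  rw [eval_eq_sum_range, sum_range_succ', pow_zero, mul_one, add_sub_cancel_right]
  exact dvd_sum fun i _ => (h (i + 1) (Nat.succ_pos i)).mul_right _

theorem div_prop {p : ℕ} {w : ℤ[X]} (c : ℤ) {d μ : ℕ} (h1 : ¬ (p : ℤ) ^ (μ + 1) ∣ w.coeff (d + 1))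
    (h2 : ∀ j, d + 1 < j → (p : ℤ) ^ (μ + 1) ∣ w.coeff j) :
    ∃ q : ℤ[X], (∀ x, w.eval x = (x - c) * q.eval x + w.eval c) ∧ ¬ (p : ℤ) ^ (μ + 1) ∣ q.coeff d ∧
      ∀ j, d < j → (p : ℤ) ^ (μ + 1) ∣ q.coeff j := by
  have h3 : ∀ j, d < j → (p : ℤ) ^ (μ + 1) ∣ (w /ₘ (X - C c)).coeff j := by
    intro j hj
    rw [coeff_divByMonic_X_sub_C]
    refine dvd_sum fun i hi => ?_
    rw [mem_Icc] at hi
    exact (h2 i (by omega)).mul_left _
  refine ⟨w /ₘ (X - C c), fun x => ?_, ?_, h3⟩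
  · have h := modByMonic_add_div w (X - C c)
    rw [modByMonic_X_sub_C_eq_C_eval] at h
    conv_lhs => rw [← h]
    rw [eval_add, eval_C, eval_mul, eval_sub, eval_X, eval_C]
    ring
  · rw [coeff_divByMonic_X_sub_C_rec]
    intro h
    exact h1 ((dvd_add_left ((h3 (d + 1) (Nat.lt_succ_self d)).mul_left c)).1 h)

theorem class_card {p : ℕ} (hp : 0 < p) {s T : ℕ} (hs : s ≤ T) (c0 : ℤ) :
    #{c ∈ range (p ^ T) | (p : ℤ) ^ s ∣ ((c : ℕ) : ℤ) - c0} ≤ p ^ (T - s) := by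
  rw [← card_range (p ^ (T - s))]
  apply card_le_card_of_injOn (fun c => c / p ^ s)
  · intro c hc
    rw [mem_coe, mem_filter, mem_range] at hc
    rw [mem_coe, mem_range, Nat.div_lt_iff_lt_mul (by positivity), ← pow_add, Nat.sub_add_cancel hs]
    exact hc.1
  · intro c hc c' hc' h
    rw [mem_coe, mem_filter] at hc hc'
    simp only at h
    have h1 : (p : ℤ) ^ s ∣ ((c : ℕ) : ℤ) - ((c' : ℕ) : ℤ) := by
      have := dvd_sub hc.2 hc'.2
      rwa [sub_sub_sub_cancel_right] at this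
    have h2 : c % p ^ s = c' % p ^ s := by
      have h3 : ((c' : ℕ) : ℤ) ≡ ((c : ℕ) : ℤ) [ZMOD ((p ^ s : ℕ) : ℤ)] := Int.modEq_iff_dvd.2 (by push_cast; exact h1)
      exact ((Int.natCast_modEq_iff).1 h3).symm
    rw [← Nat.div_add_mod c (p ^ s), ← Nat.div_add_mod c' (p ^ s), h, h2]

/-- Uniform count of approximate zeros. -/
theorem roots_count {p : ℕ} (hp : p.Prime) {s T : ℕ} (hs : s ≤ T) : ∀ (d : ℕ) (w : ℤ[X]) (μ J : ℕ),
    ¬ (p : ℤ) ^ (μ + 1) ∣ w.coeff d →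
    (∀ j, d < j → (p : ℤ) ^ (μ + 1) ∣ w.coeff j) → μ + 1 + d * s ≤ J →
    #{c ∈ range (p ^ T) | (p : ℤ) ^ J ∣ w.eval ((c : ℕ) : ℤ)} ≤ d * p ^ (T - s) := by
  intro d
  induction d with
  | zero =>
    intro w μ J h1 h2 hJ
    rw [zero_mul, Nat.le_zero, card_eq_zero, filter_eq_empty_iff]
    intro c _ hc
    apply h1
    have h3 : (p : ℤ) ^ (μ + 1) ∣ w.eval ((c : ℕ) : ℤ) := (pow_dvd_pow _ (by omega)).trans hc
    have h4 := dvd_sub h3 (eval_coeff_zero h2 ((c : ℕ) : ℤ))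
    rwa [sub_sub_cancel] at h4
  | succ d ih =>
    intro w μ J h1 h2 hJ
    by_cases he : ({c ∈ range (p ^ T) | (p : ℤ) ^ J ∣ w.eval ((c : ℕ) : ℤ)} : Finset ℕ) = ∅
    · rw [he, card_empty]; exact Nat.zero_le _
    · obtain ⟨c0, hc0⟩ := nonempty_iff_ne_empty.2 he
      rw [mem_filter] at hc0
      obtain ⟨q, hq1, hq2, hq3⟩ := div_prop ((c0 : ℕ) : ℤ) h1 h2
      have hsub : ({c ∈ range (p ^ T) | (p : ℤ) ^ J ∣ w.eval ((c : ℕ) : ℤ)} : Finset ℕ) ⊆
          {c ∈ range (p ^ T) | (p : ℤ) ^ s ∣ ((c : ℕ) : ℤ) - ((c0 : ℕ) : ℤ)} ∪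
          {c ∈ range (p ^ T) | (p : ℤ) ^ (J - s) ∣ q.eval ((c : ℕ) : ℤ)} := by
        intro c hc
        rw [mem_filter] at hc
        rw [mem_union, mem_filter, mem_filter]
        by_cases h : (p : ℤ) ^ s ∣ ((c : ℕ) : ℤ) - ((c0 : ℕ) : ℤ)
        · left; exact ⟨hc.1, h⟩
        · right
          refine ⟨hc.1, dvd_split hp s J _ _ ?_ h⟩
          have h4 := hq1 ((c : ℕ) : ℤ)
          have h5 : (((c : ℕ) : ℤ) - ((c0 : ℕ) : ℤ)) * q.eval ((c : ℕ) : ℤ) =
              w.eval ((c : ℕ) : ℤ) - w.eval ((c0 : ℕ) : ℤ) := by linear_combination -h4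
          rw [h5]
          exact dvd_sub hc.2 hc0.2
      have h5 := ih q μ (J - s) hq2 hq3 (by
        have : (d + 1) * s = d * s + s := by ring
        omega)
      have h6 := (card_le_card hsub).trans (card_union_le _ _)
      have h7 := class_card hp.pos hs ((c0 : ℕ) : ℤ)
      have e : (d + 1) * p ^ (T - s) = p ^ (T - s) + d * p ^ (T - s) := by ring
      rw [e]
      exact h6.trans (Nat.add_le_add h7 h5)

end Pool.Agent.U491.LR
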