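import Pool.Agent.U491.LR.A

/-! Integer polynomials approximating a `p`-adically analytic sequence (the case of a general prime of
`Pool.Agent.U307.LR.B`). -/

set_option autoImplicit false

namespace Pool.Agent.U491.LR

open Finset Polynomial Nat

/-- the exponent of `p` in `k!` -/
def vf (p k : ℕ) : ℕ := (k !).factorization p

/-- the part of `k!` prime to `p` -/
def od (p k : ℕ) : ℕ := k ! / p ^ (k !).factorization p

theorem vf_od (p k : ℕ) : p ^ vf p k * od p k = k ! := Nat.ordProj_mul_ordCompl_eq_self _ _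

theorem od_coprime {p : ℕ} (hp : p.Prime) (k : ℕ) : Nat.Coprime (od p k) p :=
  (Nat.coprime_ordCompl hp (Nat.factorial_ne_zero k)).symm

theorem vf_lt {p : ℕ} (hp : p.Prime) {k : ℕ} (hk : k ≠ 0) : vf p k < k := by
  haveI := Fact.mk hp
  have h := sub_one_mul_padicValNat_factorial_lt_of_ne_zero (p := p) hk
  unfold vf
  rw [Nat.factorization_def _ hp]
  have h1 : 1 ≤ p - 1 := by have := hp.two_le; omega
  have h2 := Nat.mul_le_mul_right (padicValNat p k !) h1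
  omega

theorem vf_le {p : ℕ} (hp : p.Prime) (k : ℕ) : vf p k ≤ k := by
  rcases Nat.eq_zero_or_pos k with h | h
  · subst h; simp [vf]
  · exact (vf_lt hp (by omega)).le

/-- An inverse of `od p k` modulo `p ^ T`. -/
def iv (p T k : ℕ) : ℤ := ((od p k : ℕ) : ℤ) ^ (φ (p ^ T) - 1)

theorem od_iv {p : ℕ} (hp : p.Prime) (T k : ℕ) : (p : ℤ) ^ T ∣ ((od p k : ℕ) : ℤ) * iv p T k - 1 := by
  have hpos : 0 < φ (p ^ T) := Nat.totient_pos.2 (pow_pos hp.pos T)
  have h : ((od p k : ℕ) : ℤ) * iv p T k = ((od p k : ℕ) : ℤ) ^ φ (p ^ T) := by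
    unfold iv
    rw [← _root_.pow_succ', Nat.sub_add_cancel hpos]
  rw [h]
  have h1 : od p k ^ φ (p ^ T) ≡ 1 [MOD p ^ T] := Nat.ModEq.pow_totient ((od_coprime hp k).pow_right T)
  have h2 := (Nat.modEq_iff_dvd.1 h1.symm)
  push_cast at h2
  exact h2

theorem iv_compat {p : ℕ} (hp : p.Prime) {T T' : ℕ} (h : T ≤ T') (k : ℕ) :
    (p : ℤ) ^ T ∣ iv p T' k - iv p T k := by
  have h1 := (pow_dvd_pow (p : ℤ) h).trans (od_iv hp T' k)
  have h2 := dvd_sub h1 (od_iv hp T k)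
  have e : ((od p k : ℕ) : ℤ) * iv p T' k - 1 - (((od p k : ℕ) : ℤ) * iv p T k - 1) =
      ((od p k : ℕ) : ℤ) * (iv p T' k - iv p T k) := by ring
  rw [e] at h2
  have h3 : IsCoprime ((p : ℤ) ^ T) ((od p k : ℕ) : ℤ) := by
    apply IsCoprime.pow_left
    exact (Nat.isCoprime_iff_coprime).2 (od_coprime hp k).symm
  exact h3.dvd_of_dvd_mul_left h2

/-- `p ^ (2 k) / k!` modulo `p ^ T` -/
def wt (p T k : ℕ) : ℤ := (p : ℤ) ^ (2 * k - vf p k) * iv p T k

theorem wt_dvd {p : ℕ} (hp : p.Prime) {k : ℕ} (hk : k ≠ 0) (T : ℕ) : (p : ℤ) ^ (k + 1) ∣ wt p T k := by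
  have h := vf_lt hp hk
  exact (pow_dvd_pow _ (by omega)).mul_right _

theorem wt_dvd' {p : ℕ} (hp : p.Prime) (T k : ℕ) : (p : ℤ) ^ k ∣ wt p T k := by
  have h := vf_le hp k
  exact (pow_dvd_pow _ (by omega)).mul_right _

theorem wt_compat {p : ℕ} (hp : p.Prime) {T T' : ℕ} (h : T ≤ T') (k : ℕ) :
    (p : ℤ) ^ T ∣ wt p T' k - wt p T k := by
  unfold wt
  rw [← mul_sub]
  exact (iv_compat hp h k).mul_left _

theorem wt_spec {p : ℕ} (hp : p.Prime) (T k m : ℕ) :
    (p : ℤ) ^ T ∣ ((p : ℤ) ^ 2) ^ k * (m.choose k : ℤ) - wt p T k * (m.descFactorial k : ℤ) := by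
  have h1 : ((m.descFactorial k : ℕ) : ℤ) = (p : ℤ) ^ vf p k * (od p k : ℤ) * (m.choose k : ℤ) := by
    rw [Nat.descFactorial_eq_factorial_mul_choose, ← vf_od p k]
    push_cast; ring
  have h2 : ((p : ℤ) ^ 2) ^ k = (p : ℤ) ^ (2 * k - vf p k) * (p : ℤ) ^ vf p k := by
    rw [← pow_add, Nat.sub_add_cancel ((vf_le hp k).trans (by omega)), ← pow_mul]
  rw [h1, h2]
  unfold wt
  have e : (p : ℤ) ^ (2 * k - vf p k) * (p : ℤ) ^ vf p k * (m.choose k : ℤ) -
      (p : ℤ) ^ (2 * k - vf p k) * iv p T k * ((p : ℤ) ^ vf p k * (od p k : ℤ) * (m.choose k : ℤ)) =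
      -((p : ℤ) ^ (2 * k - vf p k) * (p : ℤ) ^ vf p k * (m.choose k : ℤ)) * ((od p k : ℤ) * iv p T k - 1) := by ring
  rw [e]
  exact (od_iv hp T k).mul_left _

/-- The approximating polynomials. -/
noncomputable def G (p : ℕ) (b : ℕ → ℤ) (T : ℕ) : ℤ[X] := ∑ k ∈ range T, C (wt p T k * b k) * descPochhammer ℤ k

/-- The analytic sequences. -/
def An (q : ℤ) (b : ℕ → ℤ) (y : ℕ → ℤ) : Prop :=
  ∀ m : ℕ, y m = ∑ k ∈ range (m + 1), (m.choose k : ℤ) * (q ^ k * b k)

theorem An.of_dvd {q q' : ℤ} (h : q' ∣ q) {b y : ℕ → ℤ} (hb : An q b y) : ∃ b', An q' b' y := by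
  obtain ⟨c, rfl⟩ := h
  refine ⟨fun k => c ^ k * b k, fun m => ?_⟩
  rw [hb m]
  refine sum_congr rfl fun k _ => ?_
  rw [mul_pow]; ring

theorem an_eval {p : ℕ} (hp : p.Prime) {b y : ℕ → ℤ} (h : An ((p : ℤ) ^ 2) b y) (T m : ℕ) :
    (p : ℤ) ^ T ∣ y m - (G p b T).eval (m : ℤ) := by
  have h1 : y m = ∑ k ∈ range (max (m + 1) T), (m.choose k : ℤ) * (((p : ℤ) ^ 2) ^ k * b k) := by
    rw [h m]
    apply sum_subset (range_mono (le_max_left _ _))
    intro k _ hk
    rw [mem_range, not_lt] at hk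
    rw [Nat.choose_eq_zero_of_lt (by omega)]; simp
  have h2 : ∑ k ∈ range (max (m + 1) T), (m.choose k : ℤ) * (((p : ℤ) ^ 2) ^ k * b k) =
      ∑ k ∈ range T, (m.choose k : ℤ) * (((p : ℤ) ^ 2) ^ k * b k) +
      ∑ k ∈ Ico T (max (m + 1) T), (m.choose k : ℤ) * (((p : ℤ) ^ 2) ^ k * b k) :=
    (sum_range_add_sum_Ico _ (le_max_right _ _)).symm
  have h3 : (p : ℤ) ^ T ∣ ∑ k ∈ Ico T (max (m + 1) T), (m.choose k : ℤ) * (((p : ℤ) ^ 2) ^ k * b k) := by
    refine dvd_sum fun k hk => ?_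
    rw [mem_Ico] at hk
    have e : ((p : ℤ) ^ 2) ^ k = p ^ k * p ^ k := by rw [← mul_pow, ← sq]
    rw [e]
    exact ((((pow_dvd_pow (p : ℤ) hk.1).mul_right _).mul_right _).mul_left _)
  have h4 : (p : ℤ) ^ T ∣ ∑ k ∈ range T, (m.choose k : ℤ) * (((p : ℤ) ^ 2) ^ k * b k) - (G p b T).eval (m : ℤ) := by
    unfold G
    rw [eval_finsetSum, ← sum_sub_distrib]
    refine dvd_sum fun k _ => ?_
    rw [eval_mul, eval_C, descPochhammer_eval_eq_descFactorial]
    have := (wt_spec hp T k m).mul_right (b k)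
    have e : (m.choose k : ℤ) * (((p : ℤ) ^ 2) ^ k * b k) - wt p T k * b k * (m.descFactorial k : ℤ) =
      (((p : ℤ) ^ 2) ^ k * (m.choose k : ℤ) - wt p T k * (m.descFactorial k : ℤ)) * b k := by ring
    rw [e]; exact this
  rw [h1, h2]
  have e : ∑ k ∈ range T, (m.choose k : ℤ) * (((p : ℤ) ^ 2) ^ k * b k) +
      ∑ k ∈ Ico T (max (m + 1) T), (m.choose k : ℤ) * (((p : ℤ) ^ 2) ^ k * b k) - (G p b T).eval (m : ℤ) =
      (∑ k ∈ range T, (m.choose k : ℤ) * (((p : ℤ) ^ 2) ^ k * b k) - (G p b T).eval (m : ℤ)) +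
      ∑ k ∈ Ico T (max (m + 1) T), (m.choose k : ℤ) * (((p : ℤ) ^ 2) ^ k * b k) := by ring
  rw [e]
  exact dvd_add h4 h3

theorem coeff_G (p : ℕ) (b : ℕ → ℤ) (T j : ℕ) :
    (G p b T).coeff j = ∑ k ∈ range T, wt p T k * b k * (descPochhammer ℤ k).coeff j := by
  unfold G
  rw [finsetSum_coeff]
  exact sum_congr rfl fun k _ => coeff_C_mul _

theorem coeff_small {p : ℕ} (hp : p.Prime) (b : ℕ → ℤ) (T : ℕ) {j : ℕ} (hj : j ≠ 0) :
    (p : ℤ) ^ (j + 1) ∣ (G p b T).coeff j := by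
  rw [coeff_G]
  refine dvd_sum fun k _ => ?_
  rcases lt_or_ge k j with h | h
  · rw [coeff_eq_zero_of_natDegree_lt (by rw [descPochhammer_natDegree]; exact h), mul_zero]
    exact dvd_zero _
  · exact (((pow_dvd_pow (p : ℤ) (by omega : j + 1 ≤ k + 1)).trans (wt_dvd hp (by omega) T)).mul_right _).mul_right _

theorem coeff_compat {p : ℕ} (hp : p.Prime) (b : ℕ → ℤ) {T T' : ℕ} (h : T ≤ T') (j : ℕ) :
    (p : ℤ) ^ T ∣ (G p b T').coeff j - (G p b T).coeff j := by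
  rw [coeff_G, coeff_G, ← sum_range_add_sum_Ico _ h, add_sub_right_comm, ← sum_sub_distrib]
  apply dvd_add
  · refine dvd_sum fun k _ => ?_
    have := ((wt_compat hp h k).mul_right (b k)).mul_right ((descPochhammer ℤ k).coeff j)
    have e : wt p T' k * b k * (descPochhammer ℤ k).coeff j - wt p T k * b k * (descPochhammer ℤ k).coeff j =
      (wt p T' k - wt p T k) * b k * (descPochhammer ℤ k).coeff j := by ring
    rw [e]; exact this
  · refine dvd_sum fun k hk => ?_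
    rw [mem_Ico] at hk
    exact (((pow_dvd_pow (p : ℤ) hk.1).trans (wt_dvd' hp T' k)).mul_right _).mul_right _

/-- If the sequence is not constant, the derivatives do not vanish uniformly. -/
theorem exists_index {p : ℕ} (hp : p.Prime) {b y : ℕ → ℤ} (h : An ((p : ℤ) ^ 2) b y) (hne : ∃ m, y m ≠ y 0) :
    ∃ d μ : ℕ, ∀ T, μ + 1 ≤ T → ¬ (p : ℤ) ^ (μ + 1) ∣ (derivative (G p b T)).coeff d ∧
      ∀ j, d < j → (p : ℤ) ^ (μ + 1) ∣ (derivative (G p b T)).coeff j := by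
  classical
  have hcd : ∀ T j, (derivative (G p b T)).coeff j = (G p b T).coeff (j + 1) * (j + 1) := fun T j => by
    rw [coeff_derivative]
  have hcomp : ∀ (T T' j : ℕ), T ≤ T' →
      (p : ℤ) ^ T ∣ (derivative (G p b T')).coeff j - (derivative (G p b T)).coeff j := by
    intro T T' j hT
    rw [hcd, hcd, ← sub_mul]
    exact (coeff_compat hp b hT _).mul_right _
  have hlt : ∀ n : ℕ, n < p ^ n := fun n => Nat.lt_pow_self hp.one_lt
  have hex : ∃ T0 j0, ¬ (p : ℤ) ^ T0 ∣ (derivative (G p b T0)).coeff j0 := by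
    by_contra hcon
    push Not at hcon
    obtain ⟨m, hm⟩ := hne
    apply hm
    -- all the coefficients vanish
    have h1 : ∀ T j, (p : ℤ) ^ T ∣ (G p b T).coeff (j + 1) := by
      intro T j
      -- the exponent of `p` in `j + 1`
      obtain ⟨v, hv⟩ : ∃ v : ℕ, ¬ (p : ℤ) ^ v ∣ ((j : ℤ) + 1) := by
        refine ⟨j + 1, fun h => ?_⟩
        have h2 := Int.le_of_dvd (by positivity) h
        have h3 : (j + 1 : ℕ) < p ^ (j + 1) := hlt _
        have h4 : ((j + 1 : ℕ) : ℤ) < (p : ℤ) ^ (j + 1) := by exact_mod_cast h3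
        push_cast at h4
        linarith
      have h2 := hcon (T + v) j
      rw [hcd, mul_comm] at h2
      have h3 := dvd_split hp v (T + v) _ _ h2 hv
      rw [Nat.add_sub_cancel] at h3
      have h4 := coeff_compat hp b (Nat.le_add_right T v) (j + 1)
      have := dvd_sub h3 h4
      rwa [sub_sub_cancel] at this
    have h2 : ∀ T, (p : ℤ) ^ T ∣ y m - y 0 := by
      intro T
      have e1 := an_eval hp h T m
      have e2 := an_eval hp h T 0
      have e3 : (p : ℤ) ^ T ∣ (G p b T).eval (m : ℤ) - (G p b T).eval ((0 : ℕ) : ℤ) := by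
        rw [Nat.cast_zero, ← coeff_zero_eq_eval_zero, eval_eq_sum_range, sum_range_succ', pow_zero, mul_one,
          add_sub_cancel_right]
        exact dvd_sum fun i _ => (h1 T i).mul_right _
      have e4 := dvd_add (dvd_sub e1 e2) e3
      have e5 : y m - (G p b T).eval (m : ℤ) - (y 0 - (G p b T).eval ((0 : ℕ) : ℤ)) +
        ((G p b T).eval (m : ℤ) - (G p b T).eval ((0 : ℕ) : ℤ)) = y m - y 0 := by ring
      rwa [e5] at e4
    by_contra hne2
    have h3 : y m - y 0 ≠ 0 := sub_ne_zero.2 hne2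
    have h4 := h2 (y m - y 0).natAbs
    have h5 := Int.natAbs_dvd_natAbs.2 h4
    rw [Int.natAbs_pow] at h5
    have h6 := Nat.le_of_dvd (Int.natAbs_pos.2 h3) h5
    have h7 : (y m - y 0).natAbs < p ^ (y m - y 0).natAbs := hlt _
    rw [Int.natAbs_natCast] at h6
    omega
  obtain ⟨T0, j0, hj0⟩ := hex
  obtain ⟨μ, rfl⟩ : ∃ μ, T0 = μ + 1 := by
    refine ⟨T0 - 1, ?_⟩
    have : T0 ≠ 0 := by rintro rfl; simp at hj0
    omega
  -- the largest index
  have hsmall : ∀ T j, μ ≤ j → (p : ℤ) ^ (μ + 1) ∣ (derivative (G p b T)).coeff j := by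
    intro T j hj
    rw [hcd]
    exact ((pow_dvd_pow (p : ℤ) (by omega : μ + 1 ≤ (j + 1) + 1)).trans
      (coeff_small hp b T (Nat.succ_ne_zero j))).mul_right _
  set S : Finset ℕ := (range (μ + 1)).filter
    (fun j => ¬ (p : ℤ) ^ (μ + 1) ∣ (derivative (G p b (μ + 1))).coeff j) with hS
  have hSne : S.Nonempty := by
    refine ⟨j0, ?_⟩
    rw [hS, mem_filter, mem_range]
    refine ⟨?_, hj0⟩
    by_contra hcon
    exact hj0 (hsmall _ _ (by omega))
  refine ⟨S.max' hSne, μ, fun T hT => ⟨?_, ?_⟩⟩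
  · have h1 := mem_filter.1 (S.max'_mem hSne)
    intro h2
    have h3 := hcomp (μ + 1) T (S.max' hSne) hT
    apply h1.2
    have := dvd_sub h2 h3
    rwa [sub_sub_cancel] at this
  · intro j hj
    have h2 : (p : ℤ) ^ (μ + 1) ∣ (derivative (G p b (μ + 1))).coeff j := by
      by_contra hcon
      have h3 : j ∈ S := by
        rw [hS, mem_filter, mem_range]
        refine ⟨?_, hcon⟩
        by_contra hlt
        exact hcon (hsmall _ _ (by omega))
      exact absurd (S.le_max' j h3) (not_le.2 hj)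
    have h3 := hcomp (μ + 1) T j hT
    have := dvd_add h2 h3
    rwa [add_sub_cancel] at this

end Pool.Agent.U491.LR
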