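import Pool.Agent.U491.LR.B
import Pool.Agent.Y927.GP.C

/-! Analytic sequences map small sets of classes modulo `d ^ T` to small sets of classes. -/

set_option autoImplicit false

namespace Pool.Agent.U491.LR

open Finset Polynomial

theorem count_mod {A B : ℕ} (hA : 0 < A) (Q : ℕ → Prop) [DecidablePred Q] :
    #{m ∈ range (A * B) | Q (m % A)} ≤ #{c ∈ range A | Q c} * B := by
  have h0 : #(({c ∈ range A | Q c} : Finset ℕ) ×ˢ range B) = #{c ∈ range A | Q c} * B := by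
    rw [card_product, card_range]
  rw [← h0]
  apply card_le_card_of_injOn (fun m => (m % A, m / A))
  · intro m hm
    rw [mem_coe, mem_filter, mem_range] at hm
    rw [mem_coe, mem_product, mem_filter, mem_range, mem_range]
    exact ⟨⟨Nat.mod_lt _ hA, hm.2⟩, Nat.div_lt_of_lt_mul hm.1⟩
  · intro m _ m' _ h
    simp only [Prod.mk.injEq] at h
    rw [← Nat.mod_add_div m A, ← Nat.mod_add_div m' A, h.1, h.2]

/-- Two integers `n < n'` close to each other, congruent modulo `d ^ j`, with congruent values. -/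
theorem rigid {d : ℕ} (hd : 2 ≤ d) {y : ℕ → ℤ} {b : ℕ → ℕ → ℤ}
    (hb : ∀ p : ℕ, p.Prime → p ∣ d → An ((p : ℤ) ^ 2) (b p) y) {N j : ℕ} {n n' : ℕ}
    (hlt : n < n') (hclose : n' - n < d ^ (N - j)) (hj : (d : ℤ) ^ j ∣ (n' : ℤ) - n)
    (hf : (d : ℤ) ^ N ∣ y n' - y n) :
    ∃ p : ℕ, p.Prime ∧ p ∣ d ∧
      (p : ℤ) ^ j ∣ (derivative (G p (b p) (d.factorization p * N))).eval (n : ℤ) := by
  by_contra hcon
  push Not at hcon
  set h : ℤ := (n' : ℤ) - n with hh
  have hpos : 0 < h := by omega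
  have hdvd : ((d : ℤ) ^ (N - j)) ∣ h := by
    apply Pool.Agent.Y927.GP.pow_dvd_of_primes (by omega) hpos.ne'
    intro p hp hpd
    have he : 1 ≤ d.factorization p := hp.factorization_pos_of_dvd (by omega) hpd
    set E := d.factorization p with hE
    set g := G p (b p) (E * N) with hg
    have hpE : ((p : ℤ) ^ E) ∣ (d : ℤ) := by
      have h3 : (p ^ E : ℕ) ∣ d := Nat.ordProj_dvd d p
      exact_mod_cast h3
    have h0 : ((p : ℤ) ^ (E * N)) ∣ y n' - y n := by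
      refine Dvd.dvd.trans ?_ hf
      rw [pow_mul]
      exact pow_dvd_pow_of_dvd hpE N
    have e1 := an_eval hp (hb p hp hpd) (E * N) n'
    have e2 := an_eval hp (hb p hp hpd) (E * N) n
    obtain ⟨r, hr⟩ := g.binomExpansion (n : ℤ) h
    have e3 : (n : ℤ) + h = n' := by rw [hh]; ring
    rw [e3] at hr
    have h2 : ((p : ℤ) ^ (E * N)) ∣ (g.derivative.eval (n : ℤ) + r * h) * h := by
      have h3 := dvd_sub (dvd_add h0 e2) e1
      have e4 : y n' - y n + (y n - g.eval (n : ℤ)) - (y n' - g.eval (n' : ℤ)) =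
          (g.derivative.eval (n : ℤ) + r * h) * h := by
        rw [hr]; ring
      rwa [e4] at h3
    have h4 : ¬ (p : ℤ) ^ j ∣ g.derivative.eval (n : ℤ) + r * h := by
      intro h5
      apply hcon p hp hpd
      have h6 : ((p : ℤ) ^ j) ∣ r * h := by
        apply Dvd.dvd.mul_left
        refine Dvd.dvd.trans ?_ hj
        apply pow_dvd_pow_of_dvd
        exact_mod_cast hpd
      have h7 := dvd_sub h5 h6
      have e5 : g.derivative.eval (n : ℤ) + r * h - r * h = g.derivative.eval (n : ℤ) := by ring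
      rwa [e5] at h7
    have h5 := dvd_split hp j (E * N) _ _ h2 h4
    refine (pow_dvd_pow _ ?_).trans h5
    have h6 : E * (N - j) = E * N - E * j := Nat.mul_sub _ _ _
    have h7 : j ≤ E * j := Nat.le_mul_of_pos_left _ he
    omega
  have h2 := Int.le_of_dvd hpos hdvd
  have h3 : ((n' - n : ℕ) : ℤ) < ((d ^ (N - j) : ℕ) : ℤ) := by exact_mod_cast hclose
  push_cast [Nat.cast_sub hlt.le] at h3
  omega

open Classical in
theorem fibre_count {d : ℕ} (hd : 2 ≤ d) {y : ℕ → ℤ} {b : ℕ → ℕ → ℤ}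
    (hb : ∀ p : ℕ, p.Prime → p ∣ d → An ((p : ℤ) ^ 2) (b p) y) {T j : ℕ} (hjT : j ≤ T) (P : ℤ → Prop)
    (hP : ∀ y m : ℤ, P (y + m * (d : ℤ) ^ T) ↔ P y) :
    #{c ∈ range (d ^ T) | (∀ p : ℕ, p.Prime → p ∣ d →
      ¬ (p : ℤ) ^ j ∣ (derivative (G p (b p) (d.factorization p * T))).eval ((c : ℕ) : ℤ)) ∧ P (y c)} ≤
      #{c ∈ range (d ^ T) | P ((c : ℕ) : ℤ)} * (d ^ j * d ^ j) := by
  have h0 : #(({c ∈ range (d ^ T) | P ((c : ℕ) : ℤ)} : Finset ℕ) ×ˢ (range (d ^ j) ×ˢ range (d ^ j))) =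
      #{c ∈ range (d ^ T) | P ((c : ℕ) : ℤ)} * (d ^ j * d ^ j) := by
    rw [card_product, card_product, card_range]
  rw [← h0]
  have hd0 : 0 < d := by omega
  have h2T : (0 : ℤ) < (d : ℤ) ^ T := by positivity
  have hval : ∀ y : ℤ, (((y % (d : ℤ) ^ T).toNat : ℕ) : ℤ) = y % (d : ℤ) ^ T := fun y =>
    Int.toNat_of_nonneg (Int.emod_nonneg y h2T.ne')
  apply card_le_card_of_injOn (fun c : ℕ => ((y c % (d : ℤ) ^ T).toNat, (c % d ^ j, c / d ^ (T - j))))
  · intro c hc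
    rw [mem_coe, mem_filter, mem_range] at hc
    obtain ⟨hc1, -, hc2⟩ := hc
    rw [mem_coe, mem_product, mem_product, mem_filter, mem_range, mem_range, mem_range]
    refine ⟨⟨?_, ?_⟩, ?_, ?_⟩
    · have h1 := Int.emod_lt_of_pos (y c) h2T
      rw [← hval] at h1
      have : (((y c % (d : ℤ) ^ T).toNat : ℕ) : ℤ) < ((d ^ T : ℕ) : ℤ) := by push_cast; push_cast at h1; exact h1
      exact_mod_cast this
    · simp only
      rw [hval, ← hP _ (y c / (d : ℤ) ^ T)]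
      have := Int.emod_add_mul_ediv (y c) ((d : ℤ) ^ T)
      rw [mul_comm] at this
      rw [this]; exact hc2
    · exact Nat.mod_lt _ (by positivity)
    · rw [Nat.div_lt_iff_lt_mul (by positivity), ← pow_add, show j + (T - j) = T by omega]
      exact hc1
  · have key : ∀ c c' : ℕ, c < c' → (∀ p : ℕ, p.Prime → p ∣ d →
        ¬ (p : ℤ) ^ j ∣ (derivative (G p (b p) (d.factorization p * T))).eval ((c : ℕ) : ℤ)) →
        (y c % (d : ℤ) ^ T).toNat = (y c' % (d : ℤ) ^ T).toNat →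
        c % d ^ j = c' % d ^ j → c / d ^ (T - j) = c' / d ^ (T - j) → False := by
      intro c c' hcd h1 h2 h3 h4
      obtain ⟨p, hp, hpd, hdv⟩ := rigid (N := T) (j := j) hd hb hcd (by
        have h5 := Nat.div_add_mod c (d ^ (T - j))
        have h6 := Nat.div_add_mod c' (d ^ (T - j))
        have h7 := Nat.mod_lt c' (show 0 < d ^ (T - j) by positivity)
        rw [h4] at h5
        generalize d ^ (T - j) * (c' / d ^ (T - j)) = q at h5 h6
        generalize c % d ^ (T - j) = r1 at h5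
        generalize c' % d ^ (T - j) = r2 at h6 h7
        omega) (by
        have h5 := (Nat.modEq_iff_dvd.1 (show c ≡ c' [MOD d ^ j] from h3))
        exact_mod_cast h5) (by
        have h5 : y c % (d : ℤ) ^ T = y c' % (d : ℤ) ^ T := by
          have a1 := hval (y c)
          have a2 := hval (y c')
          rw [← a1, ← a2, h2]
        exact (Int.modEq_iff_dvd.1 h5))
      exact h1 p hp hpd hdv
    intro c hc c' hc' h
    rw [mem_coe, mem_filter] at hc hc'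
    simp only [Prod.mk.injEq] at h
    obtain ⟨e1, e2, e3⟩ := h
    rcases lt_trichotomy c c' with h | h | h
    · exact (key c c' h hc.2.1 e1 e2 e3).elim
    · exact h
    · exact (key c' c h hc'.2.1 e1.symm e2.symm e3.symm).elim

open Classical in
/-- the integers at which the derivative is divisible by a high power of `p` -/
theorem bad_count {d : ℕ} (hd : 2 ≤ d) {p : ℕ} (hp : p.Prime) (hpd : p ∣ d) {b : ℕ → ℤ} {D μ : ℕ}
    (hD : ∀ T, μ + 1 ≤ T → ¬ (p : ℤ) ^ (μ + 1) ∣ (derivative (G p b T)).coeff D ∧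
      ∀ j, D < j → (p : ℤ) ^ (μ + 1) ∣ (derivative (G p b T)).coeff j) {s j T : ℕ} (hs : μ + 1 + D * s ≤ j)
    (hsj : s ≤ T) (hjT : j ≤ T) :
    (#{c ∈ range (d ^ T) | (p : ℤ) ^ j ∣ (derivative (G p b (d.factorization p * T))).eval ((c : ℕ) : ℤ)} : ℝ) ≤
      D * ((1 / 2) ^ s * (d : ℝ) ^ T) := by
  have he : 1 ≤ d.factorization p := hp.factorization_pos_of_dvd (by omega) hpd
  set E := d.factorization p with hE
  set w := derivative (G p b (E * T)) with hw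
  have hTE : T ≤ E * T := Nat.le_mul_of_pos_left _ he
  obtain ⟨h1, h2⟩ := hD (E * T) (by omega)
  have h3 := roots_count hp (s := s) (T := E * T) (by omega) D w μ j h1 h2 hs
  have hdvd : p ^ (E * T) ∣ d ^ T := by
    rw [pow_mul]
    exact pow_dvd_pow_of_dvd (Nat.ordProj_dvd d p) T
  obtain ⟨B, hB⟩ := hdvd
  have hpp : 0 < p ^ (E * T) := pow_pos hp.pos _
  have h4 := count_mod (A := p ^ (E * T)) (B := B) hpp (fun c : ℕ => (p : ℤ) ^ j ∣ w.eval ((c : ℕ) : ℤ))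
  have h5 : #{c ∈ range (d ^ T) | (p : ℤ) ^ j ∣ w.eval ((c : ℕ) : ℤ)} ≤
      #{c ∈ range (p ^ (E * T) * B) | (p : ℤ) ^ j ∣ w.eval (((c % p ^ (E * T) : ℕ)) : ℤ)} := by
    rw [hB]
    apply card_le_card
    intro c hc
    rw [mem_filter] at hc ⊢
    refine ⟨hc.1, ?_⟩
    have h6 : (p : ℤ) ^ j ∣ w.eval ((c : ℕ) : ℤ) - w.eval (((c % p ^ (E * T) : ℕ)) : ℤ) := by
      refine Dvd.dvd.trans ?_ (w.sub_dvd_eval_sub _ _)
      refine Dvd.dvd.trans (pow_dvd_pow _ (show j ≤ E * T by omega)) ?_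
      refine ⟨((c / p ^ (E * T) : ℕ) : ℤ), ?_⟩
      have h7 := Nat.mod_add_div c (p ^ (E * T))
      have h8 : ((c : ℕ) : ℤ) = ((c % p ^ (E * T) : ℕ) : ℤ) + ((p : ℤ) ^ (E * T)) * ((c / p ^ (E * T) : ℕ) : ℤ) := by
        have : ((c % p ^ (E * T) + p ^ (E * T) * (c / p ^ (E * T)) : ℕ) : ℤ) = (c : ℤ) := by rw [h7]
        rw [← this]; push_cast; ring
      linarith
    have h7 := dvd_sub hc.2 h6
    rwa [sub_sub_cancel] at h7
  have h6 := h5.trans (h4.trans (Nat.mul_le_mul_right B h3))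
  have h7 : (#{c ∈ range (d ^ T) | (p : ℤ) ^ j ∣ w.eval ((c : ℕ) : ℤ)} : ℝ) ≤ D * (p : ℝ) ^ (E * T - s) * B := by
    exact_mod_cast h6
  refine h7.trans ?_
  have hp2 : (2 : ℝ) ≤ p := by exact_mod_cast hp.two_le
  have h8 : (p : ℝ) ^ (E * T - s) * 2 ^ s ≤ (p : ℝ) ^ (E * T) := by
    have e : E * T = (E * T - s) + s := by omega
    conv_rhs => rw [e, pow_add]
    apply mul_le_mul_of_nonneg_left _ (by positivity)
    exact pow_le_pow_left₀ (by norm_num) hp2 s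
  have h9 : (d : ℝ) ^ T = (p : ℝ) ^ (E * T) * B := by exact_mod_cast hB
  have h10 : (p : ℝ) ^ (E * T - s) ≤ (1 / 2) ^ s * (p : ℝ) ^ (E * T) := by
    rw [one_div, inv_pow, inv_mul_eq_div, le_div_iff₀ (by positivity)]
    exact h8
  rw [h9]
  have hD0 : (0 : ℝ) ≤ D := Nat.cast_nonneg _
  have hB0 : (0 : ℝ) ≤ B := Nat.cast_nonneg _
  calc (D : ℝ) * (p : ℝ) ^ (E * T - s) * B ≤ D * ((1 / 2) ^ s * (p : ℝ) ^ (E * T)) * B := by gcongr
    _ = D * ((1 / 2) ^ s * ((p : ℝ) ^ (E * T) * B)) := by ring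

open Classical in
/-- Few classes contain few values. -/
theorem period_count {d : ℕ} (hd : 2 ≤ d) {b y : ℕ → ℤ} (h : An ((d : ℤ) ^ 2) b y) (hne : ∃ m, y m ≠ y 0)
    {η : ℝ} (hη : 0 < η) :
    ∃ δ K : ℝ, 0 < δ ∧ 0 < K ∧ ∀ T : ℕ, ∀ P : ℤ → Prop, (∀ z m : ℤ, P (z + m * (d : ℤ) ^ T) ↔ P z) →
      (#{c ∈ range (d ^ T) | P ((c : ℕ) : ℤ)} : ℝ) ≤ Real.exp (-(η * T)) * (d : ℝ) ^ T →
      (#{m ∈ range (d ^ T) | P (y m)} : ℝ) ≤ K * Real.exp (-(δ * T)) * (d : ℝ) ^ T := by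
  have hd1 : (1 : ℝ) < d := by exact_mod_cast (show 1 < d by omega)
  have hd0 : (0 : ℝ) < d := by linarith
  have hL : 0 < Real.log d := Real.log_pos hd1
  have hl2 : 0 < Real.log 2 := Real.log_pos (by norm_num)
  have hbp : ∀ p : ℕ, ∃ b' : ℕ → ℤ, p ∣ d → An ((p : ℤ) ^ 2) b' y := by
    intro p
    by_cases hpd : p ∣ d
    · obtain ⟨b', hb'⟩ := h.of_dvd (q' := (p : ℤ) ^ 2) (pow_dvd_pow_of_dvd (by exact_mod_cast hpd) 2)
      exact ⟨b', fun _ => hb'⟩
    · exact ⟨fun _ => 0, fun hh => absurd hh hpd⟩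
  choose b' hb' using hbp
  have hidx : ∀ p : ℕ, ∃ D μ : ℕ, p.Prime → p ∣ d →
      ∀ T, μ + 1 ≤ T → ¬ (p : ℤ) ^ (μ + 1) ∣ (derivative (G p (b' p) T)).coeff D ∧
      ∀ j, D < j → (p : ℤ) ^ (μ + 1) ∣ (derivative (G p (b' p) T)).coeff j := by
    intro p
    by_cases hp : p.Prime ∧ p ∣ d
    · obtain ⟨D, μ, hD⟩ := exists_index hp.1 (hb' p hp.2) hne
      exact ⟨D, μ, fun _ _ => hD⟩
    · exact ⟨0, 0, fun h1 h2 => absurd ⟨h1, h2⟩ hp⟩
  choose Dp μp hDμ using hidx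
  set D := ∑ p ∈ d.primeFactors, Dp p with hD
  set μ := ∑ p ∈ d.primeFactors, μp p with hμ
  have hDle : ∀ p ∈ d.primeFactors, Dp p ≤ D := fun p hp =>
    Finset.single_le_sum (f := Dp) (fun _ _ => Nat.zero_le _) hp
  have hμle : ∀ p ∈ d.primeFactors, μp p ≤ μ := fun p hp =>
    Finset.single_le_sum (f := μp) (fun _ _ => Nat.zero_le _) hp
  set θ : ℝ := min 1 (η / (4 * Real.log d)) with hθ
  have hθ0 : 0 < θ := lt_min one_pos (by positivity)
  have hθ1 : θ ≤ 1 := min_le_left _ _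
  have hθ2 : 2 * θ * Real.log d ≤ η / 2 := by
    have h1 : θ ≤ η / (4 * Real.log d) := min_le_right _ _
    have h2 := mul_le_mul_of_nonneg_right h1 hL.le
    have e1 : η / (4 * Real.log d) * Real.log d = η / 4 := by field_simp
    rw [e1] at h2
    linarith
  set θ' : ℝ := θ / (D + 1) with hθ'
  have hD0 : (0 : ℝ) ≤ D := Nat.cast_nonneg _
  have hμ0 : (0 : ℝ) ≤ μ := Nat.cast_nonneg _
  have hθ'0 : 0 < θ' := by positivity
  have hθ'1 : θ' ≤ θ := div_le_self hθ0.le (by linarith)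
  set δ : ℝ := min (θ' * Real.log 2) (η / 2) with hδ
  have hδ0 : 0 < δ := lt_min (by positivity) (by positivity)
  have hδa : δ ≤ θ' * Real.log 2 := min_le_left _ _
  have hδb : δ ≤ η / 2 := min_le_right _ _
  refine ⟨δ, (D + 1) * 2 ^ (μ + 3) + 1, hδ0, by positivity, fun T P hP hc => ?_⟩
  have hT0 : (0 : ℝ) ≤ T := Nat.cast_nonneg _
  have hdT : (0 : ℝ) < (d : ℝ) ^ T := by positivity
  set j : ℕ := ⌊θ * T⌋₊ with hj
  have hj1 : (j : ℝ) ≤ θ * T := Nat.floor_le (by positivity)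
  have hj2 : θ * T < j + 1 := Nat.lt_floor_add_one _
  have hjT : j ≤ T := by
    have h1 : θ * T ≤ 1 * T := mul_le_mul_of_nonneg_right hθ1 hT0
    have h2 : (j : ℝ) ≤ T := by linarith
    exact_mod_cast h2
  have htriv : (#{m ∈ range (d ^ T) | P (y m)} : ℝ) ≤ (d : ℝ) ^ T := by
    have := card_filter_le (range (d ^ T)) (fun m => P (y m))
    rw [card_range] at this
    exact_mod_cast this
  rcases lt_or_ge j (μ + 1) with hsmall | hbig
  · -- `T` is bounded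
    refine htriv.trans ?_
    have h1 : (j : ℝ) ≤ μ := by exact_mod_cast (by omega : j ≤ μ)
    have h2 : θ' * T ≤ μ + 1 := (mul_le_mul_of_nonneg_right hθ'1 hT0).trans (by linarith)
    have h3 : δ * T ≤ (μ + 1) * Real.log 2 := by
      calc δ * T ≤ θ' * Real.log 2 * T := mul_le_mul_of_nonneg_right hδa hT0
        _ = θ' * T * Real.log 2 := by ring
        _ ≤ (μ + 1) * Real.log 2 := mul_le_mul_of_nonneg_right h2 hl2.le
    have h4 : (1 : ℝ) ≤ 2 ^ (μ + 1) * Real.exp (-(δ * T)) := by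
      have e : (2 : ℝ) ^ (μ + 1) = Real.exp ((μ + 1) * Real.log 2) := by
        have : ((μ : ℝ) + 1) = ((μ + 1 : ℕ) : ℝ) := by push_cast; ring
        rw [this, Real.exp_nat_mul, Real.exp_log (by norm_num)]
      rw [e, ← Real.exp_add]
      apply Real.one_le_exp
      linarith
    have h5 : (2 : ℝ) ^ (μ + 1) ≤ 2 ^ (μ + 3) := pow_le_pow_right₀ (by norm_num) (by omega)
    calc (d : ℝ) ^ T = 1 * (d : ℝ) ^ T := (one_mul _).symm
      _ ≤ 2 ^ (μ + 1) * Real.exp (-(δ * T)) * (d : ℝ) ^ T := mul_le_mul_of_nonneg_right h4 hdT.le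
      _ ≤ ((D + 1) * 2 ^ (μ + 3) + 1) * Real.exp (-(δ * T)) * (d : ℝ) ^ T := by
          apply mul_le_mul_of_nonneg_right _ hdT.le
          apply mul_le_mul_of_nonneg_right _ (Real.exp_pos _).le
          have h6 : (0 : ℝ) ≤ D * 2 ^ (μ + 3) := by positivity
          nlinarith
  -- the main case
  set s : ℕ := (j - (μ + 1)) / (D + 1) with hs
  have hs1 : (D + 1) * s ≤ j - (μ + 1) := Nat.mul_div_le _ _
  have hs2 : j - (μ + 1) < (D + 1) * (s + 1) := by
    have := Nat.lt_mul_div_succ (j - (μ + 1)) (show 0 < D + 1 by omega)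
    exact this
  have hsT : s ≤ T := by
    have h1 : s ≤ (D + 1) * s := Nat.le_mul_of_pos_left _ (by omega)
    omega
  have hsub : ({m ∈ range (d ^ T) | P (y m)} : Finset ℕ) ⊆
      d.primeFactors.biUnion (fun p : ℕ => {c ∈ range (d ^ T) |
        (p : ℤ) ^ j ∣ (derivative (G p (b' p) (d.factorization p * T))).eval ((c : ℕ) : ℤ)}) ∪
      {c ∈ range (d ^ T) | (∀ p : ℕ, p.Prime → p ∣ d →
        ¬ (p : ℤ) ^ j ∣ (derivative (G p (b' p) (d.factorization p * T))).eval ((c : ℕ) : ℤ)) ∧ P (y c)} := by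
    intro c hc
    rw [mem_filter] at hc
    rw [mem_union, mem_biUnion, mem_filter]
    by_cases h1 : ∀ p : ℕ, p.Prime → p ∣ d →
        ¬ (p : ℤ) ^ j ∣ (derivative (G p (b' p) (d.factorization p * T))).eval ((c : ℕ) : ℤ)
    · right; exact ⟨hc.1, h1, hc.2⟩
    · left
      push Not at h1
      obtain ⟨p, hp, hpd, hdv⟩ := h1
      refine ⟨p, ?_, ?_⟩
      · rw [Nat.mem_primeFactors]; exact ⟨hp, hpd, by omega⟩
      · rw [mem_filter]; exact ⟨hc.1, hdv⟩
  have hcard := (card_le_card hsub).trans (card_union_le _ _)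
  have hcard' : (#{m ∈ range (d ^ T) | P (y m)} : ℝ) ≤
      (∑ p ∈ d.primeFactors, (#{c ∈ range (d ^ T) |
        (p : ℤ) ^ j ∣ (derivative (G p (b' p) (d.factorization p * T))).eval ((c : ℕ) : ℤ)} : ℝ)) +
      (#{c ∈ range (d ^ T) | (∀ p : ℕ, p.Prime → p ∣ d →
        ¬ (p : ℤ) ^ j ∣ (derivative (G p (b' p) (d.factorization p * T))).eval ((c : ℕ) : ℤ)) ∧ P (y c)} : ℝ) := by
    exact_mod_cast hcard.trans (Nat.add_le_add_right card_biUnion_le _)
  refine hcard'.trans ?_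
  have h1 : (∑ p ∈ d.primeFactors, (#{c ∈ range (d ^ T) |
        (p : ℤ) ^ j ∣ (derivative (G p (b' p) (d.factorization p * T))).eval ((c : ℕ) : ℤ)} : ℝ)) ≤
      D * ((1 / 2) ^ s * (d : ℝ) ^ T) := by
    rw [hD]
    push_cast
    rw [Finset.sum_mul]
    apply Finset.sum_le_sum
    intro p hp
    have hp' := Nat.mem_primeFactors.1 hp
    have h3 := hDle p hp
    have h4 := hμle p hp
    refine bad_count hd hp'.1 hp'.2.1 (hDμ p hp'.1 hp'.2.1) ?_ hsT hjT
    have h5 : Dp p * s ≤ (D + 1) * s := Nat.mul_le_mul_right s (by omega)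
    omega
  have h2 : (#{c ∈ range (d ^ T) | (∀ p : ℕ, p.Prime → p ∣ d →
        ¬ (p : ℤ) ^ j ∣ (derivative (G p (b' p) (d.factorization p * T))).eval ((c : ℕ) : ℤ)) ∧ P (y c)} : ℝ) ≤
      #{c ∈ range (d ^ T) | P ((c : ℕ) : ℤ)} * ((d : ℝ) ^ j * (d : ℝ) ^ j) := by
    exact_mod_cast fibre_count hd (fun p _ hpd => hb' p hpd) hjT P hP
  -- estimates
  have h3 : ((1 : ℝ) / 2) ^ s ≤ 2 ^ (μ + 3) * Real.exp (-(δ * T)) := by
    have e1 : ((1 : ℝ) / 2) ^ s = Real.exp (-(s * Real.log 2)) := by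
      rw [Real.exp_neg, Real.exp_nat_mul, Real.exp_log (by norm_num), one_div, inv_pow]
    have e2 : (2 : ℝ) ^ (μ + 3) = Real.exp (((μ : ℝ) + 3) * Real.log 2) := by
      have : ((μ : ℝ) + 3) = ((μ + 3 : ℕ) : ℝ) := by push_cast; ring
      rw [this, Real.exp_nat_mul, Real.exp_log (by norm_num)]
    rw [e1, e2, ← Real.exp_add]
    apply Real.exp_le_exp.2
    have h4 : (j : ℝ) - (μ + 1) < (D + 1) * (s + 1) := by
      have h5 : ((j - (μ + 1) : ℕ) : ℝ) < (((D + 1) * (s + 1) : ℕ) : ℝ) := by exact_mod_cast hs2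
      rw [Nat.cast_sub hbig] at h5
      push_cast at h5
      exact h5
    have h5 : θ * T - (μ + 2) < (D + 1) * (s + 1) := by linarith
    have h6 : (θ * T - (μ + 2)) / (D + 1) < s + 1 := by
      rw [div_lt_iff₀ (by linarith)]
      linarith
    have h7 : (θ * T - (μ + 2)) / (D + 1) = θ' * T - (μ + 2) / (D + 1) := by
      rw [hθ']; field_simp
    have h8 : ((μ : ℝ) + 2) / (D + 1) ≤ μ + 2 := div_le_self (by linarith) (by linarith)
    have h9 : θ' * T ≤ s + (μ + 3) := by linarith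
    have h10 := mul_le_mul_of_nonneg_right h9 hl2.le
    have h11 := mul_le_mul_of_nonneg_right hδa hT0
    nlinarith
  have h4 : (d : ℝ) ^ j * (d : ℝ) ^ j ≤ Real.exp (η / 2 * T) := by
    have e1 : (d : ℝ) ^ j * (d : ℝ) ^ j = Real.exp (j * (2 * Real.log d)) := by
      rw [← pow_add]
      have : (j : ℝ) * (2 * Real.log d) = ((j + j : ℕ) : ℝ) * Real.log d := by push_cast; ring
      rw [this, Real.exp_nat_mul, Real.exp_log hd0]
    rw [e1]
    apply Real.exp_le_exp.2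
    calc (j : ℝ) * (2 * Real.log d) ≤ θ * T * (2 * Real.log d) := mul_le_mul_of_nonneg_right hj1 (by positivity)
      _ = 2 * θ * Real.log d * T := by ring
      _ ≤ η / 2 * T := mul_le_mul_of_nonneg_right hθ2 hT0
  have h5 : (#{c ∈ range (d ^ T) | P ((c : ℕ) : ℤ)} : ℝ) * ((d : ℝ) ^ j * (d : ℝ) ^ j) ≤
      Real.exp (-(δ * T)) * (d : ℝ) ^ T := by
    calc (#{c ∈ range (d ^ T) | P ((c : ℕ) : ℤ)} : ℝ) * ((d : ℝ) ^ j * (d : ℝ) ^ j)
        ≤ (Real.exp (-(η * T)) * (d : ℝ) ^ T) * Real.exp (η / 2 * T) :=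
          mul_le_mul hc h4 (by positivity) (by positivity)
      _ = Real.exp (-(η / 2 * T)) * (d : ℝ) ^ T := by
          rw [mul_right_comm, ← Real.exp_add]
          congr 2; ring
      _ ≤ Real.exp (-(δ * T)) * (d : ℝ) ^ T := by
          apply mul_le_mul_of_nonneg_right _ hdT.le
          apply Real.exp_le_exp.2
          have := mul_le_mul_of_nonneg_right hδb hT0
          linarith
  have h6 : (D : ℝ) * ((1 / 2) ^ s * (d : ℝ) ^ T) ≤ D * (2 ^ (μ + 3) * Real.exp (-(δ * T)) * (d : ℝ) ^ T) := by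
    apply mul_le_mul_of_nonneg_left _ hD0
    exact mul_le_mul_of_nonneg_right h3 hdT.le
  have h7 : (0 : ℝ) ≤ 2 ^ (μ + 3) * Real.exp (-(δ * T)) * (d : ℝ) ^ T := by positivity
  calc _ ≤ D * (2 ^ (μ + 3) * Real.exp (-(δ * T)) * (d : ℝ) ^ T) + Real.exp (-(δ * T)) * (d : ℝ) ^ T :=
        add_le_add (h1.trans h6) (h2.trans h5)
    _ ≤ ((D + 1) * 2 ^ (μ + 3) + 1) * Real.exp (-(δ * T)) * (d : ℝ) ^ T := by
        have e : ((D + 1) * 2 ^ (μ + 3) + 1) * Real.exp (-(δ * T)) * (d : ℝ) ^ T =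
          D * (2 ^ (μ + 3) * Real.exp (-(δ * T)) * (d : ℝ) ^ T) + Real.exp (-(δ * T)) * (d : ℝ) ^ T +
          2 ^ (μ + 3) * Real.exp (-(δ * T)) * (d : ℝ) ^ T := by ring
        rw [e]; linarith

end Pool.Agent.U491.LR
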