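import Pool.Agent.U491.LR.C

/-! Linear recurrences with last coefficient prime to `d` have divisible differences; the ring of smooth
sequences (general modulus, after `Pool.Agent.U307.LR.{D,E}`). -/

set_option autoImplicit false

namespace Pool.Agent.U491.LR

open Finset Polynomial fwdDiff_aux

/-- The shift of sequences. -/
noncomputable def E : Module.End ℤ (ℕ → ℤ) := shiftₗ ℕ ℤ 1

theorem E_pow (k : ℕ) (u : ℕ → ℤ) (n : ℕ) : (E ^ k) u n = u (n + k) := by
  unfold E
  rw [shiftₗ_pow_apply]; simp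

theorem finite_order {q : ℕ} (hq : 2 ≤ q) {χ : ℤ[X]} (hm : χ.Monic) (h0 : IsCoprime (χ.coeff 0) (q : ℤ)) :
    ∃ M : ℕ, 0 < M ∧ ∃ B Q : ℤ[X], X ^ M - 1 = C (q : ℤ) * B + χ * Q := by
  classical
  have : NeZero q := ⟨by omega⟩
  have : Fact (1 < q) := ⟨by omega⟩
  set φ := Int.castRingHom (ZMod q) with hφ
  set g := χ.map φ with hg
  have hgm : g.Monic := hm.map φ
  have := hgm.finite_adjoinRoot
  have : Finite (AdjoinRoot g) := Module.finite_of_finite (ZMod q)
  have hu0 : IsUnit (g.coeff 0) := by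
    rw [hg, coeff_map]
    obtain ⟨u, v, huv⟩ := h0
    apply IsUnit.of_mul_eq_one (φ u)
    have h1 : φ (u * χ.coeff 0 + v * q) = 1 := by rw [huv, map_one]
    have h2 : φ (q : ℤ) = 0 := by
      rw [hφ, eq_intCast, Int.cast_natCast, ZMod.natCast_self]
    rw [map_add, map_mul, map_mul, h2, mul_zero, add_zero, mul_comm] at h1
    exact h1
  have hroot : IsUnit (AdjoinRoot.root g) := by
    have h1 : AdjoinRoot.mk g g = 0 := AdjoinRoot.mk_self
    have h2 : g = C (g.coeff 0) + X * g.divX := by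
      conv_lhs => rw [← divX_mul_X_add g]
      ring
    rw [congrArg (AdjoinRoot.mk g) h2, map_add, map_mul, AdjoinRoot.mk_X] at h1
    have h3 : IsUnit (AdjoinRoot.mk g (C (g.coeff 0))) := (hu0.map C).map _
    have h4 : AdjoinRoot.root g * AdjoinRoot.mk g (-g.divX) = AdjoinRoot.mk g (C (g.coeff 0)) := by
      rw [map_neg]; linear_combination -h1
    exact isUnit_of_mul_isUnit_left (h4 ▸ h3)
  obtain ⟨w, hw⟩ := hroot
  have hfin : IsOfFinOrder w := isOfFinOrder_of_finite w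
  obtain ⟨M, hM, hMw⟩ := isOfFinOrder_iff_pow_eq_one.1 hfin
  refine ⟨M, hM, ?_⟩
  have h5 : (AdjoinRoot.root g) ^ M = 1 := by rw [← hw, ← Units.val_pow_eq_pow_val, hMw, Units.val_one]
  have h6 : g ∣ X ^ M - 1 := by
    rw [← AdjoinRoot.mk_eq_mk, map_pow, AdjoinRoot.mk_X, h5, map_one]
  obtain ⟨r, hr⟩ := h6
  obtain ⟨Q, hQ⟩ := map_surjective φ (ZMod.ringHom_surjective φ) r
  have h7 : (X ^ M - 1 - χ * Q).map φ = 0 := by
    rw [Polynomial.map_sub, Polynomial.map_sub, Polynomial.map_pow, map_X, Polynomial.map_one,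
      Polynomial.map_mul, hQ, ← hg, hr, sub_self]
  have h8 : C (q : ℤ) ∣ X ^ M - 1 - χ * Q := by
    rw [C_dvd_iff_dvd_coeff]
    intro i
    have h9 := congrArg (fun p : (ZMod q)[X] => p.coeff i) h7
    simp only [coeff_map, coeff_zero] at h9
    have h10 : (((X ^ M - 1 - χ * Q).coeff i : ℤ) : ZMod q) = 0 := h9
    exact (ZMod.intCast_zmod_eq_zero_iff_dvd _ q).1 h10
  obtain ⟨B, hB⟩ := h8
  exact ⟨B, Q, by rw [← hB]; ring⟩

theorem diff_E (M : ℕ) (w : ℕ → ℤ) : fwdDiff M w = (E ^ M - 1) w := by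
  funext n
  rw [LinearMap.sub_apply, Pi.sub_apply, E_pow, Module.End.one_apply]
  rfl

theorem rec_iter {q : ℤ} {χ : ℤ[X]} {M : ℕ} {B Q : ℤ[X]} (h : X ^ M - 1 = C q * B + χ * Q) {u : ℕ → ℤ}
    (hu : aeval E χ u = 0) (k : ℕ) :
    ∃ w : ℕ → ℤ, aeval E χ w = 0 ∧ (fwdDiff M)^[k] u = q ^ k • w := by
  induction k with
  | zero => exact ⟨u, hu, by simp⟩
  | succ k ih =>
    obtain ⟨w, hw, hk⟩ := ih
    refine ⟨aeval E B w, ?_, ?_⟩
    · have h1 : aeval E χ (aeval E B w) = (aeval E (χ * B)) w := by rw [map_mul]; rfl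
      rw [h1, mul_comm, map_mul]
      change aeval E B (aeval E χ w) = 0
      rw [hw, map_zero]
    · rw [Function.iterate_succ_apply', hk, fwdDiff_const_smul, diff_E]
      have h2 : (E ^ M - 1 : Module.End ℤ (ℕ → ℤ)) = aeval E (X ^ M - 1 : ℤ[X]) := by
        rw [map_sub, map_pow, aeval_X, map_one]
      have h3 : aeval E (X ^ M - 1 : ℤ[X]) w = q • aeval E B w := by
        rw [h, map_add, map_mul, mul_comm χ Q, map_mul, aeval_C, LinearMap.add_apply]
        have e1 : (aeval E Q * aeval E χ : Module.End ℤ (ℕ → ℤ)) w = 0 := by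
          change aeval E Q (aeval E χ w) = 0
          rw [hw, map_zero]
        rw [e1, add_zero]
        rfl
      rw [h2, h3, smul_smul, pow_succ]

/-- The sequences `u (n + k) = c 0 u (n) + ... + c (k - 1) u (n + k - 1)` with `c 0` prime to `d`. -/
def CoRec (d : ℕ) (u : ℕ → ℤ) : Prop :=
  ∃ (k : ℕ) (c : ℕ → ℤ), 1 ≤ k ∧ IsCoprime (c 0) (d : ℤ) ∧ ∀ n, u (n + k) = ∑ i ∈ range k, c i * u (n + i)

/-- `q ^ k` divides the `k`-th differences with step `M`. -/
def Sm (q : ℤ) (M : ℕ) (u : ℕ → ℤ) : Prop := ∀ k n : ℕ, q ^ k ∣ (fwdDiff M)^[k] u n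

theorem CoRec.sm {d : ℕ} (hd : 2 ≤ d) {u : ℕ → ℤ} (h : CoRec d u) : ∃ M : ℕ, 1 ≤ M ∧ Sm ((d : ℤ) ^ 2) M u := by
  obtain ⟨k0, c, hd', hc, hrec⟩ := h
  set χ : ℤ[X] := X ^ k0 - ∑ i ∈ range k0, C (c i) * X ^ i with hχ
  have hdeg : (∑ i ∈ range k0, C (c i) * X ^ i : ℤ[X]).degree < k0 := by
    rw [degree_lt_iff_coeff_zero]
    intro m hm
    rw [finsetSum_coeff]
    refine sum_eq_zero fun i hi => ?_
    rw [mem_range] at hi
    rw [coeff_C_mul, coeff_X_pow, if_neg (by omega), mul_zero]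
  have hm : χ.Monic := monic_X_pow_sub hdeg
  have h0 : IsCoprime (χ.coeff 0) (((d ^ 2 : ℕ) : ℕ) : ℤ) := by
    have e : χ.coeff 0 = - c 0 := by
      rw [hχ, coeff_sub, finsetSum_coeff, coeff_X_pow, if_neg (by omega)]
      have : ∑ b ∈ range k0, (C (c b) * X ^ b : ℤ[X]).coeff 0 = c 0 := by
        rw [sum_eq_single_of_mem 0 (mem_range.2 (by omega))]
        · simp
        · intro b _ hb
          rw [coeff_C_mul, coeff_X_pow, if_neg (by omega), mul_zero]
      rw [this, zero_sub]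
    rw [e]
    push_cast
    exact (hc.pow_right).neg_left
  obtain ⟨M, hM, B, Q, hBQ⟩ := finite_order (q := d ^ 2) (by nlinarith) hm h0
  have hu : aeval E χ u = 0 := by
    rw [hχ, map_sub, map_pow, aeval_X, map_sum]
    funext n
    rw [LinearMap.sub_apply, Pi.sub_apply, E_pow, LinearMap.sum_apply, Finset.sum_apply, hrec n, Pi.zero_apply,
      sub_eq_zero]
    refine sum_congr rfl fun i _ => ?_
    rw [map_mul, map_pow, aeval_X, aeval_C]
    change c i * u (n + i) = (algebraMap ℤ (Module.End ℤ (ℕ → ℤ)) (c i)) ((E ^ i) u) n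
    rw [Module.algebraMap_end_apply, Pi.smul_apply, E_pow, smul_eq_mul]
  refine ⟨M, hM, fun k n => ?_⟩
  obtain ⟨w, -, hw⟩ := rec_iter hBQ hu k
  rw [hw]
  push_cast
  exact ⟨w n, by simp⟩

theorem Sm.an {q : ℤ} {M : ℕ} {u : ℕ → ℤ} (h : Sm q M u) (r : ℕ) : ∃ b : ℕ → ℤ, An q b (fun m => u (r + M * m)) := by
  choose w hw using h
  refine ⟨fun k => w k r, fun m => ?_⟩
  have h1 := shift_eq_sum_fwdDiff_iter M u m r
  have e : r + m • M = r + M * m := by rw [smul_eq_mul, Nat.mul_comm]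
  rw [e] at h1
  simp only
  rw [h1]
  refine sum_congr rfl fun k _ => ?_
  rw [hw k r]
  simp

theorem fwdDiff_mul (M : ℕ) (f g : ℕ → ℤ) :
    fwdDiff M (f * g) = fwdDiff M f * g + (f * fwdDiff M g + fwdDiff M f * fwdDiff M g) := by
  funext n
  simp only [fwdDiff, Pi.mul_apply, Pi.add_apply]
  ring

theorem mul_aux {q : ℤ} {M : ℕ} {u v : ℕ → ℤ} (hu : Sm q M u) (hv : Sm q M v) : ∀ k i j n : ℕ,
    q ^ (i + j + k) ∣ (fwdDiff M)^[k] ((fwdDiff M)^[i] u * (fwdDiff M)^[j] v) n := by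
  intro k
  induction k with
  | zero =>
    intro i j n
    rw [Nat.add_zero, pow_add, Function.iterate_zero, id_eq, Pi.mul_apply]
    exact mul_dvd_mul (hu i n) (hv j n)
  | succ k ih =>
    intro i j n
    rw [Function.iterate_succ_apply, fwdDiff_mul, fwdDiff_iter_add, fwdDiff_iter_add]
    have h1 := ih (i + 1) j n
    have h2 := ih i (j + 1) n
    have h3 := ih (i + 1) (j + 1) n
    rw [Function.iterate_succ_apply'] at h1
    rw [Function.iterate_succ_apply'] at h2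
    rw [Function.iterate_succ_apply', Function.iterate_succ_apply'] at h3
    simp only [Pi.add_apply]
    refine dvd_add ?_ (dvd_add ?_ ?_)
    · have e : i + j + (k + 1) = i + 1 + j + k := by omega
      rw [e]; exact h1
    · have e : i + j + (k + 1) = i + (j + 1) + k := by omega
      rw [e]; exact h2
    · exact (pow_dvd_pow q (by omega)).trans h3

theorem Sm.mul {q : ℤ} {M : ℕ} {u v : ℕ → ℤ} (hu : Sm q M u) (hv : Sm q M v) : Sm q M (u * v) := by
  intro k n
  have h := mul_aux hu hv k 0 0 n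
  simpa using h

theorem Sm.add {q : ℤ} {M : ℕ} {u v : ℕ → ℤ} (hu : Sm q M u) (hv : Sm q M v) : Sm q M (u + v) := by
  intro k n
  rw [fwdDiff_iter_add, Pi.add_apply]
  exact dvd_add (hu k n) (hv k n)

theorem fwdDiff_mult (M : ℕ) (f : ℕ → ℤ) : ∀ (l n : ℕ),
    fwdDiff (M * l) f n = ∑ i ∈ range l, fwdDiff M f (n + M * i) := by
  intro l
  induction l with
  | zero => intro n; simp [fwdDiff]
  | succ l ih =>
    intro n
    rw [sum_range_succ, ← ih n]
    simp only [fwdDiff]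
    have e : n + M * (l + 1) = n + M * l + M := by ring
    rw [e]; ring

/-- Multiples of the step. -/
theorem Sm.mult {q : ℤ} {M : ℕ} {u : ℕ → ℤ} (hu : Sm q M u) (l : ℕ) : Sm q (M * l) u := by
  have key : ∀ k i n : ℕ, q ^ (i + k) ∣ (fwdDiff (M * l))^[k] ((fwdDiff M)^[i] u) n := by
    intro k
    induction k with
    | zero => intro i n; exact hu i n
    | succ k ih =>
      intro i n
      rw [Function.iterate_succ_apply]
      have e : fwdDiff (M * l) ((fwdDiff M)^[i] u) =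
          ∑ s ∈ range l, fun n => (fwdDiff M)^[i + 1] u (n + M * s) := by
        funext n
        rw [fwdDiff_mult, Finset.sum_apply]
        refine sum_congr rfl fun s _ => ?_
        rw [Function.iterate_succ_apply']
      rw [e, fwdDiff_iter_finsetSum, Finset.sum_apply]
      refine dvd_sum fun s _ => ?_
      have h1 := ih (i + 1) (n + M * s)
      rw [fwdDiff_iter_comp_add]
      have e2 : i + (k + 1) = i + 1 + k := by omega
      rw [e2]; exact h1
  intro k n
  have h := key k 0 n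
  simpa using h

/-- The same, written out. -/
def Smooth (d : ℕ) (u : ℕ → ℤ) : Prop :=
  ∃ M : ℕ, 1 ≤ M ∧ ∀ k n : ℕ,
    (d : ℤ) ^ (2 * k) ∣ ∑ j ∈ range (k + 1), (-1) ^ (k - j) * (k.choose j : ℤ) * u (n + j * M)

theorem smooth_iff (d : ℕ) (u : ℕ → ℤ) : Smooth d u ↔ ∃ M : ℕ, 1 ≤ M ∧ Sm ((d : ℤ) ^ 2) M u := by
  unfold Smooth
  refine exists_congr fun M => and_congr_right fun _ => ?_
  unfold Sm
  refine forall_congr' fun k => forall_congr' fun n => ?_
  rw [fwdDiff_iter_eq_sum_shift, pow_mul]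
  simp only [smul_eq_mul]

theorem CoRec.smooth {d : ℕ} (hd : 2 ≤ d) {u : ℕ → ℤ} (h : CoRec d u) : Smooth d u := by
  rw [smooth_iff]
  exact h.sm hd

theorem Smooth.mul {d : ℕ} {u v : ℕ → ℤ} (hu : Smooth d u) (hv : Smooth d v) : Smooth d (fun n => u n * v n) := by
  rw [smooth_iff] at *
  obtain ⟨M, hM, h1⟩ := hu
  obtain ⟨M', hM', h2⟩ := hv
  exact ⟨M * M', Nat.mul_pos hM hM', (h1.mult M').mul (Nat.mul_comm M' M ▸ h2.mult M)⟩

theorem Smooth.add {d : ℕ} {u v : ℕ → ℤ} (hu : Smooth d u) (hv : Smooth d v) : Smooth d (fun n => u n + v n) := by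
  rw [smooth_iff] at *
  obtain ⟨M, hM, h1⟩ := hu
  obtain ⟨M', hM', h2⟩ := hv
  exact ⟨M * M', Nat.mul_pos hM hM', (h1.mult M').add (Nat.mul_comm M' M ▸ h2.mult M)⟩

/-- integer polynomials -/
theorem poly_step (q : ℕ) (f : ℤ[X]) : ∃ g : ℤ[X], ∀ n : ℕ, f.eval ((n : ℤ) + q) - f.eval (n : ℤ) = q * g.eval (n : ℤ) := by
  have h1 : C (q : ℤ) ∣ f.comp (X + C (q : ℤ)) - f := by
    have h3 : (X + C (q : ℤ) : ℤ[X]) - X ∣ (f.map C).eval (X + C (q : ℤ)) - (f.map C).eval X :=
      (f.map C).sub_dvd_eval_sub _ _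
    rw [eval_map, eval_map] at h3
    have e1 : eval₂ C (X + C (q : ℤ)) f = f.comp (X + C (q : ℤ)) := rfl
    have e2 : eval₂ C X f = f := eval₂_C_X
    rw [e1, e2, add_sub_cancel_left] at h3
    exact h3
  obtain ⟨g, hg⟩ := h1
  refine ⟨g, fun n => ?_⟩
  have h2 := congrArg (fun p : ℤ[X] => p.eval (n : ℤ)) hg
  simp only [eval_sub, eval_comp, eval_add, eval_X, eval_C, eval_mul] at h2
  exact h2

theorem poly_sm (q : ℕ) (f : ℤ[X]) : Sm q q (fun n => f.eval (n : ℤ)) := by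
  have key : ∀ (k : ℕ) (f : ℤ[X]), ∃ g : ℤ[X], ∀ n : ℕ,
      (fwdDiff q)^[k] (fun n : ℕ => f.eval (n : ℤ)) n = (q : ℤ) ^ k * g.eval (n : ℤ) := by
    intro k
    induction k with
    | zero => intro f; exact ⟨f, fun n => by simp⟩
    | succ k ih =>
      intro f
      obtain ⟨g, hg⟩ := poly_step q f
      obtain ⟨g', hg'⟩ := ih g
      refine ⟨g', fun n => ?_⟩
      rw [Function.iterate_succ_apply]
      have e : fwdDiff q (fun n : ℕ => f.eval (n : ℤ)) = (q : ℤ) • fun n : ℕ => g.eval (n : ℤ) := by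
        funext n
        simp only [fwdDiff, Pi.smul_apply, smul_eq_mul]
        rw [← hg n]; push_cast; ring
      rw [e, fwdDiff_iter_const_smul, Pi.smul_apply, hg', smul_eq_mul]
      ring
  intro k n
  obtain ⟨g, hg⟩ := key k f
  rw [hg n]
  exact dvd_mul_right _ _

/-- Newton series with factorials. -/
theorem newton_smooth {d : ℕ} (hd : 1 ≤ d) (c : ℕ → ℤ) :
    Smooth d (fun n => ∑ j ∈ range (n + 1), c j * (n.descFactorial j : ℤ)) := by
  rw [smooth_iff]
  set q := d ^ 2 with hq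
  have hqz : ((d : ℤ) ^ 2) = (q : ℤ) := by rw [hq]; push_cast; rfl
  rw [hqz]
  refine ⟨q, Nat.one_le_pow _ _ hd, fun k n => ?_⟩
  rw [fwdDiff_iter_eq_sum_shift]
  -- the terms up to `n + q k`
  set L := n + q * k + 1 with hL
  have h1 : ∀ m : ℕ, m < L → ∑ j ∈ range (m + 1), c j * (m.descFactorial j : ℤ) =
      ∑ j ∈ range L, c j * (descPochhammer ℤ j).eval (m : ℤ) := by
    intro m hm
    have e : ∑ j ∈ range (m + 1), c j * (m.descFactorial j : ℤ) = ∑ j ∈ range L, c j * (m.descFactorial j : ℤ) := by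
      apply sum_subset (range_mono (by omega))
      intro j _ hj
      rw [mem_range, not_lt] at hj
      rw [Nat.descFactorial_eq_zero_iff_lt.2 (by omega)]; simp
    rw [e]
    refine sum_congr rfl fun j _ => ?_
    rw [descPochhammer_eval_eq_descFactorial]
  have h2 : ∑ i ∈ range (k + 1), ((-1 : ℤ) ^ (k - i) * (k.choose i : ℤ)) •
      (∑ j ∈ range (n + i • q + 1), c j * ((n + i • q).descFactorial j : ℤ)) =
      ∑ i ∈ range (k + 1), ((-1 : ℤ) ^ (k - i) * (k.choose i : ℤ)) •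
      (fun m : ℕ => (∑ j ∈ range L, C (c j) * descPochhammer ℤ j : ℤ[X]).eval (m : ℤ)) (n + i • q) := by
    refine sum_congr rfl fun i hi => ?_
    rw [mem_range] at hi
    rw [h1 _ (by
      rw [smul_eq_mul, hL]
      have : i * q ≤ k * q := Nat.mul_le_mul_right q (by omega)
      rw [Nat.mul_comm k q] at this
      omega)]
    simp only [eval_finsetSum, eval_mul, eval_C]
  have h3 := poly_sm q (∑ j ∈ range L, C (c j) * descPochhammer ℤ j) k n
  rw [fwdDiff_iter_eq_sum_shift] at h3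
  rw [h2]
  exact h3

/-- The sequence is constant on no arithmetic progression. -/
def NoConst (u : ℕ → ℤ) : Prop := ∀ a q : ℕ, 1 ≤ q → ∃ m, u (a + q * m) ≠ u a

end Pool.Agent.U491.LR
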