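import Pool.Agent.U491.LR.F
import Pool.Agent.Y927.GP.E

/-! The trajectories of the terms of spread families under a generalised Collatz map. -/

set_option autoImplicit false

namespace Pool.Agent.U491.LR

open Finset Polynomial Pool.Agent.H319R2.M Pool.Agent.Y927.GP

theorem small_N {c : ℝ} (hc : 0 < c) {Y0 : ℝ} (δ : ℝ) (hδ : 0 < δ) :
    ∃ K : ℝ, 0 < K ∧ ∀ N : ℕ, 1 ≤ N → (N : ℝ) ^ c ≤ Y0 → (N : ℝ) ≤ K * (N : ℝ) ^ (1 - δ) := by
  refine ⟨(max Y0 1) ^ (δ / c), by positivity, fun N hN h => ?_⟩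
  have hNp : (0 : ℝ) < N := by exact_mod_cast hN
  have h1 : (N : ℝ) ^ δ ≤ (max Y0 1) ^ (δ / c) := by
    calc (N : ℝ) ^ δ = ((N : ℝ) ^ c) ^ (δ / c) := by
          rw [← Real.rpow_mul hNp.le]; congr 1; field_simp
      _ ≤ (max Y0 1) ^ (δ / c) :=
          Real.rpow_le_rpow (by positivity) (h.trans (le_max_left _ _)) (by positivity)
  calc (N : ℝ) = (N : ℝ) ^ δ * (N : ℝ) ^ (1 - δ) := by
        rw [← Real.rpow_add hNp]
        have : δ + (1 - δ) = 1 := by ring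
        rw [this, Real.rpow_one]
    _ ≤ _ := mul_le_mul_of_nonneg_right h1 (by positivity)

/-- conversion of the exponential factor -/
theorem conv_exp {d : ℕ} (hd : 2 ≤ d) {c δ : ℝ} (hδ : 0 < δ) {N T : ℕ} (hN : 1 ≤ N)
    (h : (N : ℝ) ^ c < (d : ℝ) ^ (T + 1)) :
    Real.exp (-(δ * T)) * N ≤ Real.exp δ * (N : ℝ) ^ (1 - c * δ / Real.log d) := by
  have hd1 : (1 : ℝ) < d := by exact_mod_cast (show 1 < d by omega)
  have hL : 0 < Real.log d := Real.log_pos hd1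
  have hNp : (0 : ℝ) < N := by exact_mod_cast hN
  have h1 : c * Real.log N < (T + 1) * Real.log d := by
    have := Real.log_lt_log (by positivity) h
    rw [Real.log_rpow hNp, Real.log_pow] at this
    push_cast at this
    exact this
  have h2 : (N : ℝ) ^ (1 - c * δ / Real.log d) = Real.exp (-(c * δ / Real.log d * Real.log N)) * N := by
    rw [Real.rpow_def_of_pos hNp]
    have e : Real.log N * (1 - c * δ / Real.log d) = -(c * δ / Real.log d * Real.log N) + Real.log N := by ring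
    rw [e, Real.exp_add, Real.exp_log hNp]
  rw [h2, ← mul_assoc, ← Real.exp_add]
  apply mul_le_mul_of_nonneg_right _ hNp.le
  apply Real.exp_le_exp.2
  have h3 : c * δ / Real.log d * Real.log N ≤ δ * (T + 1) := by
    rw [div_mul_eq_mul_div, div_le_iff₀ hL]
    have := mul_le_mul_of_nonneg_left h1.le hδ.le
    linarith
  linarith

section

variable {ι : Type}

/-- Few terms are small. -/
theorem few_small {d : ℕ} (hd : 2 ≤ d) {c : ℝ} (hc : 0 < c) {x : ι → ℕ → ℤ} (hx : Spr d c x) :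
    ∃ c' δ K : ℝ, 0 < c' ∧ 0 < δ ∧ 0 < K ∧ ∀ (i : ι) (N : ℕ), 1 ≤ N → ∀ A : Finset ℕ, A ⊆ Icc 1 N →
      (∀ n ∈ A, |(x i n : ℝ)| ≤ (N : ℝ) ^ c') → (A.card : ℝ) ≤ K * (N : ℝ) ^ (1 - δ) := by
  classical
  have hd1 : (1 : ℝ) < d := by exact_mod_cast (show 1 < d by omega)
  have hd0 : (0 : ℝ) < d := by linarith
  have hL : 0 < Real.log d := Real.log_pos hd1
  obtain ⟨δ, K, hδ, hK, h1⟩ := hx (Real.log d / 2) (by positivity)
  set δ' : ℝ := c * δ / Real.log d with hδ'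
  have hδ'0 : 0 < δ' := by positivity
  obtain ⟨K0, hK0, h0⟩ := small_N hc (Y0 := ((3 * (d : ℝ) ^ (1 / 2 : ℝ))) ^ (4 : ℝ)) δ' hδ'0
  refine ⟨c / 4, δ', K0 + K * Real.exp δ, by positivity, hδ'0, by positivity, ?_⟩
  intro i N hN A hAN hA
  have hNp : (0 : ℝ) < N := by exact_mod_cast hN
  have hN1 : (1 : ℝ) ≤ N := by exact_mod_cast hN
  have hAc : (A.card : ℝ) ≤ N := by
    have := card_le_card hAN
    rw [Nat.card_Icc, Nat.add_sub_cancel] at this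
    exact_mod_cast this
  have hP0 : (0 : ℝ) < (N : ℝ) ^ (1 - δ') := by positivity
  rcases le_or_gt ((N : ℝ) ^ c) (((3 * (d : ℝ) ^ (1 / 2 : ℝ))) ^ (4 : ℝ)) with hs | hb
  · refine hAc.trans ((h0 N hN hs).trans ?_)
    apply mul_le_mul_of_nonneg_right _ hP0.le
    have : 0 < K * Real.exp δ := by positivity
    linarith
  have hY1 : (1 : ℝ) ≤ (N : ℝ) ^ c := Real.one_le_rpow hN1 hc.le
  obtain ⟨T, hT1, hT2, -⟩ := scale d hd ((N : ℝ) ^ c) hY1
  set Z : ℝ := (N : ℝ) ^ (c / 4) with hZ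
  have hZ1 : 1 ≤ Z := Real.one_le_rpow hN1 (by positivity)
  set P : ℤ → Prop := fun z => ∃ a : ℤ, |(a : ℝ)| ≤ Z ∧ z ≡ a [ZMOD (d : ℤ) ^ T] with hP
  have hper : ∀ z m : ℤ, P (z + m * (d : ℤ) ^ T) ↔ P z := by
    intro z m
    have e1 : z + m * (d : ℤ) ^ T ≡ z [ZMOD (d : ℤ) ^ T] := Int.modEq_iff_dvd.2 ⟨-m, by ring⟩
    constructor
    · rintro ⟨a, ha, h⟩; exact ⟨a, ha, e1.symm.trans h⟩
    · rintro ⟨a, ha, h⟩; exact ⟨a, ha, e1.trans h⟩
  have hcl : (#{a ∈ range (d ^ T) | P ((a : ℕ) : ℤ)} : ℝ) ≤ Real.exp (-(Real.log d / 2 * T)) * (d : ℝ) ^ T := by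
    have hsub : ({a ∈ range (d ^ T) | P ((a : ℕ) : ℤ)} : Finset ℕ) ⊆
        (Icc (-⌊Z⌋) ⌊Z⌋).image (fun a : ℤ => (a % (d : ℤ) ^ T).toNat) := by
      intro z hz
      rw [mem_filter, mem_range] at hz
      obtain ⟨hz1, a, ha, hza⟩ := hz
      rw [mem_image]
      refine ⟨a, ?_, ?_⟩
      · rw [mem_Icc]
        rw [abs_le] at ha
        constructor
        · have : ((-a : ℤ) : ℝ) ≤ Z := by push_cast; linarith
          have := Int.le_floor.2 this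
          omega
        · exact Int.le_floor.2 ha.2
      · have h2 : ((z : ℕ) : ℤ) % (d : ℤ) ^ T = a % (d : ℤ) ^ T := hza
        rw [← h2, Int.emod_eq_of_lt (by positivity) (by exact_mod_cast hz1)]
        simp
    have h2 := (card_le_card hsub).trans card_image_le
    rw [Int.card_Icc] at h2
    have h3 : (#({a ∈ range (d ^ T) | P ((a : ℕ) : ℤ)} : Finset ℕ) : ℝ) ≤ 3 * Z := by
      have h4 : (0 : ℤ) ≤ ⌊Z⌋ := Int.floor_nonneg.2 (by linarith)
      have h5 : ((⌊Z⌋ + 1 - -⌊Z⌋).toNat : ℤ) = 2 * ⌊Z⌋ + 1 := by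
        rw [Int.toNat_of_nonneg (by omega)]; ring
      have h6 : (#({a ∈ range (d ^ T) | P ((a : ℕ) : ℤ)} : Finset ℕ) : ℤ) ≤ 2 * ⌊Z⌋ + 1 := by
        rw [← h5]; exact_mod_cast h2
      have h7 : (#({a ∈ range (d ^ T) | P ((a : ℕ) : ℤ)} : Finset ℕ) : ℝ) ≤ 2 * (⌊Z⌋ : ℝ) + 1 := by
        exact_mod_cast h6
      have h8 := Int.floor_le Z
      linarith
    refine h3.trans ?_
    -- `3 Z ≤ d ^ (T / 2)`
    have e1 : Real.exp (-(Real.log d / 2 * T)) * (d : ℝ) ^ T = ((d : ℝ) ^ T) ^ (1 / 2 : ℝ) := by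
      have h4 : (d : ℝ) ^ T = Real.exp (T * Real.log d) := by rw [Real.exp_nat_mul, Real.exp_log hd0]
      rw [h4, ← Real.exp_mul, ← Real.exp_add]
      congr 1; ring
    rw [e1]
    have h5 : ((N : ℝ) ^ c) ^ (1 / 2 : ℝ) ≤ ((d : ℝ) ^ T) ^ (1 / 2 : ℝ) * (d : ℝ) ^ (1 / 2 : ℝ) := by
      rw [← Real.mul_rpow (by positivity) hd0.le]
      apply Real.rpow_le_rpow (by positivity) _ (by norm_num)
      rw [pow_succ] at hT2
      exact hT2.le
    have h6 : ((N : ℝ) ^ c) ^ (1 / 2 : ℝ) = Z * Z := by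
      rw [hZ, ← Real.rpow_add hNp, ← Real.rpow_mul hNp.le]
      congr 1; ring
    have h7 : 3 * (d : ℝ) ^ (1 / 2 : ℝ) ≤ Z := by
      have h8 : ((3 * (d : ℝ) ^ (1 / 2 : ℝ)) ^ (4 : ℝ)) ^ (1 / 4 : ℝ) ≤ ((N : ℝ) ^ c) ^ (1 / 4 : ℝ) :=
        Real.rpow_le_rpow (by positivity) hb.le (by norm_num)
      rw [← Real.rpow_mul (by positivity), ← Real.rpow_mul hNp.le] at h8
      have e2 : (4 : ℝ) * (1 / 4) = 1 := by norm_num
      rw [e2, Real.rpow_one] at h8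
      have e3 : c * (1 / 4) = c / 4 := by ring
      rw [e3] at h8
      exact h8
    rw [h6] at h5
    have hdh : (0 : ℝ) < (d : ℝ) ^ (1 / 2 : ℝ) := by positivity
    have h8 : 3 * (d : ℝ) ^ (1 / 2 : ℝ) * Z ≤ ((d : ℝ) ^ T) ^ (1 / 2 : ℝ) * (d : ℝ) ^ (1 / 2 : ℝ) := by
      have := mul_le_mul_of_nonneg_right h7 (show (0 : ℝ) ≤ Z by linarith)
      linarith
    have h9 : (3 * Z) * (d : ℝ) ^ (1 / 2 : ℝ) ≤ ((d : ℝ) ^ T) ^ (1 / 2 : ℝ) * (d : ℝ) ^ (1 / 2 : ℝ) := by linarith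
    exact le_of_mul_le_mul_right h9 hdh
  have h2 := h1 i N T hN hT1 P hper (by convert hcl)
  have h3 : A ⊆ ({n ∈ Icc 1 N | P (x i n)} : Finset ℕ) := by
    intro n hn
    rw [mem_filter]
    exact ⟨hAN hn, x i n, hA n hn, Int.ModEq.refl _⟩
  have h4 : (A.card : ℝ) ≤ #({n ∈ Icc 1 N | P (x i n)} : Finset ℕ) := by exact_mod_cast card_le_card h3
  have h5 := conv_exp hd hδ hN hT2
  calc (A.card : ℝ) ≤ #({n ∈ Icc 1 N | P (x i n)} : Finset ℕ) := h4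
    _ ≤ K * Real.exp (-(δ * T)) * N := by convert h2
    _ = K * (Real.exp (-(δ * T)) * N) := by ring
    _ ≤ K * (Real.exp δ * (N : ℝ) ^ (1 - c * δ / Real.log d)) := mul_le_mul_of_nonneg_left h5 hK.le
    _ = K * Real.exp δ * (N : ℝ) ^ (1 - δ') := by rw [hδ']; ring
    _ ≤ (K0 + K * Real.exp δ) * (N : ℝ) ^ (1 - δ') := by
        apply mul_le_mul_of_nonneg_right _ hP0.le
        linarith

/-- The law for spread families: the terms that are not too small. -/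
theorem law {g : GM} {b' : ℤ → ℤ} {e : ℤ → ℕ} {C : Finset (ℤ × ℕ)} {ρ : ℤ × ℕ → ℝ} (hf : g.Fac b' e)
    (hC : g.Cls e C ρ) {c : ℝ} (hc : 0 < c) {x : ι → ℕ → ℤ} (hx : Spr g.d c x) {κ : ℝ} (hκ0 : 0 ≤ κ)
    (hκ : -mu g C ρ ≤ κ * Real.log g.d) {ε : ℝ} (hε : 0 < ε) :
    ∃ δ K : ℝ, 0 < δ ∧ 0 < K ∧ ∀ (i : ι) (N : ℕ), 1 ≤ N → ∀ A : Finset ℕ, A ⊆ Icc 1 N →
      (∀ n ∈ A, x i n ∈ g.SC C ∧ ((N : ℝ) ^ c) ^ (κ + ε) ≤ |(x i n : ℝ)| ∧
        ¬ Typ g (mu g C ρ) ε ((N : ℝ) ^ c) (x i n)) → (A.card : ℝ) ≤ K * (N : ℝ) ^ (1 - δ) := by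
  classical
  set μ := mu g C ρ with hμ
  have hd2 := g.two_le
  have hd1 : (1 : ℝ) < g.d := by have := g.dr; linarith
  have hd0 : (0 : ℝ) < g.d := by linarith
  have hL : 0 < Real.log g.d := Real.log_pos hd1
  set D : ℝ := κ + ε with hD
  have hDκ : D - κ = ε := by rw [hD]; ring
  set ε1 : ℝ := ε / 4 with hε1
  have hε10 : 0 < ε1 := by positivity
  obtain ⟨c₁, K2, hc1, hK2, hclass⟩ := card_classes hf hC (η := ε1 / 4 * Real.log g.d) (by positivity)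
  obtain ⟨δ, K, hδ, hK, h1⟩ := hx (c₁ / 2) (by positivity)
  set δ' : ℝ := c * δ / Real.log g.d with hδ'
  have hδ'0 : 0 < δ' := by positivity
  -- a threshold for `T`
  obtain ⟨T0, hT0⟩ : ∃ T0 : ℕ, ∀ T : ℕ, T0 ≤ T → K2 * (T + 1) ≤ Real.exp (c₁ / 2 * T) := by
    have h2 : ∀ T : ℕ, K2 * ((T : ℝ) + 1) ≤ K2 * (1 + 4 / c₁) * Real.exp (c₁ / 4 * T) := by
      intro T
      have h3 := Real.add_one_le_exp (c₁ / 4 * T)
      have h4 : (T : ℝ) + 1 ≤ (1 + 4 / c₁) * (c₁ / 4 * T + 1) := by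
        have e : (1 + 4 / c₁) * (c₁ / 4 * T + 1) = c₁ / 4 * T + 1 + T + 4 / c₁ := by
          field_simp
          ring
        rw [e]
        have : 0 < 4 / c₁ := by positivity
        have : 0 ≤ c₁ / 4 * T := by positivity
        linarith
      calc K2 * ((T : ℝ) + 1) ≤ K2 * ((1 + 4 / c₁) * (c₁ / 4 * T + 1)) := mul_le_mul_of_nonneg_left h4 hK2.le
        _ ≤ K2 * ((1 + 4 / c₁) * Real.exp (c₁ / 4 * T)) := by gcongr
        _ = _ := by ring
    set W : ℝ := K2 * (1 + 4 / c₁) with hW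
    have hW0 : 0 < W := by positivity
    obtain ⟨T0, hT0⟩ := exists_nat_ge (Real.log W / (c₁ / 4))
    refine ⟨T0, fun T hT => (h2 T).trans ?_⟩
    have h3 : Real.log W ≤ c₁ / 4 * T := by
      have h4 : (T0 : ℝ) ≤ T := by exact_mod_cast hT
      have h5 := hT0.trans h4
      rw [div_le_iff₀ (by positivity)] at h5
      linarith
    calc W * Real.exp (c₁ / 4 * T) = Real.exp (Real.log W) * Real.exp (c₁ / 4 * T) := by rw [Real.exp_log hW0]
      _ = Real.exp (Real.log W + c₁ / 4 * T) := (Real.exp_add _ _).symm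
      _ ≤ Real.exp (c₁ / 2 * T) := by
          apply Real.exp_le_exp.2
          linarith
  obtain ⟨Y1, hY11, hlarge⟩ := large g.d hd2 one_pos (show 0 < ε1 / 4 by positivity)
    (show 0 < (D - κ) / 2 by rw [hDκ]; positivity) g.R_nonneg (T0 : ℝ)
  obtain ⟨K0, hK0, h0⟩ := small_N hc (Y0 := Y1) δ' hδ'0
  refine ⟨δ', K0 + K * Real.exp δ, hδ'0, by positivity, ?_⟩
  intro i N hN A hAN hA
  have hNp : (0 : ℝ) < N := by exact_mod_cast hN
  have hN1 : (1 : ℝ) ≤ N := by exact_mod_cast hN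
  have hAc : (A.card : ℝ) ≤ N := by
    have := card_le_card hAN
    rw [Nat.card_Icc, Nat.add_sub_cancel] at this
    exact_mod_cast this
  have hP0 : (0 : ℝ) < (N : ℝ) ^ (1 - δ') := by positivity
  set Y : ℝ := (N : ℝ) ^ c with hY
  rcases le_or_gt Y Y1 with hs | hb
  · refine hAc.trans ((h0 N hN hs).trans ?_)
    apply mul_le_mul_of_nonneg_right _ hP0.le
    have : 0 < K * Real.exp δ := by positivity
    linarith
  have hY1 : (1 : ℝ) ≤ Y := Real.one_le_rpow hN1 hc.le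
  obtain ⟨T, hT1, hT2, -⟩ := scale g.d hd2 Y hY1
  obtain ⟨hTT0, hYε, hRT⟩ := hlarge Y hb.le T hT1 hT2
  rw [one_mul] at hTT0
  have hTT : T0 ≤ T := by exact_mod_cast hTT0
  have hdT : (0 : ℝ) < (g.d : ℝ) ^ T := by positivity
  set P : ℤ → Prop := fun z => ∃ y : ℤ, y ∈ g.SC C ∧ Unb g μ (ε1 / 4 * Real.log g.d) T y ∧
    y ≡ z [ZMOD (g.d : ℤ) ^ T] with hP
  have hper : ∀ z m : ℤ, P (z + m * (g.d : ℤ) ^ T) ↔ P z := by
    intro z m
    have e1 : z + m * (g.d : ℤ) ^ T ≡ z [ZMOD (g.d : ℤ) ^ T] := Int.modEq_iff_dvd.2 ⟨-m, by ring⟩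
    constructor
    · rintro ⟨a, ha, hb, h⟩; exact ⟨a, ha, hb, h.trans e1⟩
    · rintro ⟨a, ha, hb, h⟩; exact ⟨a, ha, hb, h.trans e1.symm⟩
  have hcl : (#{a ∈ range (g.d ^ T) | P ((a : ℕ) : ℤ)} : ℝ) ≤ Real.exp (-(c₁ / 2 * T)) * (g.d : ℝ) ^ T := by
    set V : Finset ℤ := ({a ∈ range (g.d ^ T) | P ((a : ℕ) : ℤ)} : Finset ℕ).image (fun a : ℕ => (a : ℤ)) with hV
    have hVc : V.card = #({a ∈ range (g.d ^ T) | P ((a : ℕ) : ℤ)} : Finset ℕ) :=
      card_image_of_injective _ Nat.cast_injective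
    have h2 := hclass T V (by
      intro v hv
      rw [hV, mem_image] at hv
      obtain ⟨a, ha, rfl⟩ := hv
      rw [mem_filter, mem_range] at ha
      obtain ⟨ha1, y, hy1, hy2, hy3⟩ := ha
      refine ⟨y, hy1, hy2, ?_⟩
      have h3 : y % (g.d : ℤ) ^ T = (a : ℤ) % (g.d : ℤ) ^ T := hy3
      rw [h3, Int.emod_eq_of_lt (by positivity) (by exact_mod_cast ha1)])
    rw [hVc] at h2
    refine h2.trans ?_
    calc K2 * ((T + 1) * ((g.d : ℝ) ^ T * Real.exp (-(c₁ * T))))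
        = (K2 * (T + 1)) * Real.exp (-(c₁ * T)) * (g.d : ℝ) ^ T := by ring
      _ ≤ Real.exp (c₁ / 2 * T) * Real.exp (-(c₁ * T)) * (g.d : ℝ) ^ T := by
          apply mul_le_mul_of_nonneg_right _ hdT.le
          exact mul_le_mul_of_nonneg_right (hT0 T hTT) (Real.exp_pos _).le
      _ = Real.exp (-(c₁ / 2 * T)) * (g.d : ℝ) ^ T := by
          rw [← Real.exp_add]; congr 2; ring
  have h2 := h1 i N T hN hT1 P hper (by convert hcl)
  have h3 : A ⊆ ({n ∈ Icc 1 N | P (x i n)} : Finset ℕ) := by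
    intro n hn
    rw [mem_filter]
    obtain ⟨hS, hbign, hT⟩ := hA n hn
    refine ⟨hAN hn, x i n, hS, ?_, Int.ModEq.refl _⟩
    by_contra hU
    refine hT (typ_of g hκ0 hκ hε10 (by rw [hε1]; linarith) (by rw [hDκ]) hY1 hT1 hT2 hYε hRT ?_ hU)
    refine le_trans ?_ hbign
    apply Real.rpow_le_rpow_of_exponent_le hY1
    linarith
  have h4 : (A.card : ℝ) ≤ #({n ∈ Icc 1 N | P (x i n)} : Finset ℕ) := by exact_mod_cast card_le_card h3
  have h5 := conv_exp hd2 hδ hN hT2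
  calc (A.card : ℝ) ≤ #({n ∈ Icc 1 N | P (x i n)} : Finset ℕ) := h4
    _ ≤ K * Real.exp (-(δ * T)) * N := by convert h2
    _ = K * (Real.exp (-(δ * T)) * N) := by ring
    _ ≤ K * (Real.exp δ * (N : ℝ) ^ (1 - c * δ / Real.log g.d)) := mul_le_mul_of_nonneg_left h5 hK.le
    _ = K * Real.exp δ * (N : ℝ) ^ (1 - δ') := by rw [hδ']; ring
    _ ≤ (K0 + K * Real.exp δ) * (N : ℝ) ^ (1 - δ') := by
        apply mul_le_mul_of_nonneg_right _ hP0.le
        linarith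

/-- The law for spread families, for all terms and a shorter time. -/
theorem law_all {g : GM} {b' : ℤ → ℤ} {e : ℤ → ℕ} {C : Finset (ℤ × ℕ)} {ρ : ℤ × ℕ → ℝ} (hf : g.Fac b' e)
    (hC : g.Cls e C ρ) {c : ℝ} (hc : 0 < c) {x : ι → ℕ → ℤ} (hx : Spr g.d c x) :
    ∃ c' : ℝ, 0 < c' ∧ ∀ ε : ℝ, 0 < ε → 
    ∃ δ K : ℝ, 0 < δ ∧ 0 < K ∧ ∀ (i : ι) (N : ℕ), 1 ≤ N → ∀ A : Finset ℕ, A ⊆ Icc 1 N →
      (∀ n ∈ A, x i n ∈ g.SC C ∧ ¬ Typ g (mu g C ρ) ε ((N : ℝ) ^ c') (x i n)) →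
      (A.card : ℝ) ≤ K * (N : ℝ) ^ (1 - δ) := by
  classical
  have hd1 : (1 : ℝ) < g.d := by have := g.dr; linarith
  have hL : 0 < Real.log g.d := Real.log_pos hd1
  set μ := mu g C ρ with hμ
  set κ : ℝ := max 0 (-μ / Real.log g.d) with hκdef
  have hκ0 : 0 ≤ κ := le_max_left _ _
  have hκ : -μ ≤ κ * Real.log g.d := by
    have h1 : -μ / Real.log g.d ≤ κ := le_max_right _ _
    rwa [div_le_iff₀ hL] at h1
  obtain ⟨c1, δ1, K1, hc1, hδ1, hK1, h1⟩ := few_small g.two_le hc hx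
  set c' : ℝ := min c (c1 / (κ + 1)) with hc'
  have hc'0 : 0 < c' := lt_min hc (by positivity)
  have hc'2 : c' * (κ + 1) ≤ c1 := by
    have : c' ≤ c1 / (κ + 1) := min_le_right _ _
    rwa [le_div_iff₀ (by positivity)] at this
  refine ⟨c', hc'0, fun ε hε => ?_⟩
  -- one may suppose that `ε ≤ 1`
  set ε' : ℝ := min ε 1 with hε'
  have hε'0 : 0 < ε' := lt_min hε one_pos
  obtain ⟨δ2, K2, hδ2, hK2, h2⟩ := law hf hC hc'0 (hx.mono (min_le_left _ _)) hκ0 hκ hε'0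
  set δ := min δ1 δ2 with hδ
  refine ⟨δ, K1 + K2, lt_min hδ1 hδ2, by positivity, ?_⟩
  intro i N hN A hAN hA
  have hN1 : (1 : ℝ) ≤ N := by exact_mod_cast hN
  have hNp : (0 : ℝ) < N := by linarith
  set A1 := A.filter (fun n => |(x i n : ℝ)| ≤ (N : ℝ) ^ c1) with hA1
  set A2 := A.filter (fun n => ¬ |(x i n : ℝ)| ≤ (N : ℝ) ^ c1) with hA2
  have h3 : (A1.card : ℝ) ≤ K1 * (N : ℝ) ^ (1 - δ1) :=
    h1 i N hN A1 ((filter_subset _ _).trans hAN) fun n hn => (mem_filter.1 hn).2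
  have hY1 : (1 : ℝ) ≤ (N : ℝ) ^ c' := Real.one_le_rpow hN1 hc'0.le
  have h4 : (A2.card : ℝ) ≤ K2 * (N : ℝ) ^ (1 - δ2) := by
    apply h2 i N hN A2 ((filter_subset _ _).trans hAN)
    intro n hn
    rw [hA2, mem_filter] at hn
    obtain ⟨hnA, hbig⟩ := hn
    push Not at hbig
    obtain ⟨g1, g2⟩ := hA n hnA
    refine ⟨g1, ?_, ?_⟩
    · refine le_trans ?_ hbig.le
      rw [← Real.rpow_mul hNp.le]
      apply Real.rpow_le_rpow_of_exponent_le hN1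
      have : ε' ≤ 1 := min_le_right _ _
      have := mul_le_mul_of_nonneg_left this hc'0.le
      linarith
    · intro htyp
      apply g2
      intro j hj
      obtain ⟨t1, t2⟩ := htyp j hj
      have hεε : ε' ≤ ε := min_le_left _ _
      constructor
      · refine le_trans ?_ t1
        apply mul_le_mul_of_nonneg_right _ (abs_nonneg _)
        apply mul_le_mul_of_nonneg_right _ (Real.exp_pos _).le
        exact Real.rpow_le_rpow_of_exponent_le hY1 (by linarith)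
      · refine t2.trans ?_
        apply mul_le_mul_of_nonneg_right _ (abs_nonneg _)
        apply mul_le_mul_of_nonneg_right _ (Real.exp_pos _).le
        exact Real.rpow_le_rpow_of_exponent_le hY1 hεε
  have h5 : A1.card + A2.card = A.card := Finset.card_filter_add_card_filter_not _
  have h6 : (A.card : ℝ) = A1.card + A2.card := by rw [← h5]; push_cast; rfl
  rw [h6, add_mul]
  apply add_le_add
  · refine h3.trans (mul_le_mul_of_nonneg_left ?_ hK1.le)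
    apply Real.rpow_le_rpow_of_exponent_le hN1
    have : δ ≤ δ1 := min_le_left _ _
    linarith
  · refine h4.trans (mul_le_mul_of_nonneg_left ?_ hK2.le)
    apply Real.rpow_le_rpow_of_exponent_le hN1
    have : δ ≤ δ2 := min_le_right _ _
    linarith

end

end Pool.Agent.U491.LR
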