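import Pool.Agent.U491.LR.M
import Pool.Agent.Y927.GP.M2

/-! Möller's maps and the terms of spread families. -/

set_option autoImplicit false

namespace Pool.Agent.U491.LR.Mo

open Finset Polynomial Pool.Agent.H319R2 Pool.Agent.Y927.GP Pool.Agent.Y927.GP.Mo Filter

variable {d m : ℕ} {r : ℤ → ℤ} {ι : Type}

/-- A typical orbit descends. -/
theorem desc (hd : 2 ≤ d) (hm : 2 ≤ m) (hc : Nat.Coprime m d)
    (hle : (m : ℝ) ≤ (d : ℝ) ^ ((d : ℝ) / ((d : ℝ) - 1)))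
    (hr : ∀ j : ℤ, 1 ≤ j → j < d → (d : ℤ) ∣ m * j - r j)
    (D : Leigh.Data d (mm m) (rr r) (mm m) (fun _ => 1)) {ε : ℝ} (hε : 0 < ε) :
    ∃ Y0 : ℝ, 1 ≤ Y0 ∧ ∀ Y, Y0 ≤ Y → ∀ y : ℤ, 0 < y → ¬ (d : ℤ) ∣ y → Y ^ kap d m ≤ (y : ℝ) →
      Typ (Leigh.gm D) (mu (Leigh.gm D) (CC d) (fun _ => 1 / (d : ℝ))) ε Y y →
      ∃ k : ℕ, Def d m r y k ∧ 0 < (H d m r)^[k] y ∧
        (((H d m r)^[k] y : ℤ) : ℝ) ≤ Y ^ (2 * ε - kap d m) * y := by
  obtain ⟨hκ0, hκ1⟩ := kap_bounds hd hm hc hle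
  have hmu := mu_kap hd D
  set κ := kap d m with hκ
  have hd1 : (1 : ℝ) < d := by exact_mod_cast (show 1 < d by omega)
  have hd0 : (0 : ℝ) < d := by linarith
  have h1 : ∀ᶠ Y : ℝ in atTop, (d : ℝ) ^ κ ≤ Y ^ ε := (tendsto_rpow_atTop hε).eventually_ge_atTop _
  have h2 : ∀ᶠ Y : ℝ in atTop, (bd d r : ℝ) ≤ Y ^ (2 * ε) :=
    (tendsto_rpow_atTop (show 0 < 2 * ε by positivity)).eventually_ge_atTop _
  obtain ⟨Y0, hY0⟩ := eventually_atTop.1 (h1.and h2)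
  refine ⟨max 1 Y0, le_max_left _ _, fun Y hY y hy0 hyd hyY htyp => ?_⟩
  obtain ⟨g1, g2⟩ := hY0 Y ((le_max_right _ _).trans hY)
  have hY1 : 1 ≤ Y := (le_max_left _ _).trans hY
  have hYp : 0 < Y := by linarith
  have hyr : (0 : ℝ) < (y : ℝ) := by exact_mod_cast hy0
  obtain ⟨N, hN1, hN2, -⟩ := scale d hd Y hY1
  have h3 := (htyp N hN1).2
  rw [abs_of_pos hyr] at h3
  have hTT : (Leigh.gm D).T = T d m r := by rw [Leigh.gm_T, T_eq]
  rw [hTT] at h3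
  have h4 : |(((T d m r)^[N] y : ℤ) : ℝ)| ≤ Y ^ (2 * ε - κ) * y := by
    refine h3.trans ?_
    apply mul_le_mul_of_nonneg_right _ hyr.le
    rw [hmu]
    have hgd : ((Leigh.gm D).d : ℝ) = d := rfl
    rw [hgd]
    have e1 : Real.exp (N * (-κ * Real.log d)) = ((d : ℝ) ^ N) ^ (-κ) := by
      rw [← Real.rpow_natCast, ← Real.rpow_mul hd0.le, Real.rpow_def_of_pos hd0]
      congr 1; ring
    rw [e1]
    have h6 : Y / d ≤ (d : ℝ) ^ N := by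
      rw [div_le_iff₀ hd0]
      rw [pow_succ] at hN2; exact hN2.le
    have h7 : ((d : ℝ) ^ N) ^ (-κ) ≤ (d : ℝ) ^ κ * Y ^ (-κ) := by
      calc ((d : ℝ) ^ N) ^ (-κ) ≤ (Y / d) ^ (-κ) :=
            Real.rpow_le_rpow_of_nonpos (by positivity) h6 (by linarith)
        _ = (d : ℝ) ^ κ * Y ^ (-κ) := by
            rw [Real.div_rpow hYp.le hd0.le, Real.rpow_neg hd0.le κ, div_inv_eq_mul, mul_comm]
    calc Y ^ ε * ((d : ℝ) ^ N) ^ (-κ) ≤ Y ^ ε * (Y ^ ε * Y ^ (-κ)) := by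
          apply mul_le_mul_of_nonneg_left _ (by positivity)
          refine h7.trans ?_
          exact mul_le_mul_of_nonneg_right g1 (by positivity)
      _ = Y ^ (2 * ε - κ) := by
          rw [← Real.rpow_add hYp, ← Real.rpow_add hYp]
          congr 1; ring
  obtain ⟨k, hk1, hk2, hk3⟩ := key hd (by omega) hr (le_bd (d := d) (r := r)) hy0 hyd N
  refine ⟨k, hk1, hk2, ?_⟩
  rcases hk3 with ⟨s, hs, -⟩ | hk3
  · have h6 : (H d m r)^[k] y ≤ (T d m r)^[N] y := by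
      rw [hs]
      have : (1 : ℤ) ≤ (d : ℤ) ^ s := one_le_pow₀ (by omega)
      nlinarith
    have h7 : (((H d m r)^[k] y : ℤ) : ℝ) ≤ (((T d m r)^[N] y : ℤ) : ℝ) := by exact_mod_cast h6
    exact h7.trans ((le_abs_self _).trans h4)
  · have h6 : (((H d m r)^[k] y : ℤ) : ℝ) ≤ (bd d r : ℝ) := by exact_mod_cast hk3
    refine h6.trans (g2.trans ?_)
    calc Y ^ (2 * ε) = Y ^ (2 * ε - κ) * Y ^ κ := by
          rw [← Real.rpow_add hYp]; congr 1; ring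
      _ ≤ Y ^ (2 * ε - κ) * y := mul_le_mul_of_nonneg_left hyY (by positivity)

/-- the descent of large terms -/
theorem large_desc (hd : 2 ≤ d) (hm : 2 ≤ m) (hc : Nat.Coprime m d)
    (hle : (m : ℝ) ≤ (d : ℝ) ^ ((d : ℝ) / ((d : ℝ) - 1)))
    (hr : ∀ j : ℤ, 1 ≤ j → j < d → (d : ℤ) ∣ m * j - r j) {c : ℝ} (hc0 : 0 < c) {x : ι → ℕ → ℤ}
    (hx : Spr d c x) {ε : ℝ} (hε : 0 < ε) :
    ∃ δ K : ℝ, 0 < δ ∧ 0 < K ∧ ∀ (i : ι) (N : ℕ), 1 ≤ N → ∀ A : Finset ℕ, A ⊆ Icc 1 N →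
      (∀ n ∈ A, 0 < x i n ∧ ¬ (d : ℤ) ∣ x i n ∧ (N : ℝ) ^ (c * (kap d m + ε)) ≤ (x i n : ℝ) ∧
        ¬ ∃ k : ℕ, Def d m r (x i n) k ∧ 0 < (H d m r)^[k] (x i n) ∧
          (((H d m r)^[k] (x i n) : ℤ) : ℝ) ≤ (N : ℝ) ^ (c * (ε - kap d m)) * (x i n : ℝ)) →
      (A.card : ℝ) ≤ K * (N : ℝ) ^ (1 - δ) := by
  classical
  have D := data (r := r) hd hc hr
  have hC := cls (m := m) (r := r) hd
  obtain ⟨hκ0, hκ1⟩ := kap_bounds hd hm hc hle
  have hmu := mu_kap hd D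
  set κ := kap d m with hκ
  have hgd : (Leigh.gm D).d = d := rfl
  obtain ⟨δ, K, hδ, hK, h1⟩ := law (Leigh.gm_fac D) (Leigh.gm_cls D hC) hc0 (x := x) (by rw [hgd]; exact hx)
    hκ0.le (by rw [hmu]; linarith) (ε := ε / 2) (by positivity)
  obtain ⟨Y0, hY01, h2⟩ := desc hd hm hc hle hr D (ε := ε / 2) (by positivity)
  obtain ⟨K0, hK0, h0⟩ := small_N hc0 (Y0 := Y0) δ hδ
  refine ⟨δ, K0 + K, hδ, by positivity, ?_⟩
  intro i N hN A hAN hA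
  have hNp : (0 : ℝ) < N := by exact_mod_cast hN
  have hN1 : (1 : ℝ) ≤ N := by exact_mod_cast hN
  have hAc : (A.card : ℝ) ≤ N := by
    have := card_le_card hAN
    rw [Nat.card_Icc, Nat.add_sub_cancel] at this
    exact_mod_cast this
  have hP0 : (0 : ℝ) < (N : ℝ) ^ (1 - δ) := by positivity
  set Y : ℝ := (N : ℝ) ^ c with hY
  have hY1 : 1 ≤ Y := Real.one_le_rpow hN1 hc0.le
  rcases le_or_gt Y Y0 with hs | hb
  · refine hAc.trans ((h0 N hN hs).trans ?_)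
    apply mul_le_mul_of_nonneg_right _ hP0.le
    linarith
  have h3 : (A.card : ℝ) ≤ K * (N : ℝ) ^ (1 - δ) := by
    apply h1 i N hN A hAN
    intro n hn
    obtain ⟨g1, g2, g3, g4⟩ := hA n hn
    have hyr : (0 : ℝ) < (x i n : ℝ) := by exact_mod_cast g1
    refine ⟨mem_S hd _, ?_, fun htyp => ?_⟩
    · rw [abs_of_pos hyr]
      refine le_trans ?_ g3
      rw [← hY, Real.rpow_mul hNp.le, ← hY]
      exact Real.rpow_le_rpow_of_exponent_le hY1 (by linarith)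
    · apply g4
      obtain ⟨k, hk1, hk2, hk3⟩ := h2 Y hb.le (x i n) g1 g2 (by
        refine le_trans ?_ g3
        rw [Real.rpow_mul hNp.le, ← hY]
        exact Real.rpow_le_rpow_of_exponent_le hY1 (by linarith)) htyp
      refine ⟨k, hk1, hk2, hk3.trans (le_of_eq ?_)⟩
      rw [Real.rpow_mul hNp.le, ← hY]
      congr 2; ring
  refine h3.trans ?_
  apply mul_le_mul_of_nonneg_right _ hP0.le
  linarith

/-- the descent of all terms -/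
theorem all_desc (hd : 2 ≤ d) (hm : 2 ≤ m) (hc : Nat.Coprime m d)
    (hle : (m : ℝ) ≤ (d : ℝ) ^ ((d : ℝ) / ((d : ℝ) - 1)))
    (hr : ∀ j : ℤ, 1 ≤ j → j < d → (d : ℤ) ∣ m * j - r j) {c : ℝ} (hc0 : 0 < c) {x : ι → ℕ → ℤ}
    (hx : Spr d c x) :
    ∃ c' : ℝ, 0 < c' ∧ ∃ δ K : ℝ, 0 < δ ∧ 0 < K ∧ ∀ (i : ι) (N : ℕ), 1 ≤ N → ∀ A : Finset ℕ, A ⊆ Icc 1 N →
      (∀ n ∈ A, 0 < x i n ∧ ¬ (d : ℤ) ∣ x i n ∧
        ¬ ∃ k : ℕ, Def d m r (x i n) k ∧ 0 < (H d m r)^[k] (x i n) ∧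
          (((H d m r)^[k] (x i n) : ℤ) : ℝ) ≤ (N : ℝ) ^ (-c') * (x i n : ℝ)) →
      (A.card : ℝ) ≤ K * (N : ℝ) ^ (1 - δ) := by
  classical
  obtain ⟨hκ0, hκ1⟩ := kap_bounds hd hm hc hle
  set κ := kap d m with hκ
  obtain ⟨c1, δ1, K1, hc1, hδ1, hK1, h1⟩ := few_small hd hc0 hx
  set c2 : ℝ := min c (c1 / (κ + 1)) with hc2
  have hc20 : 0 < c2 := lt_min hc0 (by positivity)
  have hc22 : c2 * (κ + 1) ≤ c1 := by
    have : c2 ≤ c1 / (κ + 1) := min_le_right _ _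
    rwa [le_div_iff₀ (by positivity)] at this
  obtain ⟨δ2, K2, hδ2, hK2, h2⟩ := large_desc hd hm hc hle hr hc20 (hx.mono (min_le_left _ _))
    (ε := κ / 2) (by positivity)
  set δ := min δ1 δ2 with hδ
  refine ⟨c2 * (κ / 2), by positivity, δ, K1 + K2, lt_min hδ1 hδ2, by positivity, ?_⟩
  intro i N hN A hAN hA
  have hN1 : (1 : ℝ) ≤ N := by exact_mod_cast hN
  have hNp : (0 : ℝ) < N := by linarith
  set A1 := A.filter (fun n => |(x i n : ℝ)| ≤ (N : ℝ) ^ c1) with hA1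
  set A2 := A.filter (fun n => ¬ |(x i n : ℝ)| ≤ (N : ℝ) ^ c1) with hA2
  have h3 : (A1.card : ℝ) ≤ K1 * (N : ℝ) ^ (1 - δ1) :=
    h1 i N hN A1 ((filter_subset _ _).trans hAN) fun n hn => (mem_filter.1 hn).2
  have h4 : (A2.card : ℝ) ≤ K2 * (N : ℝ) ^ (1 - δ2) := by
    apply h2 i N hN A2 ((filter_subset _ _).trans hAN)
    intro n hn
    rw [hA2, mem_filter] at hn
    obtain ⟨hnA, hbig⟩ := hn
    push Not at hbig
    obtain ⟨g1, g2, g3⟩ := hA n hnA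
    have hyr : (0 : ℝ) < (x i n : ℝ) := by exact_mod_cast g1
    rw [abs_of_pos hyr] at hbig
    refine ⟨g1, g2, ?_, ?_⟩
    · refine le_trans ?_ hbig.le
      apply Real.rpow_le_rpow_of_exponent_le hN1
      have h5 : κ + κ / 2 ≤ κ + 1 := by linarith
      have := mul_le_mul_of_nonneg_left h5 hc20.le
      linarith
    · rintro ⟨k, hk1, hk2, hk3⟩
      apply g3
      refine ⟨k, hk1, hk2, hk3.trans (le_of_eq ?_)⟩
      congr 2; ring
  have h5 : A1.card + A2.card = A.card := Finset.card_filter_add_card_filter_not _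
  have h6 : (A.card : ℝ) = A1.card + A2.card := by rw [← h5]; push_cast; rfl
  rw [h6, add_mul]
  apply add_le_add
  · refine h3.trans (mul_le_mul_of_nonneg_left ?_ hK1.le)
    apply Real.rpow_le_rpow_of_exponent_le hN1
    have : δ ≤ δ1 := min_le_left _ _
    linarith
  · refine h4.trans (mul_le_mul_of_nonneg_left ?_ hK2.le)
    apply Real.rpow_le_rpow_of_exponent_le hN1
    have : δ ≤ δ2 := min_le_right _ _
    linarith

/-- Few terms are in the exceptional set. -/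
theorem exc (hd : 2 ≤ d) (hm : 2 ≤ m) (hc : Nat.Coprime m d)
    (hle : (m : ℝ) ≤ (d : ℝ) ^ ((d : ℝ) / ((d : ℝ) - 1)))
    (hr : ∀ j : ℤ, 1 ≤ j → j < d → (d : ℤ) ∣ m * j - r j) {c : ℝ} (hc0 : 0 < c) {x : ι → ℕ → ℤ}
    (hx : Spr d c x) :
    ∃ δ K : ℝ, 0 < δ ∧ 0 < K ∧ ∀ (i : ι) (N : ℕ), 1 ≤ N → ∀ A : Finset ℕ, A ⊆ Icc 1 N →
      (∀ n ∈ A, x i n ∈ Pool.Agent.Y927.GP.Mo.E d m r) → (A.card : ℝ) ≤ K * (N : ℝ) ^ (1 - δ) := by
  obtain ⟨c', hc', δ, K, hδ, hK, h⟩ := all_desc hd hm hc hle hr hc0 hx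
  refine ⟨δ, K + 1, hδ, by positivity, ?_⟩
  intro i N hN A hAN hA
  have hN1 : (1 : ℝ) ≤ N := by exact_mod_cast hN
  have hNp : (0 : ℝ) < N := by linarith
  have hP0 : (0 : ℝ) < (N : ℝ) ^ (1 - δ) := by positivity
  rcases hN.eq_or_lt with h1 | h1
  · -- `N = 1`
    subst h1
    have := card_le_card hAN
    rw [Nat.card_Icc, Nat.add_sub_cancel] at this
    have h2 : (A.card : ℝ) ≤ 1 := by exact_mod_cast this
    rw [Nat.cast_one, Real.one_rpow]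
    linarith
  · have h2 : (A.card : ℝ) ≤ K * (N : ℝ) ^ (1 - δ) := by
      apply h i N hN A hAN
      intro n hn
      obtain ⟨hy0, hyd, hEy⟩ := hA n hn
      refine ⟨hy0, hyd, ?_⟩
      rintro ⟨k, hk1, hk2, hk3⟩
      have hyr : (0 : ℝ) < (x i n : ℝ) := by exact_mod_cast hy0
      have h5 : (N : ℝ) ^ (-c') < 1 := by
        apply Real.rpow_lt_one_of_one_lt_of_neg _ (by linarith)
        exact_mod_cast h1
      have h6 : (((H d m r)^[k] (x i n) : ℤ) : ℝ) < (x i n : ℝ) := by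
        refine lt_of_le_of_lt hk3 ?_
        calc (N : ℝ) ^ (-c') * (x i n : ℝ) < 1 * (x i n : ℝ) := mul_lt_mul_of_pos_right h5 hyr
          _ = _ := one_mul _
      have h7 : (H d m r)^[k] (x i n) < x i n := by exact_mod_cast h6
      rcases Nat.eq_zero_or_pos k with h0 | h0
      · subst h0
        simp at h7
      · have := hEy k h0 hk1
        omega
    refine h2.trans ?_
    apply mul_le_mul_of_nonneg_right _ hP0.le
    linarith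

/-- the descent in windows, for fast growing sequences -/
theorem fast_desc (hd : 2 ≤ d) (hm : 2 ≤ m) (hc : Nat.Coprime m d)
    (hle : (m : ℝ) ≤ (d : ℝ) ^ ((d : ℝ) / ((d : ℝ) - 1)))
    (hr : ∀ j : ℤ, 1 ≤ j → j < d → (d : ℤ) ∣ m * j - r j) {u : ℕ → ℤ}
    (hx : Spr d 1 (fun (X : ℕ) (n : ℕ) => u (X + n))) (hu : Fast u) {ε : ℝ} (hε : 0 < ε) :
    ∃ δ K : ℝ, 0 < δ ∧ 0 < K ∧ ∀ X N : ℕ, 1 ≤ N → ∀ A : Finset ℕ, A ⊆ Icc 1 N →
      (∀ n ∈ A, 0 < u (X + n) ∧ ¬ (d : ℤ) ∣ u (X + n) ∧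
        ¬ ∃ k : ℕ, Def d m r (u (X + n)) k ∧ 0 < (H d m r)^[k] (u (X + n)) ∧
          (((H d m r)^[k] (u (X + n)) : ℤ) : ℝ) ≤ (N : ℝ) ^ (ε - kap d m) * (u (X + n) : ℝ)) →
      (A.card : ℝ) ≤ K * (N : ℝ) ^ (1 - δ) := by
  classical
  set κ := kap d m with hκ
  obtain ⟨δ2, K2, hδ2, hK2, h2⟩ := large_desc hd hm hc hle hr one_pos hx hε
  obtain ⟨K1, hK1, h1⟩ := fast_small hu (κ + ε)
  set δ := min (1 / 2) δ2 with hδ
  refine ⟨δ, K1 + K2, lt_min (by norm_num) hδ2, by positivity, ?_⟩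
  intro X N hN A hAN hA
  have hN1 : (1 : ℝ) ≤ N := by exact_mod_cast hN
  set A1 := A.filter (fun n => |(u (X + n) : ℝ)| < (N : ℝ) ^ (κ + ε)) with hA1
  set A2 := A.filter (fun n => ¬ |(u (X + n) : ℝ)| < (N : ℝ) ^ (κ + ε)) with hA2
  have h3 : (A1.card : ℝ) ≤ K1 * (N : ℝ) ^ (1 - 1 / 2 : ℝ) :=
    h1 X N hN A1 ((filter_subset _ _).trans hAN) fun n hn => (mem_filter.1 hn).2
  have h4 : (A2.card : ℝ) ≤ K2 * (N : ℝ) ^ (1 - δ2) := by
    apply h2 X N hN A2 ((filter_subset _ _).trans hAN)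
    intro n hn
    rw [hA2, mem_filter] at hn
    obtain ⟨hnA, hbig⟩ := hn
    push Not at hbig
    obtain ⟨g1, g2, g3⟩ := hA n hnA
    have hyr : (0 : ℝ) < (u (X + n) : ℝ) := by exact_mod_cast g1
    rw [abs_of_pos hyr] at hbig
    refine ⟨g1, g2, ?_, ?_⟩
    · rw [one_mul]; exact hbig
    · rw [one_mul]; exact g3
  have h5 : A1.card + A2.card = A.card := Finset.card_filter_add_card_filter_not _
  have h6 : (A.card : ℝ) = A1.card + A2.card := by rw [← h5]; push_cast; rfl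
  rw [h6, add_mul]
  apply add_le_add
  · refine h3.trans (mul_le_mul_of_nonneg_left ?_ hK1.le)
    apply Real.rpow_le_rpow_of_exponent_le hN1
    have : δ ≤ 1 / 2 := min_le_left _ _
    linarith
  · refine h4.trans (mul_le_mul_of_nonneg_left ?_ hK2.le)
    apply Real.rpow_le_rpow_of_exponent_le hN1
    have : δ ≤ δ2 := min_le_right _ _
    linarith

end Pool.Agent.U491.LR.Mo
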