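import Pool.Agent.U491.LR.Mo

/-! Wiggin's maps and the terms of spread families: the law of growth. -/

set_option autoImplicit false

namespace Pool.Agent.U491.LR.Wi

open Finset Pool.Agent.H319R2 Pool.Agent.Y927.GP Pool.Agent.Y927.GP.Mo Filter

/-- Wiggin's map. -/
def F (D x : ℕ) : ℕ :=
  if x % D = 0 then x / D else if x % D = D - 1 then (D + 1) * x + 1 else (D + 1) * x - x % D

/-- The accelerated map. -/
def G (D x : ℕ) : ℕ := if x % D = 0 then x / D else F D x / D

/-- the constant terms -/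
def r (D : ℕ) (j : ℤ) : ℤ := if j = (D : ℤ) - 1 then -1 else j

/-- number of multiplications among the first steps -/
def a (D x j : ℕ) : ℕ := #{i ∈ range j | (G D)^[i] x % D ≠ 0}

variable {D : ℕ}

theorem F_facts (hD : 2 ≤ D) {x : ℕ} (h : x % D ≠ 0) :
    F D x % D = 0 ∧ ((F D x : ℕ) : ℤ) = ((D + 1 : ℕ) : ℤ) * x - r D ((x : ℤ) % D) := by
  have h0 := Nat.div_add_mod x D
  have hlt := Nat.mod_lt x (show D > 0 by omega)
  unfold F r
  rw [if_neg h]
  by_cases h1 : x % D = D - 1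
  · have h2 : (x : ℤ) % D = (D : ℤ) - 1 := by
      have : ((x % D : ℕ) : ℤ) = ((D - 1 : ℕ) : ℤ) := by rw [h1]
      rw [Nat.cast_sub (by omega)] at this
      exact_mod_cast this
    rw [if_pos h1, if_pos h2]
    refine ⟨?_, by push_cast; ring⟩
    apply Nat.mod_eq_zero_of_dvd
    refine ⟨x + x / D + 1, ?_⟩
    have h3 : x + 1 = D * (x / D) + D := by omega
    calc (D + 1) * x + 1 = D * x + (x + 1) := by ring
      _ = D * x + (D * (x / D) + D) := by rw [h3]
      _ = D * (x + x / D + 1) := by ring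
  · have h2 : (x : ℤ) % D ≠ (D : ℤ) - 1 := by
      intro h3
      apply h1
      have : ((x % D : ℕ) : ℤ) = ((D - 1 : ℕ) : ℤ) := by
        rw [Nat.cast_sub (by omega)]; exact_mod_cast h3
      exact_mod_cast this
    rw [if_neg h1, if_neg h2]
    have h4 : x % D ≤ (D + 1) * x := (Nat.mod_le x D).trans (Nat.le_mul_of_pos_left x (by omega))
    refine ⟨?_, by rw [Nat.cast_sub h4]; push_cast; ring⟩
    apply Nat.mod_eq_zero_of_dvd
    refine ⟨x + x / D, ?_⟩
    have h3 : (D + 1) * x = D * (x + x / D) + x % D := by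
      calc (D + 1) * x = D * x + x := by ring
        _ = D * x + (D * (x / D) + x % D) := by rw [h0]
        _ = D * (x + x / D) + x % D := by ring
    omega

theorem G_cast (hD : 2 ≤ D) (x : ℕ) : ((G D x : ℕ) : ℤ) = Mo.T D (D + 1) (r D) (x : ℤ) := by
  unfold G Mo.T
  by_cases h : x % D = 0
  · have h1 : (x : ℤ) % (D : ℤ) = 0 := by exact_mod_cast h
    rw [if_pos h, if_pos h1]
    push_cast; rfl
  · have h1 : (x : ℤ) % (D : ℤ) ≠ 0 := by exact_mod_cast h
    rw [if_neg h, if_neg h1, ← (F_facts hD h).2]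
    push_cast; rfl

theorem G_iter_cast (hD : 2 ≤ D) (x j : ℕ) : (((G D)^[j] x : ℕ) : ℤ) = (Mo.T D (D + 1) (r D))^[j] (x : ℤ) := by
  induction j with
  | zero => rfl
  | succ j ih => rw [Function.iterate_succ_apply', Function.iterate_succ_apply', G_cast hD, ih]

theorem F_zero {x : ℕ} (h : x % D = 0) : F D x = x / D := by
  unfold F; rw [if_pos h]

theorem G_zero {x : ℕ} (h : x % D = 0) : G D x = x / D := by
  unfold G; rw [if_pos h]

theorem G_ne {x : ℕ} (h : x % D ≠ 0) : G D x = F D x / D := by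
  unfold G; rw [if_neg h]

theorem a_succ (x j : ℕ) : a D x (j + 1) = a D x j + (if (G D)^[j] x % D ≠ 0 then 1 else 0) := by
  unfold a
  rw [card_filter, card_filter, sum_range_succ]

theorem F_iter (hD : 2 ≤ D) (x j : ℕ) : (F D)^[j + a D x j] x = (G D)^[j] x := by
  induction j with
  | zero => simp [a]
  | succ j ih =>
    rw [a_succ, Function.iterate_succ_apply' (G D)]
    by_cases h : (G D)^[j] x % D = 0
    · rw [if_neg (not_not.2 h)]
      have e : j + 1 + (a D x j + 0) = (j + a D x j) + 1 := by ring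
      rw [e, Function.iterate_succ_apply', ih, F_zero h, G_zero h]
    · rw [if_pos h]
      have e : j + 1 + (a D x j + 1) = (j + a D x j) + 1 + 1 := by ring
      rw [e, Function.iterate_succ_apply', Function.iterate_succ_apply', ih]
      rw [F_zero (F_facts hD h).1, G_ne h]

theorem F_bounds (hD : 2 ≤ D) {x : ℕ} (hx : 0 < x) :
    0 < F D x ∧ F D x ≤ (D + 2) * x ∧ x ≤ (D + 2) * F D x := by
  have h0 := Nat.div_add_mod x D
  have hlt := Nat.mod_lt x (show D > 0 by omega)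
  unfold F
  split_ifs with h1 h2
  · rw [h1, add_zero] at h0
    have h3 : 0 < x / D := by
      by_contra h4
      rw [Nat.eq_zero_of_not_pos h4, mul_zero] at h0
      omega
    refine ⟨h3, (Nat.div_le_self x D).trans (Nat.le_mul_of_pos_left x (by omega)), ?_⟩
    calc x = D * (x / D) := h0.symm
      _ ≤ (D + 2) * (x / D) := Nat.mul_le_mul_right _ (by omega)
  · refine ⟨by omega, ?_, ?_⟩
    · have : (D + 2) * x = (D + 1) * x + x := by ring
      omega
    · calc x ≤ (D + 1) * x + 1 := by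
            have := Nat.le_mul_of_pos_left x (show 0 < D + 1 by omega)
            omega
        _ ≤ (D + 2) * ((D + 1) * x + 1) := Nat.le_mul_of_pos_left _ (by omega)
  · have h4 : (D + 1) * x = D * x + x := by ring
    have h5 := Nat.mod_le x D
    have h6 : x ≤ D * x := Nat.le_mul_of_pos_left x (by omega)
    refine ⟨by omega, ?_, ?_⟩
    · have : (D + 2) * x = (D + 1) * x + x := by ring
      omega
    · calc x ≤ (D + 1) * x - x % D := by omega
        _ ≤ (D + 2) * ((D + 1) * x - x % D) := Nat.le_mul_of_pos_left _ (by omega)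

theorem F_iter_bounds (hD : 2 ≤ D) {x : ℕ} (hx : 0 < x) (t : ℕ) :
    0 < (F D)^[t] x ∧ (F D)^[t] x ≤ (D + 2) ^ t * x ∧ x ≤ (D + 2) ^ t * (F D)^[t] x := by
  induction t with
  | zero => simp [hx]
  | succ t ih =>
    obtain ⟨h1, h2, h3⟩ := ih
    obtain ⟨g1, g2, g3⟩ := F_bounds hD h1
    rw [Function.iterate_succ_apply']
    refine ⟨g1, g2.trans ?_, h3.trans ?_⟩
    · calc (D + 2) * (F D)^[t] x ≤ (D + 2) * ((D + 2) ^ t * x) := Nat.mul_le_mul_left _ h2
        _ = (D + 2) ^ (t + 1) * x := by ring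
    · calc (D + 2) ^ t * (F D)^[t] x ≤ (D + 2) ^ t * ((D + 2) * F D ((F D)^[t] x)) := Nat.mul_le_mul_left _ g3
        _ = (D + 2) ^ (t + 1) * F D ((F D)^[t] x) := by ring

theorem F_iter_log (hD : 2 ≤ D) {x : ℕ} (hx : 0 < x) (t : ℕ) :
    |Real.log ((F D)^[t] x : ℕ) - Real.log x| ≤ t * Real.log (D + 2) := by
  obtain ⟨h1, h2, h3⟩ := F_iter_bounds hD hx t
  have hx0 : (0 : ℝ) < x := by exact_mod_cast hx
  have hy0 : (0 : ℝ) < ((F D)^[t] x : ℕ) := by exact_mod_cast h1
  have hD0 : (0 : ℝ) < (D : ℝ) + 2 := by positivity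
  have g2 : (((F D)^[t] x : ℕ) : ℝ) ≤ ((D : ℝ) + 2) ^ t * x := by exact_mod_cast h2
  have g3 : (x : ℝ) ≤ ((D : ℝ) + 2) ^ t * ((F D)^[t] x : ℕ) := by exact_mod_cast h3
  have k2 := Real.log_le_log hy0 g2
  have k3 := Real.log_le_log hx0 g3
  rw [Real.log_mul (by positivity) (by positivity), Real.log_pow] at k2 k3
  rw [abs_le]; constructor <;> linarith

theorem G_pos (hD : 2 ≤ D) {x : ℕ} (hx : 0 < x) (j : ℕ) : 0 < (G D)^[j] x := by
  rw [← F_iter hD]
  exact (F_iter_bounds hD hx _).1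

theorem G_log (hD : 2 ≤ D) {y : ℕ} (hy : 2 ≤ y) :
    |Real.log (G D y : ℕ) - (Real.log y - Real.log D + (if y % D ≠ 0 then Real.log (D + 1) else 0))| ≤ 2 / y := by
  have hy0 : (0 : ℝ) < y := by exact_mod_cast (show 0 < y by omega)
  have hy2 : (2 : ℝ) ≤ y := by exact_mod_cast hy
  have hD0 : (0 : ℝ) < D := by exact_mod_cast (show 0 < D by omega)
  have hD2 : (2 : ℝ) ≤ D := by exact_mod_cast hD
  have hGp : (0 : ℝ) < (G D y : ℕ) := by exact_mod_cast (G_pos hD (show 0 < y by omega) 1)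
  by_cases h : y % D = 0
  · rw [if_neg (not_not.2 h)]
    have h1 : D * G D y = y := by
      unfold G; rw [if_pos h]
      have := Nat.div_add_mod y D
      omega
    have h2 : (D : ℝ) * (G D y : ℕ) = y := by exact_mod_cast h1
    have h3 := congrArg Real.log h2
    rw [Real.log_mul hD0.ne' hGp.ne'] at h3
    rw [show Real.log (G D y : ℕ) - (Real.log y - Real.log D + 0) = 0 by linarith, abs_zero]
    positivity
  · rw [if_pos h]
    obtain ⟨f1, f2⟩ := F_facts hD h
    have h1 : D * G D y = F D y := by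
      unfold G; rw [if_neg h]
      have := Nat.div_add_mod (F D y) D
      omega
    have h2 : (D : ℝ) * (G D y : ℕ) = ((D : ℝ) + 1) * y - ((r D ((y : ℤ) % (D : ℤ)) : ℤ) : ℝ) := by
      have : ((D * G D y : ℕ) : ℤ) = ((D + 1 : ℕ) : ℤ) * y - r D ((y : ℤ) % D) := by rw [h1, f2]
      exact_mod_cast this
    have hr : (-1 : ℝ) ≤ ((r D ((y : ℤ) % (D : ℤ)) : ℤ) : ℝ) ∧ ((r D ((y : ℤ) % (D : ℤ)) : ℤ) : ℝ) ≤ D := by
      have hm0 := Int.emod_nonneg (y : ℤ) (show (D : ℤ) ≠ 0 by omega)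
      have hm1 := Int.emod_lt_of_pos (y : ℤ) (show (0 : ℤ) < D by omega)
      unfold r
      split_ifs with h5
      · constructor
        · norm_num
        · push_cast; linarith
      · constructor
        · have : (-1 : ℤ) ≤ (y : ℤ) % D := by omega
          exact_mod_cast this
        · have : (y : ℤ) % D ≤ D := hm1.le
          exact_mod_cast this
    set ρ : ℝ := ((r D ((y : ℤ) % (D : ℤ)) : ℤ) : ℝ) with hρ
    have hz0 : (0 : ℝ) < ((D : ℝ) + 1) * y := by positivity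
    set z : ℝ := ((D : ℝ) * (G D y : ℕ)) / (((D : ℝ) + 1) * y) with hz
    have hzp : 0 < z := by positivity
    have hz1 : z = 1 - ρ / (((D : ℝ) + 1) * y) := by
      rw [hz, h2]; field_simp
    have hup : z - 1 ≤ 1 / y := by
      rw [hz1]
      have : -(ρ / (((D : ℝ) + 1) * y)) ≤ 1 / y := by
        rw [← neg_div, div_le_div_iff₀ hz0 hy0]
        nlinarith [hr.1]
      linarith
    have hlo : -(1 / y) ≤ z - 1 := by
      rw [hz1]
      have : ρ / (((D : ℝ) + 1) * y) ≤ 1 / y := by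
        rw [div_le_div_iff₀ hz0 hy0]
        nlinarith [hr.2]
      linarith
    have hy1 : 1 / (y : ℝ) ≤ 1 / 2 := by
      rw [div_le_div_iff₀ hy0 (by norm_num)]; linarith
    have hzh : 1 / 2 ≤ z := by linarith
    have hl1 := Real.log_le_sub_one_of_pos hzp
    have hl2 := Real.one_sub_inv_le_log_of_pos hzp
    have hl3 : -(2 / y) ≤ 1 - z⁻¹ := by
      have e : 1 - z⁻¹ = (z - 1) / z := by field_simp
      rw [e, le_div_iff₀ hzp]
      have h6 : 2 / (y : ℝ) = 2 * (1 / y) := by ring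
      have h7 : 0 < 1 / (y : ℝ) := by positivity
      rw [h6]
      nlinarith
    have hlz : Real.log z = Real.log (G D y : ℕ) - (Real.log y - Real.log D + Real.log (D + 1)) := by
      rw [hz, Real.log_div (by positivity) (by positivity), Real.log_mul hD0.ne' hGp.ne',
        Real.log_mul (by positivity) hy0.ne']
      ring
    rw [← hlz, abs_le]
    constructor
    · linarith
    · have : 1 / (y : ℝ) ≤ 2 / y := by
        apply div_le_div_of_nonneg_right _ hy0.le
        norm_num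
      linarith

theorem G_iter_log (hD : 2 ≤ D) {x : ℕ} {M : ℝ} (hM : 2 ≤ M) (j : ℕ)
    (h : ∀ i < j, M ≤ ((G D)^[i] x : ℕ)) :
    |Real.log ((G D)^[j] x : ℕ) - (Real.log x - j * Real.log D + a D x j * Real.log (D + 1))| ≤ j * (2 / M) := by
  induction j with
  | zero => simp [a]
  | succ j ih =>
    have h1 := ih (fun i hi => h i (by omega))
    have h2 := h j (by omega)
    have hy : 2 ≤ (G D)^[j] x := by
      have : (2 : ℝ) ≤ ((G D)^[j] x : ℕ) := hM.trans h2
      exact_mod_cast this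
    have h3 := G_log hD hy
    rw [Function.iterate_succ_apply', a_succ]
    have h4 : 2 / (((G D)^[j] x : ℕ) : ℝ) ≤ 2 / M := by
      apply div_le_div_of_nonneg_left (by norm_num) (by linarith) h2
    have e : ((a D x j + (if (G D)^[j] x % D ≠ 0 then 1 else 0) : ℕ) : ℝ) * Real.log (D + 1) =
        a D x j * Real.log (D + 1) + (if (G D)^[j] x % D ≠ 0 then Real.log (D + 1) else 0) := by
      split_ifs <;> push_cast <;> ring
    rw [e]
    push_cast
    have h5 := (abs_add_le _ _).trans (add_le_add (h3.trans h4) h1)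
    refine le_trans (le_of_eq ?_) (h5.trans (le_of_eq (by ring)))
    congr 1
    ring

/-- the exponent of growth -/
noncomputable def gam (D : ℕ) : ℝ := ((D : ℝ) * Real.log D - (D - 1) * Real.log (D + 1)) / (2 * D - 1)

/-- the law of growth -/
def Law (D : ℕ) (ε Y : ℝ) (x : ℕ) : Prop :=
  ∀ k : ℕ, (k : ℝ) * (D * Real.log D) ≤ (2 * D - 1) * Real.log Y →
    |Real.log ((F D)^[k] x : ℕ) - Real.log x + gam D * k| ≤ ε * Real.log Y

theorem Law.mono {ε ε' Y : ℝ} {x : ℕ} (hY : 1 ≤ Y) (h : Law D ε Y x) (he : ε ≤ ε') : Law D ε' Y x :=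
  fun k hk => (h k hk).trans (mul_le_mul_of_nonneg_right he (Real.log_nonneg hY))

theorem le_three : (1 : ℝ) ≤ Real.log 3 := by
  rw [Real.le_log_iff_exp_le (by norm_num)]
  have := Real.exp_one_lt_d9
  linarith

theorem hle (hD : 2 ≤ D) : ((D + 1 : ℕ) : ℝ) ≤ (D : ℝ) ^ ((D : ℝ) / ((D : ℝ) - 1)) := by
  have hD1 : (2 : ℝ) ≤ D := by exact_mod_cast hD
  have hD0 : (0 : ℝ) < D := by linarith
  have hd1 : (0 : ℝ) < (D : ℝ) - 1 := by linarith
  have e : (D : ℝ) / ((D : ℝ) - 1) = 1 + 1 / ((D : ℝ) - 1) := by field_simp; ring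
  rw [e, Real.rpow_add hD0, Real.rpow_one]
  have h1 : 1 + Real.log D / ((D : ℝ) - 1) ≤ (D : ℝ) ^ (1 / ((D : ℝ) - 1)) := by
    rw [Real.rpow_def_of_pos hD0]
    have := Real.add_one_le_exp (Real.log D * (1 / ((D : ℝ) - 1)))
    have e2 : Real.log D / ((D : ℝ) - 1) = Real.log D * (1 / ((D : ℝ) - 1)) := by ring
    rw [e2]; linarith
  have h2 : ((D : ℝ) - 1) / D ≤ Real.log D := by
    have := Real.one_sub_inv_le_log_of_pos hD0
    have e3 : ((D : ℝ) - 1) / D = 1 - (D : ℝ)⁻¹ := by field_simp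
    rw [e3]; exact this
  have h3 : 1 / (D : ℝ) ≤ Real.log D / ((D : ℝ) - 1) := by
    rw [div_le_div_iff₀ hD0 hd1]
    rw [div_le_iff₀ hD0] at h2
    linarith
  calc ((D + 1 : ℕ) : ℝ) = D * (1 + 1 / (D : ℝ)) := by push_cast; field_simp
    _ ≤ D * (D : ℝ) ^ (1 / ((D : ℝ) - 1)) := mul_le_mul_of_nonneg_left (by linarith) hD0.le

theorem cop (D : ℕ) : Nat.Coprime (D + 1) D := by simp

theorem r_cond (D : ℕ) : ∀ j : ℤ, 1 ≤ j → j < D → (D : ℤ) ∣ ((D + 1 : ℕ) : ℤ) * j - r D j := by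
  intro j h1 h2
  unfold r
  split_ifs with h
  · refine ⟨j + 1, ?_⟩
    subst h
    push_cast; ring
  · refine ⟨j, ?_⟩
    push_cast; ring

set_option maxHeartbeats 4000000 in
theorem det (hD : 2 ≤ D) (Dt : Leigh.Data D (mm (D + 1)) (rr (r D)) (mm (D + 1)) (fun _ => 1)) {ε : ℝ}
    (hε : 0 < ε) : ∃ ε1 : ℝ, 0 < ε1 ∧ ε1 ≤ ε / 2 ∧ ∃ Y0 : ℝ, 1 ≤ Y0 ∧ ∀ Y, Y0 ≤ Y → ∀ x : ℕ, 0 < x →
      Y ^ (kap D (D + 1) + ε) ≤ (x : ℝ) →
      Typ (Leigh.gm Dt) (mu (Leigh.gm Dt) (CC D) (fun _ => 1 / (D : ℝ))) ε1 Y ((x : ℕ) : ℤ) → Law D ε Y x := by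
  obtain ⟨hκ0, hκ1⟩ := kap_bounds hD (show 2 ≤ D + 1 by omega) (cop D) (hle hD)
  have hmu := mu_kap hD Dt
  set κ := kap D (D + 1) with hκ
  have hD1 : (2 : ℝ) ≤ D := by exact_mod_cast hD
  have hD0 : (0 : ℝ) < D := by linarith
  have hL : 0 < Real.log D := Real.log_pos (by linarith)
  have hL1 : 1 ≤ Real.log ((D : ℝ) + 1) := le_three.trans (Real.log_le_log (by norm_num) (by linarith))
  have hL2 : Real.log D ≤ Real.log ((D : ℝ) + 2) := Real.log_le_log hD0 (by linarith)
  set L := Real.log D with hLd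
  set L1 := Real.log ((D : ℝ) + 1) with hL1d
  set L2 := Real.log ((D : ℝ) + 2) with hL2d
  have hκL : κ * L = L - ((D : ℝ) - 1) / D * L1 := by
    rw [hκ]
    unfold kap
    have e1 : ((D + 1 : ℕ) : ℝ) = (D : ℝ) + 1 := by push_cast; rfl
    rw [e1, ← hL1d, ← hLd]
    field_simp
  set ε1 : ℝ := ε / (2 * (3 * L2 + 1)) with hε1
  have hL20 : 0 < L2 := by linarith
  have hε10 : 0 < ε1 := by positivity
  have hε12 : ε1 ≤ ε / 2 := by
    rw [hε1]
    apply div_le_div_of_nonneg_left hε.le (by norm_num)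
    linarith
  have hε13 : ε1 * (3 * L2 + 1) = ε / 2 := by
    rw [hε1]; field_simp
  have t1 : ∀ᶠ Y : ℝ in atTop, 14 * L2 / ε ≤ Real.log Y := Real.tendsto_log_atTop.eventually_ge_atTop _
  have t2 : ∀ᶠ Y : ℝ in atTop, (2 : ℝ) ≤ Y ^ (ε / 2) :=
    (tendsto_rpow_atTop (show 0 < ε / 2 by positivity)).eventually_ge_atTop _
  have t3 : ∀ᶠ Y : ℝ in atTop, 8 / (ε * L) ≤ Y ^ (ε / 4) :=
    (tendsto_rpow_atTop (show 0 < ε / 4 by positivity)).eventually_ge_atTop _
  obtain ⟨Y0, hY0⟩ := eventually_atTop.1 (t1.and (t2.and t3))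
  refine ⟨ε1, hε10, hε12, max 1 Y0, le_max_left _ _, fun Y hY x hx0 hxY htyp => ?_⟩
  obtain ⟨g1, g2, g3⟩ := hY0 Y ((le_max_right _ _).trans hY)
  have hY1 : 1 ≤ Y := (le_max_left _ _).trans hY
  have hYp : 0 < Y := by linarith
  set LY := Real.log Y with hLY
  have hLY0 : 0 ≤ LY := Real.log_nonneg hY1
  have gA : 7 * L2 ≤ ε / 2 * LY := by
    rw [div_le_iff₀ hε] at g1
    linarith
  set M : ℝ := Y ^ (ε / 2) with hM
  have gC : 2 * (LY / L) ≤ M := by
    have h1 : LY * (ε / 4) ≤ Y ^ (ε / 4) := by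
      rw [Real.rpow_def_of_pos hYp]
      have := Real.add_one_le_exp (Real.log Y * (ε / 4))
      linarith
    have h2 : M = Y ^ (ε / 4) * Y ^ (ε / 4) := by
      rw [hM, ← Real.rpow_add hYp]; congr 1; ring
    have h3 : 2 * (LY / L) = 8 / (ε * L) * (LY * (ε / 4)) := by field_simp; ring
    rw [h2, h3]
    exact mul_le_mul g3 h1 (by positivity) (by positivity)
  have hxr : (0 : ℝ) < x := by exact_mod_cast hx0
  have hlx : (κ + ε) * LY ≤ Real.log x := by
    have := Real.log_le_log (by positivity) hxY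
    rwa [Real.log_rpow hYp] at this
  have hTT : (Leigh.gm Dt).T = T D (D + 1) (r D) := by rw [Leigh.gm_T, T_eq]
  have hgd : ((Leigh.gm Dt).d : ℝ) = D := rfl
  have hmu' : mu (Leigh.gm Dt) (CC D) (fun _ => 1 / (D : ℝ)) = -(κ * L) := by
    rw [hmu, hgd]; ring
  have hpow : ∀ j : ℕ, (j : ℝ) * L ≤ LY → (D : ℝ) ^ j ≤ Y := by
    intro j hj
    rw [← Real.exp_log hD0, ← Real.exp_nat_mul, ← Real.exp_log hYp]
    exact Real.exp_le_exp.2 hj
  have hlog : ∀ j : ℕ, (j : ℝ) * L ≤ LY →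
      |Real.log ((G D)^[j] x : ℕ) - (-(j * (κ * L)) + Real.log x)| ≤ ε1 * LY := by
    intro j hj
    obtain ⟨h1, h2⟩ := htyp j (by rw [hgd]; exact hpow j hj)
    rw [hTT, hmu', ← G_iter_cast hD] at h1 h2
    have hGp : (0 : ℝ) < ((G D)^[j] x : ℕ) := by exact_mod_cast G_pos hD hx0 j
    have e1 : |(((((G D)^[j] x : ℕ) : ℤ)) : ℝ)| = ((G D)^[j] x : ℕ) := by
      rw [Int.cast_natCast, abs_of_pos hGp]
    have e2 : |(((x : ℕ) : ℤ) : ℝ)| = x := by rw [Int.cast_natCast, abs_of_pos hxr]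
    rw [e1, e2] at h1 h2
    have k1 := Real.log_le_log (by positivity) h1
    have k2 := Real.log_le_log hGp h2
    rw [Real.log_mul (by positivity) hxr.ne', Real.log_mul (by positivity) (Real.exp_pos _).ne',
      Real.log_rpow hYp, Real.log_exp] at k1 k2
    rw [abs_le]; constructor <;> linarith
  have hbig : ∀ j : ℕ, (j : ℝ) * L ≤ LY → M ≤ ((G D)^[j] x : ℕ) := by
    intro j hj
    have hGp : (0 : ℝ) < ((G D)^[j] x : ℕ) := by exact_mod_cast G_pos hD hx0 j
    have h1 := (abs_le.1 (hlog j hj)).1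
    have h2 : (j : ℝ) * (κ * L) ≤ κ * LY := by
      have := mul_le_mul_of_nonneg_left hj hκ0.le
      linarith
    have h3 : ε1 * LY ≤ ε / 2 * LY := mul_le_mul_of_nonneg_right hε12 hLY0
    have h4 : ε / 2 * LY ≤ Real.log ((G D)^[j] x : ℕ) := by
      have h5 : (κ + ε) * LY = κ * LY + ε / 2 * LY + ε / 2 * LY := by ring
      linarith
    rw [hM, Real.rpow_def_of_pos hYp, ← Real.exp_log hGp]
    apply Real.exp_le_exp.2
    linarith
  have hcount : ∀ j : ℕ, (j : ℝ) * L ≤ LY →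
      |(D : ℝ) * a D x j - (D - 1) * j| ≤ D * (ε1 * LY + 1) := by
    intro j hj
    have h1 := G_iter_log hD g2 j (x := x) (fun i hi => hbig i (by
      have : (i : ℝ) ≤ j := by exact_mod_cast hi.le
      have := mul_le_mul_of_nonneg_right this hL.le
      linarith))
    have h2 := hlog j hj
    have hjL : (j : ℝ) ≤ LY / L := by rwa [le_div_iff₀ hL]
    have hM0 : 0 < M := by linarith
    have h3 : (j : ℝ) * (2 / M) ≤ 1 := by
      rw [← mul_div_assoc, div_le_one hM0]
      linarith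
    have h4 : |(a D x j : ℝ) * L1 - (j * L - j * (κ * L))| ≤ ε1 * LY + 1 := by
      have h5 := abs_sub_abs_le_abs_sub (0 : ℝ) 0
      have e : (a D x j : ℝ) * L1 - (j * L - j * (κ * L)) =
          (Real.log ((G D)^[j] x : ℕ) - (-(j * (κ * L)) + Real.log x)) -
          (Real.log ((G D)^[j] x : ℕ) - (Real.log x - j * L + a D x j * L1)) := by ring
      rw [e]
      refine (abs_sub _ _).trans ?_
      linarith
    have e2 : (j : ℝ) * L - j * (κ * L) = ((D : ℝ) - 1) / D * j * L1 := by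
      rw [hκL]; ring
    rw [e2] at h4
    have e3 : (a D x j : ℝ) * L1 - ((D : ℝ) - 1) / D * j * L1 = ((D : ℝ) * a D x j - (D - 1) * j) / D * L1 := by
      field_simp
    rw [e3, abs_mul, abs_of_pos (show 0 < L1 by linarith), abs_div, abs_of_pos hD0] at h4
    have h6 : |(D : ℝ) * a D x j - (D - 1) * j| / D ≤ ε1 * LY + 1 := by
      refine le_trans ?_ h4
      exact le_mul_of_one_le_right (by positivity) hL1
    rw [div_le_iff₀ hD0] at h6
    linarith
  intro k hk
  set J : ℕ := ⌊LY / L⌋₊ with hJ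
  have hJL : ∀ j : ℕ, j ≤ J → (j : ℝ) * L ≤ LY := by
    intro j hj
    have h1 : (j : ℝ) ≤ LY / L := by
      have h2 : (J : ℝ) ≤ LY / L := Nat.floor_le (by positivity)
      have h3 : (j : ℝ) ≤ J := by exact_mod_cast hj
      linarith
    rwa [le_div_iff₀ hL] at h1
  set j : ℕ := Nat.findGreatest (fun j => j + a D x j ≤ k) J with hj
  have hjP : j + a D x j ≤ k :=
    Nat.findGreatest_spec (P := fun j => j + a D x j ≤ k) (m := 0) (Nat.zero_le J) (by simp [a])
  have hjJ : j ≤ J := Nat.findGreatest_le J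
  have hjL := hJL j hjJ
  have hcj := hcount j hjL
  obtain ⟨t, ht⟩ := Nat.exists_eq_add_of_le hjP
  have htr : (k : ℝ) = j + a D x j + t := by exact_mod_cast ht
  have hε1LY : 0 ≤ ε1 * LY := by positivity
  have htb : (t : ℝ) ≤ ε1 * LY + 3 := by
    rcases Nat.lt_or_ge j J with hlt | hge
    · have h1 : ¬ (j + 1 + a D x (j + 1) ≤ k) :=
        Nat.findGreatest_is_greatest (P := fun j => j + a D x j ≤ k) (Nat.lt_succ_self j) hlt
      have h2 : a D x (j + 1) ≤ a D x j + 1 := by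
        rw [a_succ]; split_ifs <;> omega
      have h3 : t ≤ 1 := by omega
      have h4 : (t : ℝ) ≤ 1 := by exact_mod_cast h3
      linarith
    · have hJj : j = J := le_antisymm hjJ hge
      have h1 : LY / L < (j : ℝ) + 1 := by rw [hJj]; exact Nat.lt_floor_add_one _
      have h2 := (abs_le.1 hcj).1
      have h3 : (k : ℝ) * D ≤ (2 * D - 1) * (LY / L) := by
        rw [mul_div_assoc', le_div_iff₀ hL]
        linarith
      have h4 : (2 * (D : ℝ) - 1) * (LY / L) ≤ (2 * D - 1) * (j + 1) :=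
        mul_le_mul_of_nonneg_left h1.le (by linarith)
      have h5 : (D : ℝ) * t ≤ D * (ε1 * LY + 3) := by
        have h6 : (D : ℝ) * t = k * D - D * j - D * a D x j := by rw [htr]; ring
        rw [h6]
        nlinarith
      exact le_of_mul_le_mul_left h5 hD0
  have hfin1 := F_iter_log hD (G_pos hD hx0 j) t
  have e4 : (F D)^[t] ((G D)^[j] x) = (F D)^[k] x := by
    rw [← F_iter hD, ← Function.iterate_add_apply]
    congr 1
    omega
  rw [e4] at hfin1
  have hfin2 := hlog j hjL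
  have hfin3 : |-(j * (κ * L)) + gam D * k| ≤ L2 * (2 * (ε1 * LY) + 4) := by
    have h1 : (2 * (D : ℝ) - 1) * (-(j * (κ * L)) + gam D * k) =
        κ * L * (D * t + (D * a D x j - (D - 1) * j)) := by
      have e5 : gam D = κ * L * D / (2 * D - 1) := by
        unfold gam
        rw [hκL, ← hLd, ← hL1d]
        congr 1
        field_simp
      have h2 : (2 * (D : ℝ) - 1) ≠ 0 := by linarith
      have e7 : gam D * (2 * D - 1) = κ * L * D := by
        rw [e5, div_mul_cancel₀ _ h2]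
      rw [htr]
      linear_combination ((j : ℝ) + a D x j + t) * e7
    have h3 : |(2 * (D : ℝ) - 1) * (-(j * (κ * L)) + gam D * k)| ≤ L2 * (D * (2 * (ε1 * LY) + 4)) := by
      rw [h1, abs_mul, abs_of_pos (show 0 < κ * L by positivity)]
      apply mul_le_mul _ _ (abs_nonneg _) hL20.le
      · have : κ * L ≤ 1 * L := mul_le_mul_of_nonneg_right hκ1.le hL.le
        linarith
      · refine (abs_add_le _ _).trans ?_
        rw [abs_of_nonneg (show (0 : ℝ) ≤ D * t by positivity)]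
        have := mul_le_mul_of_nonneg_left htb hD0.le
        linarith
    rw [abs_mul, abs_of_pos (show (0 : ℝ) < 2 * D - 1 by linarith)] at h3
    have h4 : (D : ℝ) * |-(j * (κ * L)) + gam D * k| ≤ (2 * D - 1) * |-(j * (κ * L)) + gam D * k| :=
      mul_le_mul_of_nonneg_right (by linarith) (abs_nonneg _)
    have h5 : (D : ℝ) * |-(j * (κ * L)) + gam D * k| ≤ D * (L2 * (2 * (ε1 * LY) + 4)) := by linarith
    exact le_of_mul_le_mul_left h5 hD0
  have e6 : Real.log ((F D)^[k] x : ℕ) - Real.log x + gam D * k =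
      (Real.log ((F D)^[k] x : ℕ) - Real.log ((G D)^[j] x : ℕ)) +
      (Real.log ((G D)^[j] x : ℕ) - (-(j * (κ * L)) + Real.log x)) + (-(j * (κ * L)) + gam D * k) := by ring
  rw [e6]
  refine (abs_add_le _ _).trans ((add_le_add (abs_add_le _ _) le_rfl).trans ?_)
  have h7 : (t : ℝ) * L2 ≤ (ε1 * LY + 3) * L2 := mul_le_mul_of_nonneg_right htb hL20.le
  have h8 : ε1 * (3 * L2 + 1) * LY = ε / 2 * LY := by rw [hε13]
  have h9 : (ε1 * LY + 3) * L2 + ε1 * LY + L2 * (2 * (ε1 * LY) + 4) = ε1 * (3 * L2 + 1) * LY + 7 * L2 := by ring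
  linarith

end Pool.Agent.U491.LR.Wi
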