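import Pool.Agent.U491.LR.Wi
import Pool.Agent.U491.LR.P

/-! Wiggin's maps and the terms of spread families: the exceptions to the law of growth are few. -/

set_option autoImplicit false

namespace Pool.Agent.U491.LR.Wi

open Finset Pool.Agent.H319R2 Pool.Agent.Y927.GP Pool.Agent.Y927.GP.Mo Filter

variable {D : ℕ} {ι : Type}

/-- the law for large terms -/
theorem large (hD : 2 ≤ D) {c : ℝ} (hc0 : 0 < c) {x : ι → ℕ → ℕ} (hx : Spr D c (fun i n => (x i n : ℤ)))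
    {ε : ℝ} (hε : 0 < ε) :
    ∃ δ K : ℝ, 0 < δ ∧ 0 < K ∧ ∀ (i : ι) (N : ℕ), 1 ≤ N → ∀ A : Finset ℕ, A ⊆ Icc 1 N →
      (∀ n ∈ A, (N : ℝ) ^ (c * (kap D (D + 1) + ε)) ≤ (x i n : ℝ) ∧ ¬ Law D ε ((N : ℝ) ^ c) (x i n)) →
      (A.card : ℝ) ≤ K * (N : ℝ) ^ (1 - δ) := by
  classical
  have Dt := data (r := r D) hD (cop D) (r_cond D)
  have hC := cls (m := D + 1) (r := r D) hD
  obtain ⟨hκ0, hκ1⟩ := kap_bounds hD (show 2 ≤ D + 1 by omega) (cop D) (hle hD)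
  have hmu := mu_kap hD Dt
  have hgd : (Leigh.gm Dt).d = D := rfl
  obtain ⟨ε1, hε1, hε12, Y0, hY01, h2⟩ := det hD Dt hε
  set κ := kap D (D + 1) with hκ
  obtain ⟨δ, K, hδ, hK, h1⟩ := law (Leigh.gm_fac Dt) (Leigh.gm_cls Dt hC) hc0 (x := fun i n => (x i n : ℤ))
    (by rw [hgd]; exact hx) hκ0.le (by rw [hmu]; linarith) (ε := ε1) hε1
  obtain ⟨K0, hK0, h0⟩ := small_N hc0 (Y0 := Y0) δ hδ
  refine ⟨δ, K0 + K, hδ, by positivity, ?_⟩
  intro i N hN A hAN hA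
  have hNp : (0 : ℝ) < N := by exact_mod_cast hN
  have hN1 : (1 : ℝ) ≤ N := by exact_mod_cast hN
  have hAc : (A.card : ℝ) ≤ N := by
    have := card_le_card hAN
    rw [Nat.card_Icc, Nat.add_sub_cancel] at this
    exact_mod_cast this
  have hP0 : (0 : ℝ) < (N : ℝ) ^ (1 - δ) := by positivity
  set Y : ℝ := (N : ℝ) ^ c with hY
  have hY1 : 1 ≤ Y := Real.one_le_rpow hN1 hc0.le
  rcases le_or_gt Y Y0 with hs | hb
  · refine hAc.trans ((h0 N hN hs).trans ?_)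
    apply mul_le_mul_of_nonneg_right _ hP0.le
    linarith
  have h3 : (A.card : ℝ) ≤ K * (N : ℝ) ^ (1 - δ) := by
    apply h1 i N hN A hAN
    intro n hn
    obtain ⟨g3, g4⟩ := hA n hn
    have g5 : Y ^ (κ + ε) ≤ (x i n : ℝ) := by
      rwa [hY, ← Real.rpow_mul hNp.le]
    have hyr : (0 : ℝ) < (x i n : ℝ) := lt_of_lt_of_le (by positivity) g3
    have hy0 : 0 < x i n := by exact_mod_cast hyr
    refine ⟨mem_S hD _, ?_, fun htyp => ?_⟩
    · have e : |(((x i n : ℕ) : ℤ) : ℝ)| = x i n := by rw [Int.cast_natCast, abs_of_pos hyr]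
      rw [e]
      refine le_trans ?_ g5
      exact Real.rpow_le_rpow_of_exponent_le hY1 (by linarith)
    · exact g4 (h2 Y hb.le (x i n) hy0 g5 htyp)
  refine h3.trans ?_
  apply mul_le_mul_of_nonneg_right _ hP0.le
  linarith

/-- the law for all terms -/
theorem all (hD : 2 ≤ D) {c : ℝ} (hc0 : 0 < c) {x : ι → ℕ → ℕ} (hx : Spr D c (fun i n => (x i n : ℤ))) :
    ∃ c' : ℝ, 0 < c' ∧ ∀ ε : ℝ, 0 < ε → ∃ δ K : ℝ, 0 < δ ∧ 0 < K ∧ ∀ (i : ι) (N : ℕ), 1 ≤ N →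
      ∀ A : Finset ℕ, A ⊆ Icc 1 N → (∀ n ∈ A, ¬ (0 < x i n ∧ Law D ε ((N : ℝ) ^ c') (x i n))) →
      (A.card : ℝ) ≤ K * (N : ℝ) ^ (1 - δ) := by
  classical
  obtain ⟨hκ0, hκ1⟩ := kap_bounds hD (show 2 ≤ D + 1 by omega) (cop D) (hle hD)
  obtain ⟨c1, δ1, K1, hc1, hδ1, hK1, h1⟩ := few_small hD hc0 hx
  set c' : ℝ := min c (c1 / (kap D (D + 1) + 1)) with hc'
  have hc'0 : 0 < c' := lt_min hc0 (by positivity)
  have hc'2 : c' * (kap D (D + 1) + 1) ≤ c1 := by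
    have : c' ≤ c1 / (kap D (D + 1) + 1) := min_le_right _ _
    rwa [le_div_iff₀ (by positivity)] at this
  refine ⟨c', hc'0, fun ε hε => ?_⟩
  set ε' : ℝ := min ε 1 with hε'
  have hε'0 : 0 < ε' := lt_min hε one_pos
  obtain ⟨δ2, K2, hδ2, hK2, h2⟩ := large hD hc'0 (x := x) (hx.mono (min_le_left _ _)) hε'0
  set δ := min δ1 δ2 with hδ
  refine ⟨δ, K1 + K2, lt_min hδ1 hδ2, by positivity, ?_⟩
  intro i N hN A hAN hA
  have hN1 : (1 : ℝ) ≤ N := by exact_mod_cast hN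
  have hNp : (0 : ℝ) < N := by linarith
  set A1 := A.filter (fun n => |(((x i n : ℕ) : ℤ) : ℝ)| ≤ (N : ℝ) ^ c1) with hA1
  set A2 := A.filter (fun n => ¬ |(((x i n : ℕ) : ℤ) : ℝ)| ≤ (N : ℝ) ^ c1) with hA2
  have h3 : (A1.card : ℝ) ≤ K1 * (N : ℝ) ^ (1 - δ1) :=
    h1 i N hN A1 ((filter_subset _ _).trans hAN) fun n hn => (mem_filter.1 hn).2
  have hY1 : (1 : ℝ) ≤ (N : ℝ) ^ c' := Real.one_le_rpow hN1 hc'0.le
  have h4 : (A2.card : ℝ) ≤ K2 * (N : ℝ) ^ (1 - δ2) := by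
    apply h2 i N hN A2 ((filter_subset _ _).trans hAN)
    intro n hn
    rw [hA2, mem_filter] at hn
    obtain ⟨hnA, hbig⟩ := hn
    push Not at hbig
    have e : |(((x i n : ℕ) : ℤ) : ℝ)| = x i n := by rw [Int.cast_natCast, abs_of_nonneg (Nat.cast_nonneg _)]
    rw [e] at hbig
    have g1 := hA n hnA
    have hxp : (0 : ℝ) < (x i n : ℝ) := lt_trans (by positivity) hbig
    refine ⟨?_, fun hl => g1 ⟨by exact_mod_cast hxp, hl.mono hY1 (min_le_left _ _)⟩⟩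
    refine le_trans ?_ hbig.le
    apply Real.rpow_le_rpow_of_exponent_le hN1
    have : ε' ≤ 1 := min_le_right _ _
    have := mul_le_mul_of_nonneg_left this hc'0.le
    linarith
  have h5 : A1.card + A2.card = A.card := Finset.card_filter_add_card_filter_not _
  have h6 : (A.card : ℝ) = A1.card + A2.card := by rw [← h5]; push_cast; rfl
  rw [h6, add_mul]
  apply add_le_add
  · refine h3.trans (mul_le_mul_of_nonneg_left ?_ hK1.le)
    apply Real.rpow_le_rpow_of_exponent_le hN1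
    have : δ ≤ δ1 := min_le_left _ _
    linarith
  · refine h4.trans (mul_le_mul_of_nonneg_left ?_ hK2.le)
    apply Real.rpow_le_rpow_of_exponent_le hN1
    have : δ ≤ δ2 := min_le_right _ _
    linarith

/-- the law in windows for fast growing sequences -/
theorem fast (hD : 2 ≤ D) {u : ℕ → ℕ} (hx : Spr D 1 (fun (X : ℕ) (n : ℕ) => ((u (X + n) : ℕ) : ℤ)))
    (hu : Fast (fun n => (u n : ℤ))) {ε : ℝ} (hε : 0 < ε) :
    ∃ δ K : ℝ, 0 < δ ∧ 0 < K ∧ ∀ X N : ℕ, 1 ≤ N → ∀ A : Finset ℕ, A ⊆ Icc 1 N →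
      (∀ n ∈ A, ¬ (0 < u (X + n) ∧ Law D ε N (u (X + n)))) → (A.card : ℝ) ≤ K * (N : ℝ) ^ (1 - δ) := by
  classical
  set κ := kap D (D + 1) with hκ
  obtain ⟨δ2, K2, hδ2, hK2, h2⟩ := large hD one_pos (x := fun X n => u (X + n)) hx hε
  obtain ⟨K1, hK1, h1⟩ := fast_small hu (κ + ε)
  set δ := min (1 / 2) δ2 with hδ
  refine ⟨δ, K1 + K2, lt_min (by norm_num) hδ2, by positivity, ?_⟩
  intro X N hN A hAN hA
  have hN1 : (1 : ℝ) ≤ N := by exact_mod_cast hN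
  have hNp : (0 : ℝ) < N := by linarith
  set A1 := A.filter (fun n => |(((u (X + n) : ℕ) : ℤ) : ℝ)| < (N : ℝ) ^ (κ + ε)) with hA1
  set A2 := A.filter (fun n => ¬ |(((u (X + n) : ℕ) : ℤ) : ℝ)| < (N : ℝ) ^ (κ + ε)) with hA2
  have h3 : (A1.card : ℝ) ≤ K1 * (N : ℝ) ^ (1 - 1 / 2 : ℝ) :=
    h1 X N hN A1 ((filter_subset _ _).trans hAN) fun n hn => (mem_filter.1 hn).2
  have h4 : (A2.card : ℝ) ≤ K2 * (N : ℝ) ^ (1 - δ2) := by
    apply h2 X N hN A2 ((filter_subset _ _).trans hAN)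
    intro n hn
    rw [hA2, mem_filter] at hn
    obtain ⟨hnA, hbig⟩ := hn
    push Not at hbig
    have e : |(((u (X + n) : ℕ) : ℤ) : ℝ)| = u (X + n) := by
      rw [Int.cast_natCast, abs_of_nonneg (Nat.cast_nonneg _)]
    rw [e] at hbig
    have g1 := hA n hnA
    have hxp : (0 : ℝ) < (u (X + n) : ℝ) := lt_of_lt_of_le (by positivity) hbig
    refine ⟨by rw [one_mul]; exact hbig, fun hl => g1 ⟨by exact_mod_cast hxp, ?_⟩⟩
    rwa [Real.rpow_one] at hl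
  have h5 : A1.card + A2.card = A.card := Finset.card_filter_add_card_filter_not _
  have h6 : (A.card : ℝ) = A1.card + A2.card := by rw [← h5]; push_cast; rfl
  rw [h6, add_mul]
  apply add_le_add
  · refine h3.trans (mul_le_mul_of_nonneg_left ?_ hK1.le)
    apply Real.rpow_le_rpow_of_exponent_le hN1
    have : δ ≤ 1 / 2 := min_le_left _ _
    linarith
  · refine h4.trans (mul_le_mul_of_nonneg_left ?_ hK2.le)
    apply Real.rpow_le_rpow_of_exponent_le hN1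
    have : δ ≤ δ2 := min_le_right _ _
    linarith

end Pool.Agent.U491.LR.Wi
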